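import Mathlib

/-!
# Asymptotic formula for the number of abc-triples by radical: definitions

Pairs `t = (a, b)` of positive integers stand for the triple `(a, b, a + b)`, in both orders.
-/

open Finset

namespace Pool.Agent.Lib.AbcG

/-- The radical. -/
def rad (n : ℕ) : ℕ := ∏ p ∈ n.primeFactors, p

/-- `wt n = n / rad n`. -/
def wt (n : ℕ) : ℕ := n / rad n

/-- The product `a b (a + b)`. -/
def Nn (t : ℕ × ℕ) : ℕ := t.1 * t.2 * (t.1 + t.2)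

/-- The pairs of positive integers with `a b (a + b) ≤ T`. -/
noncomputable def Reg (T : ℝ) : Finset (ℕ × ℕ) :=
  ((Icc 1 ⌊T⌋₊) ×ˢ (Icc 1 ⌊T⌋₊)).filter (fun t => (Nn t : ℝ) ≤ T)

theorem mem_Reg {T : ℝ} {t : ℕ × ℕ} :
    t ∈ Reg T ↔ 1 ≤ t.1 ∧ 1 ≤ t.2 ∧ (Nn t : ℝ) ≤ T := by
  unfold Reg
  rw [mem_filter, mem_product, mem_Icc, mem_Icc]
  constructor
  · rintro ⟨⟨⟨h1, _⟩, ⟨h2, _⟩⟩, h3⟩
    exact ⟨h1, h2, h3⟩
  · rintro ⟨h1, h2, h3⟩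
    have e1 : t.1 ≤ Nn t := by
      unfold Nn
      calc t.1 = t.1 * 1 * 1 := by ring
        _ ≤ t.1 * t.2 * (t.1 + t.2) := by gcongr; omega
    have e2 : t.2 ≤ Nn t := by
      unfold Nn
      calc t.2 = 1 * t.2 * 1 := by ring
        _ ≤ t.1 * t.2 * (t.1 + t.2) := by gcongr; omega
    refine ⟨⟨⟨h1, ?_⟩, ⟨h2, ?_⟩⟩, h3⟩
    · exact Nat.le_floor (le_trans (by exact_mod_cast e1) h3)
    · exact Nat.le_floor (le_trans (by exact_mod_cast e2) h3)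

/-- The area of `{x, y > 0, x y (x + y) ≤ 1}`, namely `Γ(1/3)² / (2 Γ(2/3))`. -/
noncomputable def c0 : ℝ := Real.Gamma (1 / 3) ^ 2 / (2 * Real.Gamma (2 / 3))

/-- Number of coprime pairs in the region with divisibility conditions on the three members. -/
noncomputable def Bc (q1 q2 q3 : ℕ) (T : ℝ) : ℕ :=
  ((Reg T).filter (fun t => t.1.Coprime t.2 ∧ q1 ∣ t.1 ∧ q2 ∣ t.2 ∧ q3 ∣ t.1 + t.2)).card

/-- Number of coprime pairs in the region with `L ∣ a b (a + b)`. -/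
noncomputable def Ac (L : ℕ) (T : ℝ) : ℕ :=
  ((Reg T).filter (fun t => t.1.Coprime t.2 ∧ L ∣ Nn t)).card

/-- The local factor `∏_{p ∣ L} (1 + 1/p)⁻¹`. -/
noncomputable def psi (L : ℕ) : ℝ := ∏ p ∈ L.primeFactors, (1 + 1 / (p : ℝ))⁻¹

/-- The constant of the asymptotic formula. -/
noncomputable def Cabc : ℝ :=
  c0 * ∏' p : Nat.Primes, ((1 - 1 / (p : ℝ)) * (1 + 1 / (p : ℝ) +
    3 * (p : ℝ) ^ (-(4 / 3) : ℝ) + 3 * (p : ℝ) ^ (-(5 / 3) : ℝ)))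

/-- The tail hypothesis (provided by the almost-all theorem): few triples with
`c > Y ^ (1/3 + 1/1000)`. -/
def TailHyp : Prop := ∃ κ : ℝ, 0 < κ ∧ ∀ᶠ n : ℕ in Filter.atTop, ∀ T : Finset (ℕ × ℕ),
  (∀ t ∈ T, 0 < t.1 ∧ 0 < t.2 ∧ t.1.Coprime t.2 ∧ rad (Nn t) ≤ n ∧
    (n : ℝ) ^ (1 / 3 + 1 / 1000 : ℝ) < (t.1 : ℝ) + t.2) → (T.card : ℝ) ≤ (n : ℝ) ^ (2 / 3 - κ)

end Pool.Agent.Lib.AbcG
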