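import Mathlib
import Pool.Agent.Lib.AbcG.Defs

/-!
# Moebius inversion in `wt n`

PROOF. `rad n ≤ Y` iff `n ≤ Y * wt n` (`rad n ∣ n`). For `φ(W) = 1[n ≤ Y W]` Moebius inversion:
`φ(W) = ∑_{v ∣ W} ∑_{m ∣ v} μ(m) φ(v/m)`, `W = wt n`. And `v ∣ wt n` iff `v rad v ∣ n` (compare
exponents: for `p ∣ v` both say `v_p(v) + 1 ≤ v_p(n)`; `rad v` and `rad n` are products of distinct
primes). If all `v ≤ V` only are kept, nothing changes when `wt n ≤ V`; otherwise the error is at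
most `1 + ∑_{v ≤ V, v ∣ wt n} τ(v)` if `rad n ≤ Y` and `0` if `rad n > Y` (a term with
`n ≤ Y v / m ≤ Y v ≤ Y wt n` forces `rad n ≤ Y`). Summing over all pairs: `F` is the set of all
coprime pairs with `rad ≤ Y`; pairs with `rad > Y` contribute nothing, every pair counted in
`Ac (v rad v) (Y v / m)` is in `F`.
-/

open Finset

namespace Pool.Agent.Lib.AbcG

theorem rad_dvd (n : ℕ) : rad n ∣ n := Nat.prod_primeFactors_dvd n

theorem rad_pos (n : ℕ) : 0 < rad n :=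
  Finset.prod_pos fun _ hp => (Nat.prime_of_mem_primeFactors hp).pos

theorem rad_mul_wt (n : ℕ) : rad n * wt n = n := Nat.mul_div_cancel' (rad_dvd n)

theorem wt_pos {n : ℕ} (hn : 1 ≤ n) : 0 < wt n := by
  rcases Nat.eq_zero_or_pos (wt n) with h | h
  · have := rad_mul_wt n
    rw [h, mul_zero] at this
    omega
  · exact h

theorem dvd_wt_iff {v n : ℕ} (hv : 1 ≤ v) (hn : 1 ≤ n) : v ∣ wt n ↔ v * rad v ∣ n := by
  have hn0 : n ≠ 0 := by omega
  have hv0 : v ≠ 0 := by omega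
  constructor
  · intro h
    have hvn : v ∣ n := h.trans (Dvd.intro_left _ (rad_mul_wt n))
    have hr : rad v ∣ rad n :=
      Finset.prod_dvd_prod_of_subset _ _ _ (Nat.primeFactors_mono hvn hn0)
    have h1 := Nat.mul_dvd_mul hr h
    rw [rad_mul_wt, mul_comm] at h1
    exact h1
  · intro h
    have hvn : v ∣ n := (Dvd.intro _ rfl).trans h
    have hsub : v.primeFactors ⊆ n.primeFactors := Nat.primeFactors_mono hvn hn0
    have hprod : (∏ p ∈ n.primeFactors \ v.primeFactors, p) * rad v = rad n :=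
      Finset.prod_sdiff hsub
    have hcop : Nat.Coprime (v * rad v) (∏ p ∈ n.primeFactors \ v.primeFactors, p) := by
      apply Nat.Coprime.prod_right
      intro p hp
      rw [mem_sdiff] at hp
      have hpp := Nat.prime_of_mem_primeFactors hp.1
      have hpv : ¬ p ∣ v := fun h2 => hp.2 (Nat.mem_primeFactors.2 ⟨hpp, h2, hv0⟩)
      have h3 : ¬ p ∣ v * rad v := by
        intro h4
        rcases hpp.dvd_mul.1 h4 with h5 | h5
        · exact hpv h5
        · exact hpv (h5.trans (rad_dvd v))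
      exact ((Nat.Prime.coprime_iff_not_dvd hpp).2 h3).symm
    have hd : (∏ p ∈ n.primeFactors \ v.primeFactors, p) ∣ n :=
      (Dvd.intro _ hprod).trans (rad_dvd n)
    have h6 := hcop.mul_dvd_of_dvd_of_dvd h hd
    have e : v * rad v * (∏ p ∈ n.primeFactors \ v.primeFactors, p) = rad n * v := by
      rw [← hprod]; ring
    rw [e] at h6
    have h7 : rad n * v ∣ rad n * wt n := by rw [rad_mul_wt]; exact h6
    exact Nat.dvd_of_mul_dvd_mul_left (rad_pos n) h7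

theorem mob_inv (φ : ℕ → ℝ) (W : ℕ) (hW : 0 < W) :
    ∑ v ∈ W.divisors, ∑ m ∈ v.divisors,
      ((ArithmeticFunction.moebius m : ℤ) : ℝ) * φ (v / m) = φ W := by
  refine (ArithmeticFunction.sum_eq_iff_sum_mul_moebius_eq
    (f := fun v => ∑ m ∈ v.divisors, ((ArithmeticFunction.moebius m : ℤ) : ℝ) * φ (v / m))
    (g := φ)).2 (fun n _ => ?_) W hW
  exact Nat.sum_divisorsAntidiagonal (fun a b => ((ArithmeticFunction.moebius a : ℤ) : ℝ) * φ b)

theorem Nn_pos {t : ℕ × ℕ} (h1 : 0 < t.1) (h2 : 0 < t.2) : 1 ≤ Nn t := by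
  unfold Nn
  exact Nat.mul_pos (Nat.mul_pos h1 h2) (by omega)

theorem inv_Ac (Y : ℕ) (F : Finset (ℕ × ℕ))
    (hF : ∀ t : ℕ × ℕ, t ∈ F ↔ 0 < t.1 ∧ 0 < t.2 ∧ t.1.Coprime t.2 ∧ rad (Nn t) ≤ Y)
    {v m : ℕ} (hv : 1 ≤ v) (hm : m ∣ v) :
    (Ac (v * rad v) ((Y : ℝ) * v / m) : ℝ) =
      ∑ t ∈ F, (if v ∣ wt (Nn t) then (if Nn t ≤ Y * (v / m) then (1 : ℝ) else 0) else 0) := by
  have hT : (Y : ℝ) * v / m = ((Y * (v / m) : ℕ) : ℝ) := by
    rw [Nat.cast_mul, Nat.cast_div hm (by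
      have : m ≠ 0 := by
        rintro rfl
        rw [Nat.zero_dvd] at hm
        omega
      exact_mod_cast this), mul_div_assoc]
  have hset : (Reg ((Y : ℝ) * v / m)).filter (fun t => t.1.Coprime t.2 ∧ v * rad v ∣ Nn t) =
      F.filter (fun t => v ∣ wt (Nn t) ∧ Nn t ≤ Y * (v / m)) := by
    ext t
    rw [mem_filter, mem_filter, mem_Reg, hF, hT]
    constructor
    · rintro ⟨⟨h1, h2, h3⟩, h4, h5⟩
      have hN : 1 ≤ Nn t := Nn_pos h1 h2
      have h6 : v ∣ wt (Nn t) := (dvd_wt_iff hv hN).2 h5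
      have h7 : Nn t ≤ Y * (v / m) := by exact_mod_cast h3
      refine ⟨⟨h1, h2, h4, ?_⟩, h6, h7⟩
      have hw := wt_pos hN
      have h8 : v / m ≤ wt (Nn t) := (Nat.div_le_self v m).trans (Nat.le_of_dvd hw h6)
      have h9 : rad (Nn t) * wt (Nn t) ≤ Y * wt (Nn t) := by
        rw [rad_mul_wt]
        exact h7.trans (Nat.mul_le_mul_left Y h8)
      exact Nat.le_of_mul_le_mul_right h9 hw
    · rintro ⟨⟨h1, h2, h4, _⟩, h6, h7⟩
      have hN : 1 ≤ Nn t := Nn_pos h1 h2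
      exact ⟨⟨h1, h2, by exact_mod_cast h7⟩, h4, (dvd_wt_iff hv hN).1 h6⟩
  unfold Ac
  rw [hset, card_filter]
  push_cast
  refine sum_congr rfl (fun t _ => ?_)
  by_cases h1 : v ∣ wt (Nn t)
  · by_cases h2 : Nn t ≤ Y * (v / m) <;> simp [h1, h2]
  · simp [h1]

theorem inv_count (Y V : ℕ) (hY : 1 ≤ Y) (F : Finset (ℕ × ℕ))
    (hF : ∀ t : ℕ × ℕ, t ∈ F ↔ 0 < t.1 ∧ 0 < t.2 ∧ t.1.Coprime t.2 ∧ rad (Nn t) ≤ Y) :
    |(F.card : ℝ) - ∑ v ∈ Icc 1 V, ∑ m ∈ v.divisors,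
        ((ArithmeticFunction.moebius m : ℤ) : ℝ) * (Ac (v * rad v) ((Y : ℝ) * v / m) : ℝ)| ≤
      ∑ t ∈ F.filter (fun t => V < wt (Nn t)),
        (1 + ∑ v ∈ (Icc 1 V).filter (fun v => v ∣ wt (Nn t)), (v.divisors.card : ℝ)) := by
  obtain ⟨G, hG⟩ : ∃ G : ℕ × ℕ → ℝ, G = fun t => ∑ v ∈ (Icc 1 V).filter (fun v => v ∣ wt (Nn t)),
      ∑ m ∈ v.divisors, ((ArithmeticFunction.moebius m : ℤ) : ℝ) *
        (if Nn t ≤ Y * (v / m) then (1 : ℝ) else 0) := ⟨_, rfl⟩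
  have h1 : ∑ v ∈ Icc 1 V, ∑ m ∈ v.divisors,
        ((ArithmeticFunction.moebius m : ℤ) : ℝ) * (Ac (v * rad v) ((Y : ℝ) * v / m) : ℝ) =
      ∑ t ∈ F, G t := by
    have h2 : ∀ v ∈ Icc 1 V, ∑ m ∈ v.divisors,
        ((ArithmeticFunction.moebius m : ℤ) : ℝ) * (Ac (v * rad v) ((Y : ℝ) * v / m) : ℝ) =
        ∑ t ∈ F, (if v ∣ wt (Nn t) then ∑ m ∈ v.divisors,
          ((ArithmeticFunction.moebius m : ℤ) : ℝ) *
            (if Nn t ≤ Y * (v / m) then (1 : ℝ) else 0) else 0) := by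
      intro v hv
      have hv1 : 1 ≤ v := (mem_Icc.1 hv).1
      have h3 : ∀ m ∈ v.divisors,
          ((ArithmeticFunction.moebius m : ℤ) : ℝ) * (Ac (v * rad v) ((Y : ℝ) * v / m) : ℝ) =
          ∑ t ∈ F, ((ArithmeticFunction.moebius m : ℤ) : ℝ) *
            (if v ∣ wt (Nn t) then (if Nn t ≤ Y * (v / m) then (1 : ℝ) else 0) else 0) := by
        intro m hm
        rw [inv_Ac Y F hF hv1 (Nat.dvd_of_mem_divisors hm), mul_sum]
      rw [sum_congr rfl h3, sum_comm]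
      refine sum_congr rfl (fun t _ => ?_)
      split_ifs with h4
      · rfl
      · simp
    rw [sum_congr rfl h2, sum_comm, hG]
    exact sum_congr rfl (fun t _ => (sum_filter _ _).symm)
  have h4 : (F.card : ℝ) = ∑ _t ∈ F, (1 : ℝ) := by simp
  rw [h1, h4, ← sum_sub_distrib]
  refine (abs_sum_le_sum_abs _ _).trans ?_
  rw [sum_filter]
  refine sum_le_sum (fun t ht => ?_)
  obtain ⟨ht1, ht2, ht3, ht4⟩ := (hF t).1 ht
  have hN : 1 ≤ Nn t := Nn_pos ht1 ht2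
  have hw := wt_pos hN
  split_ifs with hV
  · refine (abs_sub _ _).trans ?_
    rw [abs_one]
    apply add_le_add le_rfl
    rw [hG]
    refine (abs_sum_le_sum_abs _ _).trans (sum_le_sum (fun v _ => ?_))
    refine (abs_sum_le_sum_abs _ _).trans ?_
    have h5 : ∀ m ∈ v.divisors, |((ArithmeticFunction.moebius m : ℤ) : ℝ) *
        (if Nn t ≤ Y * (v / m) then (1 : ℝ) else 0)| ≤ 1 := by
      intro m _
      have h6 : |((ArithmeticFunction.moebius m : ℤ) : ℝ)| ≤ 1 := by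
        have h := ArithmeticFunction.abs_moebius_le_one (n := m)
        exact_mod_cast h
      split_ifs
      · rw [mul_one]; exact h6
      · rw [mul_zero, abs_zero]; exact zero_le_one
    refine (sum_le_sum h5).trans ?_
    simp
  · have h7 : (Icc 1 V).filter (fun v => v ∣ wt (Nn t)) = (wt (Nn t)).divisors := by
      ext v
      rw [mem_filter, mem_Icc, Nat.mem_divisors]
      constructor
      · rintro ⟨_, h8⟩
        exact ⟨h8, hw.ne'⟩
      · rintro ⟨h8, _⟩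
        exact ⟨⟨Nat.pos_of_dvd_of_pos h8 hw, (Nat.le_of_dvd hw h8).trans (not_lt.1 hV)⟩, h8⟩
    have h8 : G t = 1 := by
      rw [hG]
      show ∑ v ∈ (Icc 1 V).filter (fun v => v ∣ wt (Nn t)),
        ∑ m ∈ v.divisors, ((ArithmeticFunction.moebius m : ℤ) : ℝ) *
          (if Nn t ≤ Y * (v / m) then (1 : ℝ) else 0) = 1
      rw [h7]
      have h9 := mob_inv (fun u => if Nn t ≤ Y * u then (1 : ℝ) else 0) (wt (Nn t)) hw
      refine h9.trans ?_
      apply if_pos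
      calc Nn t = rad (Nn t) * wt (Nn t) := (rad_mul_wt _).symm
        _ ≤ Y * wt (Nn t) := Nat.mul_le_mul_right _ ht4
    rw [h8, sub_self, abs_zero]

end Pool.Agent.Lib.AbcG
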