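import Mathlib
import Pool.Agent.Lib.AbcG.Defs

/-!
# The density of coprime pairs with divisibility conditions

`∑_e μ(e) gcd(e, L) / e² = (6/π²) ∏_{p ∣ L} (1 + 1/p)⁻¹`.

PROOF. `f e = μ(e) gcd(e,L)/e²` is multiplicative (on coprime arguments) and absolutely summable
(`gcd(e, L) ≤ L`), `f (p^k) = 0` for `k ≥ 2`, so by `EulerProduct.eulerProduct_hasProd` the sum is
`∏_p (1 - gcd(p, L)/p²)`. The same with `L = 1` gives `∏_p (1 - 1/p²) = 1/ζ(2) = 6/π²`
(`riemannZeta_two`, `riemannZeta_eulerProduct_hasProd`, or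
`ArithmeticFunction.LSeries_zeta_mul_Lseries_moebius`). The two products differ only in the
finitely many factors `p ∣ L`: `(1 - 1/p) = (1 - 1/p²) (1 + 1/p)⁻¹`.
-/

open Finset

namespace Pool.Agent.Lib.AbcG

/-- The general term. -/
noncomputable def mobT (L e : ℕ) : ℝ :=
  ((ArithmeticFunction.moebius e : ℤ) : ℝ) * (Nat.gcd e L : ℝ) / (e : ℝ) ^ 2

theorem mob_abs_le (e : ℕ) : |((ArithmeticFunction.moebius e : ℤ) : ℝ)| ≤ 1 := by
  have h := ArithmeticFunction.abs_moebius_le_one (n := e)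
  exact_mod_cast h

theorem abs_mobT_le (L e : ℕ) : |mobT L e| ≤ (Nat.gcd e L : ℝ) / (e : ℝ) ^ 2 := by
  unfold mobT
  rw [abs_div, abs_mul, abs_of_nonneg (by positivity : (0 : ℝ) ≤ (Nat.gcd e L : ℝ)),
    abs_of_nonneg (by positivity : (0 : ℝ) ≤ (e : ℝ) ^ 2)]
  apply div_le_div_of_nonneg_right _ (by positivity)
  have h := mob_abs_le e
  have h2 : (0 : ℝ) ≤ (Nat.gcd e L : ℝ) := by positivity
  nlinarith

theorem summable_mob (L : ℕ) (hL : 1 ≤ L) : Summable (fun e : ℕ =>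
    |((ArithmeticFunction.moebius e : ℤ) : ℝ) * (Nat.gcd e L : ℝ) / (e : ℝ) ^ 2|) := by
  have h2 : Summable (fun e : ℕ => (L : ℝ) * (1 / (e : ℝ) ^ 2)) :=
    (Real.summable_one_div_nat_pow.2 (by norm_num : 1 < 2)).mul_left (L : ℝ)
  refine Summable.of_nonneg_of_le (fun e => abs_nonneg _) (fun e => ?_) h2
  refine (abs_mobT_le L e).trans ?_
  rw [mul_one_div]
  apply div_le_div_of_nonneg_right _ (by positivity)
  exact_mod_cast Nat.gcd_le_right e hL

theorem mobT_one (L : ℕ) : mobT L 1 = 1 := by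
  unfold mobT
  simp

theorem mobT_zero (L : ℕ) : mobT L 0 = 0 := by
  unfold mobT
  simp

theorem mobT_mul (L : ℕ) {m n : ℕ} (h : m.Coprime n) : mobT L (m * n) = mobT L m * mobT L n := by
  unfold mobT
  rw [ArithmeticFunction.isMultiplicative_moebius.map_mul_of_coprime h, Nat.gcd_comm (m * n) L,
    h.gcd_mul L, Nat.gcd_comm L m, Nat.gcd_comm L n]
  push_cast
  rw [mul_pow, div_mul_div_comm]
  congr 1
  ring

theorem mobT_prime_pow (L : ℕ) (p : Nat.Primes) :
    ∑' e : ℕ, mobT L ((p : ℕ) ^ e) = 1 - (Nat.gcd p L : ℝ) / (p : ℝ) ^ 2 := by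
  have hp := p.2
  rw [tsum_eq_sum (s := range 2)]
  · rw [sum_range_succ, sum_range_one, pow_zero, pow_one, mobT_one]
    unfold mobT
    rw [ArithmeticFunction.moebius_apply_prime hp]
    push_cast
    ring
  · intro e he
    have he2 : 2 ≤ e := by
      rw [mem_range, not_lt] at he
      exact he
    unfold mobT
    have h0 : ArithmeticFunction.moebius ((p : ℕ) ^ e) = 0 := by
      rw [ArithmeticFunction.moebius_apply_prime_pow hp (by omega), if_neg (by omega)]
    rw [h0]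
    simp

theorem hasProd_mobT (L : ℕ) (hL : 1 ≤ L) :
    HasProd (fun p : Nat.Primes => 1 - (Nat.gcd p L : ℝ) / (p : ℝ) ^ 2) (∑' e : ℕ, mobT L e) := by
  have h := EulerProduct.eulerProduct_hasProd (f := mobT L) (mobT_one L)
    (fun {m n} h => mobT_mul L h) (summable_mob L hL) (mobT_zero L)
  have e : (fun p : Nat.Primes => ∑' e : ℕ, mobT L ((p : ℕ) ^ e)) =
      fun p : Nat.Primes => 1 - (Nat.gcd p L : ℝ) / (p : ℝ) ^ 2 :=
    funext (mobT_prime_pow L)
  rw [e] at h
  exact h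

/-- `n ↦ 1/n²` as a monoid homomorphism. -/
noncomputable def mobInvSq : ℕ →*₀ ℝ where
  toFun n := 1 / (n : ℝ) ^ 2
  map_zero' := by simp
  map_one' := by simp
  map_mul' m n := by push_cast; rw [mul_pow]; field_simp

theorem mob_hasProd_zeta : HasProd (fun p : Nat.Primes => (1 - 1 / (p : ℝ) ^ 2)⁻¹)
    (Real.pi ^ 2 / 6) := by
  have h0 : Summable (fun n : ℕ => ‖mobInvSq n‖) := by
    have h1 : Summable (fun n : ℕ => 1 / (n : ℝ) ^ 2) :=
      Real.summable_one_div_nat_pow.2 (by norm_num : 1 < 2)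
    exact h1.norm
  have h := EulerProduct.eulerProduct_completely_multiplicative_hasProd (f := mobInvSq) h0
  have e : ∑' n : ℕ, mobInvSq n = Real.pi ^ 2 / 6 := hasSum_zeta_two.tsum_eq
  rw [e] at h
  exact h

theorem mob_one_sub_ne (p : Nat.Primes) : (1 : ℝ) - 1 / (p : ℝ) ^ 2 ≠ 0 := by
  have hp : (2 : ℝ) ≤ (p : ℝ) := by exact_mod_cast p.2.two_le
  have h1 : 1 / (p : ℝ) ^ 2 ≤ 1 / 4 := by
    apply one_div_le_one_div_of_le (by norm_num)
    nlinarith
  linarith

theorem tsum_mobT_one : ∑' e : ℕ, mobT 1 e = 6 / Real.pi ^ 2 := by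
  have h1 := hasProd_mobT 1 le_rfl
  have h2 := h1.mul mob_hasProd_zeta
  have e : (fun p : Nat.Primes => (1 - (Nat.gcd p 1 : ℝ) / (p : ℝ) ^ 2) *
      (1 - 1 / (p : ℝ) ^ 2)⁻¹) = fun _ => (1 : ℝ) := by
    funext p
    rw [Nat.gcd_one_right]
    push_cast
    exact mul_inv_cancel₀ (mob_one_sub_ne p)
  rw [e] at h2
  have h3 := h2.unique hasProd_one
  have hpi := Real.pi_pos
  rw [eq_div_iff (by positivity)]
  have h4 : (∑' e : ℕ, mobT 1 e) * (Real.pi ^ 2 / 6) * 6 = 1 * 6 := by rw [h3]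
  linarith

/-- The correction factors. -/
theorem hasProd_psi (L : ℕ) (hL : 1 ≤ L) :
    HasProd (fun p : Nat.Primes => if (p : ℕ) ∣ L then (1 + 1 / (p : ℝ))⁻¹ else 1) (psi L) := by
  have e : psi L = ∏ p ∈ L.primeFactors.subtype Nat.Prime,
      (if ((p : Nat.Primes) : ℕ) ∣ L then (1 + 1 / (((p : Nat.Primes) : ℕ) : ℝ))⁻¹ else 1) := by
    unfold psi
    rw [Finset.prod_subtype_of_mem (p := Nat.Prime)
      (f := fun p : ℕ => if p ∣ L then (1 + 1 / (p : ℝ))⁻¹ else 1)
      (fun p hp => Nat.prime_of_mem_primeFactors hp)]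
    refine prod_congr rfl (fun p hp => ?_)
    rw [if_pos (Nat.dvd_of_mem_primeFactors hp)]
  rw [e]
  apply hasProd_prod_of_ne_finset_one
  intro p hp
  apply if_neg
  intro hd
  apply hp
  exact Finset.mem_subtype.2 (Nat.mem_primeFactors.2 ⟨p.2, hd, by omega⟩)

theorem tsum_mob (L : ℕ) (hL : 1 ≤ L) :
    ∑' e : ℕ, ((ArithmeticFunction.moebius e : ℤ) : ℝ) * (Nat.gcd e L : ℝ) / (e : ℝ) ^ 2 =
      6 / Real.pi ^ 2 * psi L := by
  have h1 := hasProd_mobT L hL
  have h2 := (hasProd_mobT 1 le_rfl).mul (hasProd_psi L hL)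
  rw [tsum_mobT_one] at h2
  have e : (fun p : Nat.Primes => (1 - (Nat.gcd p 1 : ℝ) / (p : ℝ) ^ 2) *
      (if (p : ℕ) ∣ L then (1 + 1 / (p : ℝ))⁻¹ else 1)) =
      fun p : Nat.Primes => 1 - (Nat.gcd p L : ℝ) / (p : ℝ) ^ 2 := by
    funext p
    have hp : (0 : ℝ) < (p : ℝ) := by exact_mod_cast p.2.pos
    rw [Nat.gcd_one_right]
    split_ifs with hd
    · rw [Nat.gcd_eq_left hd]
      push_cast
      field_simp
      ring
    · have h3 : Nat.gcd p L = 1 := (Nat.Prime.coprime_iff_not_dvd p.2).2 hd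
      rw [h3, mul_one]
  rw [e] at h2
  exact h1.unique h2

/-- The tail: `∑_{e > E} gcd(e, L)/e² ≤ 2 τ(L) / E`. -/
theorem tail_mob (L E : ℕ) (hL : 1 ≤ L) (hE : 1 ≤ E) :
    ∑' e : ℕ, (if E < e then
      |((ArithmeticFunction.moebius e : ℤ) : ℝ) * (Nat.gcd e L : ℝ) / (e : ℝ) ^ 2| else 0) ≤
      2 * L.divisors.card / E := by
  have hE' : (0 : ℝ) < E := by exact_mod_cast hE
  apply Real.tsum_le_of_sum_range_le
  · intro e
    split_ifs
    · exact abs_nonneg _
    · exact le_refl _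
  · intro N
    have h1 : ∀ e ∈ range N, (if E < e then
        |((ArithmeticFunction.moebius e : ℤ) : ℝ) * (Nat.gcd e L : ℝ) / (e : ℝ) ^ 2| else 0) ≤
        ∑ d ∈ L.divisors, (if E < e ∧ d ∣ e then (d : ℝ) / (e : ℝ) ^ 2 else 0) := by
      intro e _
      split_ifs with he
      · refine (abs_mobT_le L e).trans ?_
        have hd : Nat.gcd e L ∈ L.divisors :=
          Nat.mem_divisors.2 ⟨Nat.gcd_dvd_right e L, by omega⟩
        refine le_trans (le_of_eq ?_) (Finset.single_le_sum (f := fun d : ℕ =>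
          (if E < e ∧ d ∣ e then (d : ℝ) / (e : ℝ) ^ 2 else 0)) (fun d _ => ?_) hd)
        · show _ = (if E < e ∧ Nat.gcd e L ∣ e then ((Nat.gcd e L : ℕ) : ℝ) / (e : ℝ) ^ 2 else 0)
          rw [if_pos ⟨he, Nat.gcd_dvd_left e L⟩]
        · show (0 : ℝ) ≤ (if E < e ∧ d ∣ e then (d : ℝ) / (e : ℝ) ^ 2 else 0)
          split_ifs
          · positivity
          · exact le_refl _
      · refine sum_nonneg (fun d _ => ?_)
        split_ifs
        · positivity
        · exact le_refl _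
    refine (sum_le_sum h1).trans ?_
    rw [sum_comm]
    have h2 : ∀ d ∈ L.divisors,
        ∑ e ∈ range N, (if E < e ∧ d ∣ e then (d : ℝ) / (e : ℝ) ^ 2 else 0) ≤ 2 / E := by
      intro d hd
      have hd1 : 1 ≤ d := Nat.pos_of_mem_divisors hd
      have hd' : (0 : ℝ) < d := by exact_mod_cast hd1
      rw [← sum_filter]
      have hsub : (range N).filter (fun e => E < e ∧ d ∣ e) ⊆
          (Ioo (E / d) N).image (fun k => d * k) := by
        intro e he
        rw [mem_filter, mem_range] at he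
        obtain ⟨heN, hEe, k, rfl⟩ := he
        rw [mem_image]
        refine ⟨k, ?_, rfl⟩
        rw [mem_Ioo]
        constructor
        · exact (Nat.div_lt_iff_lt_mul hd1).2 (by rw [mul_comm]; exact hEe)
        · exact lt_of_le_of_lt (Nat.le_mul_of_pos_left k hd1) heN
      refine (sum_le_sum_of_subset_of_nonneg hsub (fun _ _ _ => by positivity)).trans ?_
      rw [sum_image (fun a _ b _ h => Nat.eq_of_mul_eq_mul_left hd1 h)]
      have h3 : ∀ k ∈ Ioo (E / d) N, (d : ℝ) / ((d * k : ℕ) : ℝ) ^ 2 =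
          1 / d * ((k : ℝ) ^ 2)⁻¹ := by
        intro k _
        push_cast
        rw [mul_pow]
        by_cases hk : (k : ℝ) = 0
        · rw [hk]; simp
        · field_simp
      rw [sum_congr rfl h3, ← mul_sum]
      have h4 := sum_Ioo_inv_sq_le (α := ℝ) (E / d) N
      have h5 : (E : ℝ) ≤ d * (((E / d : ℕ) : ℝ) + 1) := by
        have h6 : E < d * (E / d + 1) := by
          have := Nat.lt_mul_div_succ E hd1
          exact this
        exact_mod_cast h6.le
      calc 1 / (d : ℝ) * ∑ i ∈ Ioo (E / d) N, ((i : ℝ) ^ 2)⁻¹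
          ≤ 1 / d * (2 / (((E / d : ℕ) : ℝ) + 1)) :=
            mul_le_mul_of_nonneg_left h4 (by positivity)
        _ = 2 / (d * (((E / d : ℕ) : ℝ) + 1)) := by field_simp
        _ ≤ 2 / E := div_le_div_of_nonneg_left (by norm_num) hE' h5
    refine (sum_le_sum h2).trans ?_
    rw [sum_const, nsmul_eq_mul]
    apply le_of_eq
    ring

end Pool.Agent.Lib.AbcG
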