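import Mathlib
import Pool.Agent.Lib.AbcG.Defs
import Pool.Agent.Lib.AbcG.Mob

/-!
# The singular series

`h v = 3^ω(v) psi(v) v^(2/3) / (v rad v) * ∑_{m ∣ v} μ(m) m^(-2/3)`.

PROOF. `∑_{m ∣ v} μ(m) m^(-2/3) = ∏_{p ∣ v} (1 - p^(-2/3))`, `psi` and `rad` depend only on the set
of primes of `v`, so `h` is multiplicative on coprime arguments,
`h (p^k) = 3 p^(-k/3 - 1) (1 - p^(-2/3)) / (1 + 1/p)` for `k ≥ 1`, and
`∑_{k ≥ 1} h (p^k) = 3 p^(-4/3) (1 + p^(-1/3)) / (1 + 1/p)`.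
Summability with the extra weight `v^(1/12)`: `0 ≤ h v * v^(1/12) ≤ 3^ω(v) v^(-1/4) / rad v`, whose
sum is at most `∏_p (1 + 3 ∑_{k ≥ 1} p^(-k/4 - 1)) < ∞` (`∑_p p^(-5/4) < ∞`); use
`EulerProduct.eulerProduct_hasProd` / `EulerProduct.summable_and_hasSum_...` or
`Summable` through finite products over primes below `N`.
`(6/π²) * ∑_v h v = ∏_p (1 - p^(-2)) (1 + 3 p^(-4/3)(1 + p^(-1/3))/(1 + 1/p))
 = ∏_p (1 - 1/p)(1 + 1/p + 3 p^(-4/3) + 3 p^(-5/3))`.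
-/

open Finset

namespace Pool.Agent.Lib.AbcG

/-- The terms of the singular series. -/
noncomputable def hh (v : ℕ) : ℝ :=
  3 ^ v.primeFactors.card * psi v * (v : ℝ) ^ (2 / 3 : ℝ) / (v * rad v) *
    ∑ m ∈ v.divisors, ((ArithmeticFunction.moebius m : ℤ) : ℝ) * (m : ℝ) ^ (-(2 / 3) : ℝ)

/-! ### Summability of multiplicative functions -/

theorem summable_mult (f : ℕ → ℝ) (hf0 : ∀ n, 0 ≤ f n) (h0 : f 0 = 0) (h1 : f 1 = 1)
    (hmul : ∀ {m n : ℕ}, Nat.Coprime m n → f (m * n) = f m * f n)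
    (B : ℕ → ℝ) (hB0 : ∀ n, 0 ≤ B n) (hB : Summable B)
    (hp : ∀ p : ℕ, p.Prime → Summable (fun k : ℕ => f (p ^ k)) ∧ ∑' k : ℕ, f (p ^ k) ≤ 1 + B p) :
    Summable f := by
  classical
  apply summable_of_sum_range_le (c := Real.exp (∑' n, B n)) hf0
  intro N
  have hS := EulerProduct.summable_and_hasSum_factoredNumbers_prod_filter_prime_tsum h1 hmul
    (fun {p} hpp => (hp p hpp).1.norm) (range N)
  have hle : ∑ n ∈ range N, f n ≤ ∑' m : Nat.factoredNumbers (range N), f m := by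
    have e1 : ∑ n ∈ range N, f n =
        ∑ n ∈ (range N).filter (fun n => n ∈ Nat.factoredNumbers (range N)), f n := by
      symm
      apply sum_subset (filter_subset _ _)
      intro n hn hn'
      rw [mem_filter, not_and] at hn'
      have hn2 := hn' hn
      by_cases hz : n = 0
      · rw [hz, h0]
      · exfalso
        apply hn2
        refine ⟨hz, fun p hp => ?_⟩
        have h3 := Nat.le_of_mem_primeFactorsList hp
        rw [mem_range] at hn ⊢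
        omega
    rw [e1, ← Finset.sum_subtype_eq_sum_filter]
    exact hS.1.of_norm.sum_le_tsum _ (fun i _ => hf0 _)
  rw [hS.2.tsum_eq] at hle
  refine hle.trans ?_
  calc ∏ p ∈ range N with p.Prime, ∑' n : ℕ, f (p ^ n)
      ≤ ∏ p ∈ range N with p.Prime, Real.exp (B p) := by
        apply prod_le_prod
        · intro p _
          exact tsum_nonneg (fun n => hf0 _)
        · intro p hpp
          have h3 := (hp p (mem_filter.1 hpp).2).2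
          have h4 := Real.add_one_le_exp (B p)
          linarith
    _ = Real.exp (∑ p ∈ range N with p.Prime, B p) := (Real.exp_sum _ _).symm
    _ ≤ Real.exp (∑' n, B n) := by
        apply Real.exp_le_exp.2
        exact hB.sum_le_tsum _ (fun i _ => hB0 i)

/-! ### The multiplicative parts -/

theorem prod_pf_mul (g : ℕ → ℝ) {m n : ℕ} (h : m.Coprime n) :
    ∏ p ∈ (m * n).primeFactors, g p =
      (∏ p ∈ m.primeFactors, g p) * ∏ p ∈ n.primeFactors, g p := by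
  rw [h.primeFactors_mul, prod_union h.disjoint_primeFactors]

theorem psi_mul {m n : ℕ} (h : m.Coprime n) : psi (m * n) = psi m * psi n := prod_pf_mul _ h

theorem rad_mul {m n : ℕ} (h : m.Coprime n) : (rad (m * n) : ℝ) = rad m * rad n := by
  unfold rad
  push_cast
  exact prod_pf_mul _ h

theorem three_mul {m n : ℕ} (h : m.Coprime n) :
    (3 : ℝ) ^ (m * n).primeFactors.card = 3 ^ m.primeFactors.card * 3 ^ n.primeFactors.card := by
  rw [← prod_const, ← prod_const, ← prod_const]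
  exact prod_pf_mul _ h

theorem psi_nonneg (v : ℕ) : 0 ≤ psi v := by
  unfold psi
  exact prod_nonneg (fun p _ => by positivity)

theorem psi_le_one (v : ℕ) : psi v ≤ 1 := by
  unfold psi
  apply prod_le_one
  · intro p _
    positivity
  · intro p _
    apply inv_le_one_of_one_le₀
    have : (0 : ℝ) ≤ 1 / (p : ℝ) := by positivity
    linarith

/-- The arithmetic function `m ↦ m^(-2/3)`. -/
noncomputable def gA : ArithmeticFunction ℝ :=
  ⟨fun n => (n : ℝ) ^ (-(2 / 3) : ℝ), by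
    rw [Nat.cast_zero, Real.zero_rpow (by norm_num)]⟩

theorem gA_apply (n : ℕ) : gA n = (n : ℝ) ^ (-(2 / 3) : ℝ) := rfl

theorem gA_mult : gA.IsMultiplicative := by
  refine ⟨?_, ?_⟩
  · rw [gA_apply, Nat.cast_one, Real.one_rpow]
  · intro m n _
    rw [gA_apply, gA_apply, gA_apply, Nat.cast_mul,
      Real.mul_rpow (Nat.cast_nonneg _) (Nat.cast_nonneg _)]

/-- The Moebius factor. -/
noncomputable def FF : ArithmeticFunction ℝ :=
  (ArithmeticFunction.zeta : ArithmeticFunction ℝ) *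
    (ArithmeticFunction.pmul (ArithmeticFunction.moebius : ArithmeticFunction ℝ) gA)

theorem FF_apply (v : ℕ) : FF v = ∑ m ∈ v.divisors,
    ((ArithmeticFunction.moebius m : ℤ) : ℝ) * (m : ℝ) ^ (-(2 / 3) : ℝ) := by
  unfold FF
  rw [ArithmeticFunction.coe_zeta_mul_apply]
  rfl

theorem FF_mult : FF.IsMultiplicative := by
  unfold FF
  exact ArithmeticFunction.isMultiplicative_zeta.natCast.mul
    (ArithmeticFunction.isMultiplicative_moebius.intCast.pmul gA_mult)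

theorem FF_prime_pow {p : ℕ} (hp : p.Prime) {k : ℕ} (hk : 1 ≤ k) :
    FF (p ^ k) = 1 - (p : ℝ) ^ (-(2 / 3) : ℝ) := by
  rw [FF_apply, Nat.sum_divisors_prime_pow hp]
  have h1 : ∑ x ∈ range (k + 1), ((ArithmeticFunction.moebius (p ^ x) : ℤ) : ℝ) *
      ((p ^ x : ℕ) : ℝ) ^ (-(2 / 3) : ℝ) = ∑ x ∈ range 2,
      ((ArithmeticFunction.moebius (p ^ x) : ℤ) : ℝ) * ((p ^ x : ℕ) : ℝ) ^ (-(2 / 3) : ℝ) := by
    symm
    apply sum_subset
    · intro x hx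
      rw [mem_range] at hx ⊢
      omega
    · intro x _ hx
      rw [mem_range] at hx
      rw [ArithmeticFunction.moebius_apply_prime_pow hp (by omega), if_neg (by omega)]
      simp
  rw [h1, sum_range_succ, sum_range_one, pow_zero, pow_one,
    ArithmeticFunction.moebius_apply_prime hp]
  simp
  ring

theorem FF_zero_le_one {v : ℕ} (hv : v ≠ 0) : 0 ≤ FF v ∧ FF v ≤ 1 := by
  rw [FF_mult.multiplicative_factorization FF hv]
  have h : ∀ p ∈ v.factorization.support, 0 ≤ FF (p ^ v.factorization p) ∧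
      FF (p ^ v.factorization p) ≤ 1 := by
    intro p hp
    rw [Nat.support_factorization] at hp
    have hpp := Nat.prime_of_mem_primeFactors hp
    have hk : 1 ≤ v.factorization p :=
      hpp.factorization_pos_of_dvd hv (Nat.dvd_of_mem_primeFactors hp)
    rw [FF_prime_pow hpp hk]
    have h1 : (p : ℝ) ^ (-(2 / 3) : ℝ) ≤ 1 := by
      apply Real.rpow_le_one_of_one_le_of_nonpos
      · exact_mod_cast hpp.one_lt.le
      · norm_num
    have h2 : 0 ≤ (p : ℝ) ^ (-(2 / 3) : ℝ) := by positivity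
    constructor <;> linarith
  exact ⟨prod_nonneg (fun p hp => (h p hp).1), prod_le_one (fun p hp => (h p hp).1)
    (fun p hp => (h p hp).2)⟩

theorem hh_eq (v : ℕ) : hh v =
    3 ^ v.primeFactors.card * psi v * (v : ℝ) ^ (2 / 3 : ℝ) / (v * rad v) * FF v := by
  rw [FF_apply]
  rfl

theorem hh_zero : hh 0 = 0 := by
  unfold hh
  simp

theorem hh_nonneg (v : ℕ) : 0 ≤ hh v := by
  by_cases hv : v = 0
  · rw [hv, hh_zero]
  · rw [hh_eq]
    have h1 := psi_nonneg v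
    have h2 := (FF_zero_le_one hv).1
    positivity

theorem hh_one : hh 1 = 1 := by
  unfold hh psi rad
  simp

theorem hh_mul {m n : ℕ} (h : m.Coprime n) : hh (m * n) = hh m * hh n := by
  rw [hh_eq, hh_eq, hh_eq, FF_mult.map_mul_of_coprime h, three_mul h, psi_mul h, rad_mul h,
    Nat.cast_mul, Real.mul_rpow (Nat.cast_nonneg _) (Nat.cast_nonneg _)]
  rw [show ((m : ℝ) * n * (rad m * rad n)) = ((m : ℝ) * rad m) * (n * rad n) by ring]
  rw [show (3 : ℝ) ^ m.primeFactors.card * 3 ^ n.primeFactors.card * (psi m * psi n) *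
    ((m : ℝ) ^ (2 / 3 : ℝ) * (n : ℝ) ^ (2 / 3 : ℝ)) =
    (3 ^ m.primeFactors.card * psi m * (m : ℝ) ^ (2 / 3 : ℝ)) *
    (3 ^ n.primeFactors.card * psi n * (n : ℝ) ^ (2 / 3 : ℝ)) by ring]
  rw [mul_div_mul_comm]
  ring

/-- The middle terms. -/
noncomputable def GG (v : ℕ) : ℝ :=
  (3 : ℝ) ^ v.primeFactors.card * (v : ℝ) ^ (-(1 / 4) : ℝ) / rad v

theorem GG_nonneg (v : ℕ) : 0 ≤ GG v := by
  unfold GG
  positivity

theorem GG_zero : GG 0 = 0 := by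
  unfold GG
  rw [Nat.cast_zero, Real.zero_rpow (by norm_num)]
  simp

theorem GG_one : GG 1 = 1 := by
  unfold GG rad
  simp

theorem GG_mul {m n : ℕ} (h : m.Coprime n) : GG (m * n) = GG m * GG n := by
  unfold GG
  rw [three_mul h, rad_mul h, Nat.cast_mul,
    Real.mul_rpow (Nat.cast_nonneg _) (Nat.cast_nonneg _)]
  rw [show (3 : ℝ) ^ m.primeFactors.card * 3 ^ n.primeFactors.card *
    ((m : ℝ) ^ (-(1 / 4) : ℝ) * (n : ℝ) ^ (-(1 / 4) : ℝ)) =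
    (3 ^ m.primeFactors.card * (m : ℝ) ^ (-(1 / 4) : ℝ)) *
    (3 ^ n.primeFactors.card * (n : ℝ) ^ (-(1 / 4) : ℝ)) by ring]
  rw [mul_div_mul_comm]

theorem rad_prime_pow {p : ℕ} (hp : p.Prime) (k : ℕ) : rad (p ^ (k + 1)) = p := by
  unfold rad
  rw [Nat.primeFactors_prime_pow (by omega) hp, prod_singleton]

theorem pow_rpow (p k : ℕ) (a : ℝ) : ((p ^ k : ℕ) : ℝ) ^ a = ((p : ℝ) ^ a) ^ k := by
  rw [Nat.cast_pow, ← Real.rpow_natCast, ← Real.rpow_mul (Nat.cast_nonneg p),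
    mul_comm, Real.rpow_mul (Nat.cast_nonneg p), Real.rpow_natCast]

theorem GG_prime_pow {p : ℕ} (hp : p.Prime) (k : ℕ) :
    GG (p ^ (k + 1)) = 3 / p * (p : ℝ) ^ (-(1 / 4) : ℝ) * ((p : ℝ) ^ (-(1 / 4) : ℝ)) ^ k := by
  unfold GG
  rw [Nat.primeFactors_prime_pow (by omega) hp, card_singleton, rad_prime_pow hp, pow_rpow]
  rw [pow_succ ((p : ℝ) ^ (-(1 / 4) : ℝ)) k]
  ring

theorem rpow_lt_one {p : ℕ} (hp : p.Prime) {a : ℝ} (ha : a < 0) : (p : ℝ) ^ a < 1 :=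
  Real.rpow_lt_one_of_one_lt_of_neg (by exact_mod_cast hp.one_lt) ha

theorem hasSum_GG {p : ℕ} (hp : p.Prime) : HasSum (fun k : ℕ => GG (p ^ k))
    (1 + 3 / p * (p : ℝ) ^ (-(1 / 4) : ℝ) * (1 - (p : ℝ) ^ (-(1 / 4) : ℝ))⁻¹) := by
  have h1 : HasSum (fun k : ℕ => ((p : ℝ) ^ (-(1 / 4) : ℝ)) ^ k)
      (1 - (p : ℝ) ^ (-(1 / 4) : ℝ))⁻¹ :=
    hasSum_geometric_of_lt_one (by positivity) (rpow_lt_one hp (by norm_num))
  have h2 := h1.mul_left (3 / p * (p : ℝ) ^ (-(1 / 4) : ℝ))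
  have h3 : HasSum (fun k : ℕ => GG (p ^ (k + 1)))
      (3 / p * (p : ℝ) ^ (-(1 / 4) : ℝ) * (1 - (p : ℝ) ^ (-(1 / 4) : ℝ))⁻¹) := by
    refine h2.congr_fun (fun k => ?_)
    exact GG_prime_pow hp k
  have h4 := (hasSum_nat_add_iff' (f := fun k : ℕ => GG (p ^ k)) 1 (g := 1 + 3 / p *
    (p : ℝ) ^ (-(1 / 4) : ℝ) * (1 - (p : ℝ) ^ (-(1 / 4) : ℝ))⁻¹)).1 (by
      rw [sum_range_one, pow_zero, GG_one, add_sub_cancel_left]
      exact h3)
  exact h4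

/-- The sum used for the middle range, without the Moebius factor. -/
theorem summable_mid : Summable (fun v : ℕ =>
    (3 : ℝ) ^ v.primeFactors.card * (v : ℝ) ^ (-(1 / 4) : ℝ) / rad v) := by
  have hy2 : (2 : ℝ) ^ (-(1 / 4) : ℝ) < 1 :=
    Real.rpow_lt_one_of_one_lt_of_neg (by norm_num) (by norm_num)
  have hC : 0 < (1 - (2 : ℝ) ^ (-(1 / 4) : ℝ)) := by linarith
  refine summable_mult GG GG_nonneg GG_zero GG_one (fun {m n} h => GG_mul h)
    (fun n => 3 * (1 - (2 : ℝ) ^ (-(1 / 4) : ℝ))⁻¹ * (n : ℝ) ^ (-(5 / 4) : ℝ))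
    (fun n => by positivity)
    ((Real.summable_nat_rpow.2 (by norm_num)).mul_left _) (fun p hp => ?_)
  have h := hasSum_GG hp
  refine ⟨h.summable, ?_⟩
  rw [h.tsum_eq]
  have hp0 : (0 : ℝ) < p := by exact_mod_cast hp.pos
  have hp2 : (2 : ℝ) ≤ p := by exact_mod_cast hp.two_le
  have h1 : (p : ℝ) ^ (-(1 / 4) : ℝ) ≤ (2 : ℝ) ^ (-(1 / 4) : ℝ) :=
    Real.rpow_le_rpow_of_nonpos (by norm_num) hp2 (by norm_num)
  have h2 : (1 - (p : ℝ) ^ (-(1 / 4) : ℝ))⁻¹ ≤ (1 - (2 : ℝ) ^ (-(1 / 4) : ℝ))⁻¹ :=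
    inv_anti₀ hC (by linarith)
  have h3 : (p : ℝ) ^ (-(5 / 4) : ℝ) = 1 / p * (p : ℝ) ^ (-(1 / 4) : ℝ) := by
    rw [show (-(5 / 4) : ℝ) = -1 + -(1 / 4) by norm_num, Real.rpow_add hp0, Real.rpow_neg_one,
      one_div (p : ℝ)]
  show _ ≤ 1 + 3 * (1 - (2 : ℝ) ^ (-(1 / 4) : ℝ))⁻¹ * (p : ℝ) ^ (-(5 / 4) : ℝ)
  rw [h3]
  have h4 : 3 / (p : ℝ) * (p : ℝ) ^ (-(1 / 4) : ℝ) * (1 - (p : ℝ) ^ (-(1 / 4) : ℝ))⁻¹ ≤
      3 / (p : ℝ) * (p : ℝ) ^ (-(1 / 4) : ℝ) * (1 - (2 : ℝ) ^ (-(1 / 4) : ℝ))⁻¹ :=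
    mul_le_mul_of_nonneg_left h2 (by positivity)
  have h5 : 3 / (p : ℝ) * (p : ℝ) ^ (-(1 / 4) : ℝ) * (1 - (2 : ℝ) ^ (-(1 / 4) : ℝ))⁻¹ =
      3 * (1 - (2 : ℝ) ^ (-(1 / 4) : ℝ))⁻¹ * (1 / p * (p : ℝ) ^ (-(1 / 4) : ℝ)) := by ring
  linarith

theorem summable_hh : Summable (fun v : ℕ => hh v * (v : ℝ) ^ (1 / 12 : ℝ)) := by
  refine Summable.of_nonneg_of_le (fun v => ?_) (fun v => ?_) summable_mid
  · exact mul_nonneg (hh_nonneg v) (by positivity)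
  · by_cases hv : v = 0
    · subst hv
      rw [hh_zero, zero_mul]
      exact GG_nonneg 0
    · have hv0 : (0 : ℝ) < v := by exact_mod_cast Nat.pos_of_ne_zero hv
      have h1 := psi_nonneg v
      have h2 := psi_le_one v
      obtain ⟨h3, h4⟩ := FF_zero_le_one hv
      have e : hh v * (v : ℝ) ^ (1 / 12 : ℝ) =
          (3 ^ v.primeFactors.card * (v : ℝ) ^ (-(1 / 4) : ℝ) / rad v) * (psi v * FF v) := by
        have e1 : (v : ℝ) ^ (-(1 / 4) : ℝ) = (v : ℝ) ^ (2 / 3 : ℝ) * (v : ℝ) ^ (1 / 12 : ℝ) / v := by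
          rw [← Real.rpow_add hv0, ← Real.rpow_sub_one hv0.ne']
          norm_num
        rw [hh_eq, e1]
        field_simp
      rw [e]
      have h5 : psi v * FF v ≤ 1 := mul_le_one₀ h2 h3 h4
      have h6 : 0 ≤ (3 : ℝ) ^ v.primeFactors.card * (v : ℝ) ^ (-(1 / 4) : ℝ) / rad v := by
        positivity
      exact mul_le_of_le_one_right h6 h5

/-- The sum used for the box bound. -/
theorem summable_box : Summable (fun v : ℕ => (v : ℝ) ^ (-(1 / 2) : ℝ) / rad v) := by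
  refine Summable.of_nonneg_of_le (fun v => by positivity) (fun v => ?_) summable_mid
  by_cases hv : v = 0
  · subst hv
    rw [Nat.cast_zero, Real.zero_rpow (by norm_num), zero_div]
    positivity
  · have hv1 : (1 : ℝ) ≤ v := by exact_mod_cast Nat.one_le_iff_ne_zero.2 hv
    apply div_le_div_of_nonneg_right _ (Nat.cast_nonneg _)
    have h1 : (v : ℝ) ^ (-(1 / 2) : ℝ) ≤ (v : ℝ) ^ (-(1 / 4) : ℝ) :=
      Real.rpow_le_rpow_of_exponent_le hv1 (by norm_num)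
    have h2 : (1 : ℝ) ≤ 3 ^ v.primeFactors.card := one_le_pow₀ (by norm_num)
    have h3 : 0 ≤ (v : ℝ) ^ (-(1 / 4) : ℝ) := by positivity
    nlinarith

theorem summable_hh' : Summable hh := by
  refine Summable.of_nonneg_of_le hh_nonneg (fun v => ?_) summable_hh
  by_cases hv : v = 0
  · rw [hv, hh_zero, zero_mul]
  · have hv1 : (1 : ℝ) ≤ v := by exact_mod_cast Nat.one_le_iff_ne_zero.2 hv
    exact le_mul_of_one_le_right (hh_nonneg v) (Real.one_le_rpow hv1 (by norm_num))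

theorem hh_prime_pow {p : ℕ} (hp : p.Prime) (k : ℕ) :
    hh (p ^ (k + 1)) = 3 * (1 + 1 / (p : ℝ))⁻¹ * (1 / p) *
      (1 - ((p : ℝ) ^ (-(1 / 3) : ℝ)) ^ 2) * (p : ℝ) ^ (-(1 / 3) : ℝ) *
      ((p : ℝ) ^ (-(1 / 3) : ℝ)) ^ k := by
  have hp0 : (0 : ℝ) < p := by exact_mod_cast hp.pos
  have e1 : ((p ^ (k + 1) : ℕ) : ℝ) ^ (2 / 3 : ℝ) / ((p ^ (k + 1) : ℕ) : ℝ) =
      ((p : ℝ) ^ (-(1 / 3) : ℝ)) ^ (k + 1) := by
    have hq : (0 : ℝ) < ((p ^ (k + 1) : ℕ) : ℝ) := by exact_mod_cast pow_pos hp.pos _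
    rw [← pow_rpow, ← Real.rpow_sub_one hq.ne']
    norm_num
  have e2 : (p : ℝ) ^ (-(2 / 3) : ℝ) = ((p : ℝ) ^ (-(1 / 3) : ℝ)) ^ 2 := by
    rw [← Real.rpow_natCast, ← Real.rpow_mul hp0.le]
    norm_num
  have e3 : psi (p ^ (k + 1)) = (1 + 1 / (p : ℝ))⁻¹ := by
    unfold psi
    rw [Nat.primeFactors_prime_pow (by omega) hp, prod_singleton]
  rw [hh_eq, FF_prime_pow hp (by omega), e2, e3,
    Nat.primeFactors_prime_pow (by omega) hp, card_singleton, rad_prime_pow hp]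
  have e4 : (3 : ℝ) ^ 1 * (1 + 1 / (p : ℝ))⁻¹ * ((p ^ (k + 1) : ℕ) : ℝ) ^ (2 / 3 : ℝ) /
      (((p ^ (k + 1) : ℕ) : ℝ) * p) = 3 * (1 + 1 / (p : ℝ))⁻¹ * (1 / p) *
      (((p ^ (k + 1) : ℕ) : ℝ) ^ (2 / 3 : ℝ) / ((p ^ (k + 1) : ℕ) : ℝ)) := by
    rw [pow_one, mul_div_assoc, div_mul_eq_div_div, mul_assoc _ (1 / (p : ℝ))]
    ring
  rw [e4, e1, pow_succ ((p : ℝ) ^ (-(1 / 3) : ℝ)) k]
  ring

theorem tsum_hh {p : ℕ} (hp : p.Prime) : ∑' k : ℕ, hh (p ^ k) =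
    1 + 3 * (1 + 1 / (p : ℝ))⁻¹ * (1 / p) * (p : ℝ) ^ (-(1 / 3) : ℝ) *
      (1 + (p : ℝ) ^ (-(1 / 3) : ℝ)) := by
  obtain ⟨x, hx⟩ : ∃ x, x = (p : ℝ) ^ (-(1 / 3) : ℝ) := ⟨_, rfl⟩
  have hx0 : 0 ≤ x := by rw [hx]; positivity
  have hx1 : x < 1 := by rw [hx]; exact rpow_lt_one hp (by norm_num)
  have h1 : HasSum (fun k : ℕ => x ^ k) (1 - x)⁻¹ := hasSum_geometric_of_lt_one hx0 hx1
  have h2 := h1.mul_left (3 * (1 + 1 / (p : ℝ))⁻¹ * (1 / p) * (1 - x ^ 2) * x)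
  have h3 : HasSum (fun k : ℕ => hh (p ^ (k + 1)))
      (3 * (1 + 1 / (p : ℝ))⁻¹ * (1 / p) * (1 - x ^ 2) * x * (1 - x)⁻¹) := by
    refine h2.congr_fun (fun k => ?_)
    rw [hh_prime_pow hp k, ← hx]
  have h4 := (hasSum_nat_add_iff' (f := fun k : ℕ => hh (p ^ k)) 1 (g := 1 +
    3 * (1 + 1 / (p : ℝ))⁻¹ * (1 / p) * (1 - x ^ 2) * x * (1 - x)⁻¹)).1 (by
      rw [sum_range_one, pow_zero, hh_one, add_sub_cancel_left]
      exact h3)
  rw [h4.tsum_eq, ← hx]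
  have h5 : 1 - x ≠ 0 := by linarith
  have e : (1 - x ^ 2) * x * (1 - x)⁻¹ = x * (1 + x) := by
    field_simp
    ring
  calc 1 + 3 * (1 + 1 / (p : ℝ))⁻¹ * (1 / p) * (1 - x ^ 2) * x * (1 - x)⁻¹
      = 1 + 3 * (1 + 1 / (p : ℝ))⁻¹ * (1 / p) * ((1 - x ^ 2) * x * (1 - x)⁻¹) := by ring
    _ = 1 + 3 * (1 + 1 / (p : ℝ))⁻¹ * (1 / p) * (x * (1 + x)) := by rw [e]
    _ = _ := by ring

theorem singular_series : c0 * (6 / Real.pi ^ 2 * ∑' v : ℕ, hh v) = Cabc := by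
  have h1 := EulerProduct.eulerProduct_hasProd (f := hh) hh_one (fun {m n} h => hh_mul h)
    summable_hh'.norm hh_zero
  have h2 := hasProd_mobT 1 le_rfl
  rw [tsum_mobT_one] at h2
  have h3 := h2.mul h1
  unfold Cabc
  congr 1
  rw [← h3.tprod_eq]
  congr 1
  funext p
  have hp := p.2
  have hp0 : (0 : ℝ) < (p : ℝ) := by exact_mod_cast hp.pos
  rw [tsum_hh hp, Nat.gcd_one_right]
  have e1 : (p : ℝ) ^ (-(4 / 3) : ℝ) = 1 / p * (p : ℝ) ^ (-(1 / 3) : ℝ) := by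
    rw [show (-(4 / 3) : ℝ) = -1 + -(1 / 3) by norm_num, Real.rpow_add hp0, Real.rpow_neg_one,
      one_div (p : ℝ)]
  have e2 : (p : ℝ) ^ (-(5 / 3) : ℝ) = 1 / p * ((p : ℝ) ^ (-(1 / 3) : ℝ)) ^ 2 := by
    rw [← Real.rpow_natCast, ← Real.rpow_mul hp0.le, show (-(5 / 3) : ℝ) =
      -1 + -(1 / 3) * ((2 : ℕ) : ℝ) by norm_num, Real.rpow_add hp0, Real.rpow_neg_one,
      one_div (p : ℝ)]
  rw [e1, e2]
  obtain ⟨x, hx⟩ : ∃ x, x = (p : ℝ) ^ (-(1 / 3) : ℝ) := ⟨_, rfl⟩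
  rw [← hx]
  have hp1 : (p : ℝ) + 1 ≠ 0 := by positivity
  push_cast
  field_simp
  ring

end Pool.Agent.Lib.AbcG
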