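import Mathlib
import Pool.Agent.Lib.AbcG.Defs

/-!
# Base count: pairs in a residue class
-/

open Finset MeasureTheory Set

namespace Pool.Agent.Lib.AbcG

/-- The positive root of `x y (x + y) = T`. -/
noncomputable def beta (T x : ℝ) : ℝ := (-x + √(x ^ 2 + 4 * T / x)) / 2

theorem beta_nonneg {T x : ℝ} (hT : 0 ≤ T) (hx : 0 < x) : 0 ≤ beta T x := by
  unfold beta
  have h1 : x ≤ √(x ^ 2 + 4 * T / x) := by
    apply Real.le_sqrt_of_sq_le
    have : 0 ≤ 4 * T / x := by positivity
    linarith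
  linarith

theorem le_beta_iff {T x y : ℝ} (hT : 0 ≤ T) (hx : 0 < x) (hy : 0 ≤ y) :
    y ≤ beta T x ↔ x * y * (x + y) ≤ T := by
  unfold beta
  have h0 : 0 ≤ x ^ 2 + 4 * T / x := by positivity
  have e1 : (y ≤ (-x + √(x ^ 2 + 4 * T / x)) / 2) ↔ (2 * y + x ≤ √(x ^ 2 + 4 * T / x)) := by
    constructor <;> intro h <;> linarith
  rw [e1, Real.le_sqrt' (by linarith)]
  have e2 : (2 * y + x) ^ 2 ≤ x ^ 2 + 4 * T / x ↔ y * (x + y) ≤ T / x := by
    have e3 : 4 * T / x = 4 * (T / x) := by ring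
    rw [e3]
    constructor <;> intro h <;> nlinarith
  rw [e2, le_div_iff₀ hx]
  constructor <;> intro h <;> nlinarith

theorem beta_eq {T x : ℝ} (hT : 0 ≤ T) (hx : 0 < x) :
    x * beta T x * (x + beta T x) ≤ T :=
  (le_beta_iff hT hx (beta_nonneg hT hx)).mp le_rfl

theorem beta_anti {T x x' : ℝ} (hT : 0 ≤ T) (hx : 0 < x) (hxx : x ≤ x') :
    beta T x' ≤ beta T x := by
  have hx' : 0 < x' := lt_of_lt_of_le hx hxx
  have h0 := beta_nonneg hT hx'
  rw [le_beta_iff hT hx h0]
  refine le_trans ?_ (beta_eq hT hx')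
  gcongr

theorem beta_le_sqrt {T x : ℝ} (hT : 0 ≤ T) (hx : 0 < x) :
    beta T x ≤ √T * x ^ (-(1 / 2) : ℝ) := by
  have h0 := beta_nonneg hT hx
  have h1 := beta_eq hT hx
  have h2 : x * (beta T x) ^ 2 ≤ T := by nlinarith [mul_nonneg hx.le h0, mul_nonneg (mul_nonneg hx.le hx.le) h0]
  have h3 : (0 : ℝ) ≤ √T * x ^ (-(1 / 2) : ℝ) := by positivity
  apply le_of_sq_le_sq _ h3
  have e : (x ^ (-(1 / 2) : ℝ)) ^ 2 = x⁻¹ := by
    rw [← Real.rpow_natCast, ← Real.rpow_mul hx.le]
    norm_num
    rw [Real.rpow_neg_one]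
  rw [mul_pow, Real.sq_sqrt hT, e, ← div_eq_mul_inv, le_div_iff₀ hx]
  linarith

theorem beta_le_inv {T x : ℝ} (hT : 0 ≤ T) (hx : 0 < x) :
    beta T x ≤ T * x ^ (-2 : ℝ) := by
  have h0 := beta_nonneg hT hx
  have h1 := beta_eq hT hx
  have h2 : x ^ 2 * beta T x ≤ T := by nlinarith [mul_nonneg hx.le (mul_nonneg h0 h0)]
  rw [Real.rpow_neg hx.le, ← div_eq_mul_inv, le_div_iff₀ (by positivity)]
  have : x ^ (2 : ℝ) = x ^ 2 := by norm_cast
  rw [this]
  linarith

/-- Number of elements of `[1, B]` in a residue class. -/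
theorem class_count (M v B : ℕ) (hM : 1 ≤ M) :
    M * ((Finset.Icc 1 B).filter (fun b => b ≡ v [MOD M])).card ≤ B + (M - 1) ∧
    B + 1 ≤ M * (((Finset.Icc 1 B).filter (fun b => b ≡ v [MOD M])).card + 1) := by
  have h1 := Nat.count_modEq_card (B + 1) (r := M) (by omega) v
  rw [Nat.count_eq_card_filter_range] at h1
  have h2 : (Finset.range (B + 1)).filter (fun x => x ≡ v [MOD M]) =
      (if 0 ≡ v [MOD M] then {0} else ∅) ∪
        (Finset.Icc 1 B).filter (fun b => b ≡ v [MOD M]) := by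
    ext x
    simp only [Finset.mem_filter, Finset.mem_range, Finset.mem_union, Finset.mem_Icc]
    constructor
    · rintro ⟨h3, h4⟩
      rcases Nat.eq_zero_or_pos x with h5 | h5
      · left
        subst h5
        rw [if_pos h4]
        simp
      · right
        exact ⟨⟨h5, by omega⟩, h4⟩
    · rintro (h3 | h3)
      · split_ifs at h3 with h4
        · rw [Finset.mem_singleton] at h3
          subst h3
          exact ⟨by omega, h4⟩
        · simp at h3
      · exact ⟨by omega, h3.2⟩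
  have h3 : Disjoint (if 0 ≡ v [MOD M] then ({0} : Finset ℕ) else ∅)
        ((Finset.Icc 1 B).filter (fun b => b ≡ v [MOD M])) := by
    rw [Finset.disjoint_left]
    intro x hx hx2
    rw [Finset.mem_filter, Finset.mem_Icc] at hx2
    split_ifs at hx
    · rw [Finset.mem_singleton] at hx
      omega
    · simp at hx
  rw [h2, Finset.card_union_of_disjoint h3] at h1
  set c := ((Finset.Icc 1 B).filter (fun b => b ≡ v [MOD M])).card with hc
  have hmod : (0 ≡ v [MOD M]) ↔ v % M = 0 := by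
    unfold Nat.ModEq
    rw [Nat.zero_mod]
    exact eq_comm
  have hd := Nat.div_add_mod (B + 1) M
  have hlt := Nat.mod_lt (B + 1) (show M > 0 by omega)
  have hlt2 := Nat.mod_lt v (show M > 0 by omega)
  set D := (B + 1) / M with hD
  set R := (B + 1) % M with hR
  by_cases hv : v % M = 0
  · rw [if_pos (hmod.mpr hv), Finset.card_singleton] at h1
    by_cases hR0 : v % M < R
    · rw [if_pos hR0] at h1
      have : c = D := by omega
      rw [this]
      constructor
      · omega
      · have : M * (D + 1) = M * D + M := by ring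
        omega
    · rw [if_neg hR0] at h1
      have hc1 : c + 1 = D := by omega
      have e : M * D = M * c + M := by rw [← hc1]; ring
      constructor
      · omega
      · have : M * (c + 1) = M * c + M := by ring
        omega
  · rw [if_neg (fun h => hv (hmod.mp h)), Finset.card_empty] at h1
    by_cases hR0 : v % M < R
    · rw [if_pos hR0] at h1
      have hc1 : c = D + 1 := by omega
      have e : M * c = M * D + M := by rw [hc1]; ring
      constructor
      · omega
      · have : M * (c + 1) = M * c + M := by ring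
        omega
    · rw [if_neg hR0] at h1
      have hc1 : c = D := by omega
      rw [hc1]
      constructor
      · omega
      · have : M * (D + 1) = M * D + M := by ring
        omega

/-- Number of elements of `[1, y]` in a residue class. -/
theorem class_count_real (M v : ℕ) (hM : 1 ≤ M) {y : ℝ} (hy : 0 ≤ y) :
    |((((Finset.Icc 1 ⌊y⌋₊).filter (fun b => b ≡ v [MOD M])).card : ℕ) : ℝ) - y / M| ≤ 1 := by
  obtain ⟨h1, h2⟩ := class_count M v ⌊y⌋₊ hM
  set c := ((Finset.Icc 1 ⌊y⌋₊).filter (fun b => b ≡ v [MOD M])).card with hc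
  have hM0 : (0 : ℝ) < M := by exact_mod_cast (by omega : 0 < M)
  have h3 : (⌊y⌋₊ : ℝ) ≤ y := Nat.floor_le hy
  have h4 : y < (⌊y⌋₊ : ℝ) + 1 := Nat.lt_floor_add_one y
  have h1' : (M : ℝ) * c ≤ ⌊y⌋₊ + (M - 1) := by
    have : M * c + 1 ≤ ⌊y⌋₊ + M := by omega
    have : (M : ℝ) * c + 1 ≤ ⌊y⌋₊ + M := by exact_mod_cast this
    linarith
  have h2' : (⌊y⌋₊ : ℝ) + 1 ≤ M * (c + 1) := by exact_mod_cast h2
  rw [abs_le]
  constructor
  · have : y / M ≤ c + 1 := by
      rw [div_le_iff₀ hM0]
      linarith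
    linarith
  · have : (c : ℝ) - 1 ≤ y / M := by
      rw [le_div_iff₀ hM0]
      linarith
    linarith

theorem beta_intervalIntegrable {T : ℝ} (h : IntegrableOn (beta T) (Ioi 0)) {a b : ℝ}
    (ha : 0 ≤ a) (hab : a ≤ b) : IntervalIntegrable (beta T) volume a b := by
  rw [intervalIntegrable_iff_integrableOn_Ioc_of_le hab]
  apply h.mono_set
  intro x hx
  exact lt_of_le_of_lt ha hx.1

theorem sum_upper {T q : ℝ} (hT : 0 ≤ T) (hq : 0 < q) (h : IntegrableOn (beta T) (Ioi 0))
    (K : ℕ) : q * ∑ k ∈ Finset.range K, beta T (((k : ℝ) + 1) * q) ≤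
      ∫ x in (0 : ℝ)..(K * q), beta T x := by
  induction K with
  | zero => simp
  | succ K ih =>
    rw [Finset.sum_range_succ, mul_add]
    have hK : (0 : ℝ) ≤ K * q := by positivity
    have hK1 : (K : ℝ) * q ≤ ((K + 1 : ℕ) : ℝ) * q := by
      push_cast
      nlinarith
    rw [← intervalIntegral.integral_add_adjacent_intervals
      (beta_intervalIntegrable h le_rfl hK) (beta_intervalIntegrable h hK hK1)]
    apply add_le_add ih
    have h1 : ∫ x in ((K : ℝ) * q)..(((K + 1 : ℕ) : ℝ) * q), beta T (((K : ℝ) + 1) * q) =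
        q * beta T (((K : ℝ) + 1) * q) := by
      rw [intervalIntegral.integral_const, smul_eq_mul]
      push_cast
      ring
    rw [← h1]
    apply intervalIntegral.integral_mono_on_of_le_Ioo hK1 (by simp)
      (beta_intervalIntegrable h hK hK1)
    intro x hx
    apply beta_anti hT (lt_of_le_of_lt hK hx.1)
    have := hx.2.le
    push_cast at this
    exact this

theorem sum_lower {T q : ℝ} (hT : 0 ≤ T) (hq : 0 < q) (h : IntegrableOn (beta T) (Ioi 0))
    (K : ℕ) : ∫ x in q..(((K : ℝ) + 1) * q), beta T x ≤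
      q * ∑ k ∈ Finset.range K, beta T (((k : ℝ) + 1) * q) := by
  induction K with
  | zero => simp
  | succ K ih =>
    rw [Finset.sum_range_succ, mul_add]
    have hK0 : (0 : ℝ) < ((K : ℝ) + 1) * q := by positivity
    have hKq : q ≤ ((K : ℝ) + 1) * q := by
      have : (0 : ℝ) ≤ K := Nat.cast_nonneg K
      nlinarith
    have hK1 : ((K : ℝ) + 1) * q ≤ (((K + 1 : ℕ) : ℝ) + 1) * q := by
      push_cast
      nlinarith
    rw [← intervalIntegral.integral_add_adjacent_intervals
      (beta_intervalIntegrable h hq.le hKq) (beta_intervalIntegrable h hK0.le hK1)]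
    apply add_le_add ih
    have h1 : ∫ x in (((K : ℝ) + 1) * q)..((((K + 1 : ℕ) : ℝ) + 1) * q),
        beta T (((K : ℝ) + 1) * q) = q * beta T (((K : ℝ) + 1) * q) := by
      rw [intervalIntegral.integral_const, smul_eq_mul]
      push_cast
      ring
    rw [← h1]
    apply intervalIntegral.integral_mono_on_of_le_Ioo hK1
      (beta_intervalIntegrable h hK0.le hK1) (by simp)
    intro x hx
    exact beta_anti hT hK0 hx.1.le

theorem int_start {T q : ℝ} (hT : 0 ≤ T) (hq : 0 < q) (h : IntegrableOn (beta T) (Ioi 0)) :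
    ∫ x in (0 : ℝ)..q, beta T x ≤ 2 * √T * √q := by
  have h1 : ∫ x in (0 : ℝ)..q, √T * x ^ (-(1 / 2) : ℝ) = 2 * √T * √q := by
    rw [intervalIntegral.integral_const_mul, integral_rpow (Or.inl (by norm_num))]
    norm_num
    rw [← Real.sqrt_eq_rpow]
    ring
  rw [← h1]
  apply intervalIntegral.integral_mono_on_of_le_Ioo hq.le (beta_intervalIntegrable h le_rfl hq.le)
  · exact (intervalIntegral.intervalIntegrable_rpow' (by norm_num)).const_mul _
  · intro x hx
    exact beta_le_sqrt hT hx.1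

theorem int_end {T B : ℝ} (hT : 0 ≤ T) (hB : 0 < B) (hTB : √T ≤ B)
    (h : IntegrableOn (beta T) (Ioi 0)) : ∫ x in Ioi B, beta T x ≤ √T := by
  have h1 : ∫ x in Ioi B, T * x ^ (-2 : ℝ) = T / B := by
    rw [integral_const_mul, integral_Ioi_rpow_of_lt (by norm_num) hB]
    norm_num
    rw [Real.rpow_neg_one, div_eq_mul_inv]
  have h2 : ∫ x in Ioi B, beta T x ≤ ∫ x in Ioi B, T * x ^ (-2 : ℝ) := by
    apply setIntegral_mono_on
    · exact h.mono_set (fun x hx => lt_trans hB hx)
    · exact (integrableOn_Ioi_rpow_of_lt (by norm_num) hB).const_mul _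
    · exact measurableSet_Ioi
    · intro x hx
      exact beta_le_inv hT (lt_trans hB hx)
  refine h2.trans ?_
  rw [h1, div_le_iff₀ hB]
  calc T = √T * √T := (Real.mul_self_sqrt hT).symm
    _ ≤ √T * B := mul_le_mul_of_nonneg_left hTB (Real.sqrt_nonneg T)

/-- The sum over multiples of `q`. -/
theorem sum_beta (q : ℕ) (hq : 1 ≤ q) (T : ℝ) (hT : 0 ≤ T)
    (h : IntegrableOn (beta T) (Ioi 0)) (K : ℕ) (hK : √T ≤ ((K : ℝ) + 1) * q) :
    |∑ k ∈ Finset.range K, beta T (((k : ℝ) + 1) * q) - (∫ x in Ioi 0, beta T x) / q| ≤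
      3 * √T := by
  have hq0 : (0 : ℝ) < q := by exact_mod_cast (by omega : 0 < q)
  have hq1 : (1 : ℝ) ≤ q := by exact_mod_cast hq
  have hB : (0 : ℝ) < ((K : ℝ) + 1) * q := by positivity
  have u1 := sum_upper hT hq0 h K
  have l1 := sum_lower hT hq0 h K
  have s1 := int_start hT hq0 h
  have e1 := int_end hT hB hK h
  have hKq : (0 : ℝ) ≤ K * q := by positivity
  have hqB : (q : ℝ) ≤ ((K : ℝ) + 1) * q := by
    have : (0 : ℝ) ≤ K := Nat.cast_nonneg K
    nlinarith
  have a1 := intervalIntegral.integral_interval_add_Ioi (f := beta T) (μ := volume) (a := 0)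
    (b := K * q) h (h.mono_set (fun x hx => lt_of_le_of_lt hKq hx))
  have a2 := intervalIntegral.integral_interval_add_Ioi (f := beta T) (μ := volume) (a := 0)
    (b := ((K : ℝ) + 1) * q) h (h.mono_set (fun x hx => lt_trans hB hx))
  have a3 := intervalIntegral.integral_add_adjacent_intervals
    (beta_intervalIntegrable h le_rfl hq0.le) (beta_intervalIntegrable h hq0.le hqB)
  have n1 : 0 ≤ ∫ x in Ioi ((K : ℝ) * q), beta T x :=
    setIntegral_nonneg measurableSet_Ioi
      (fun x hx => beta_nonneg hT (lt_of_le_of_lt hKq hx))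
  set I := ∫ x in Ioi 0, beta T x with hI
  set S := ∑ k ∈ Finset.range K, beta T (((k : ℝ) + 1) * q) with hS
  have hs0 := Real.sqrt_nonneg T
  have hsq : √(q : ℝ) ≤ q := by
    rw [Real.sqrt_le_left hq0.le]
    nlinarith
  have hup : (q : ℝ) * S ≤ I := by linarith
  have hlo : I - 3 * √T * q ≤ q * S := by
    have h1 : 2 * √T * √(q : ℝ) ≤ 2 * √T * q := mul_le_mul_of_nonneg_left hsq (by positivity)
    have h2 : √T ≤ √T * q := le_mul_of_one_le_right hs0 hq1
    linarith
  rw [abs_le]
  constructor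
  · have : I / q ≤ S + 3 * √T := by
      rw [div_le_iff₀ hq0]
      linarith
    linarith
  · have : S ≤ I / q := by
      rw [le_div_iff₀ hq0]
      linarith
    linarith

theorem base_count (q M : ℕ) (hq : 1 ≤ q) (hM : 1 ≤ M) (r : ℕ → ℕ) (T : ℝ) (hT : 0 ≤ T)
    (hint : IntegrableOn (beta T) (Ioi 0) ∧ ∫ x in Ioi 0, beta T x = c0 * T ^ (2 / 3 : ℝ)) :
    |((((Reg T).filter (fun t => q ∣ t.1 ∧ t.2 ≡ r t.1 [MOD M])).card : ℕ) : ℝ) -
      c0 * T ^ (2 / 3 : ℝ) / (q * M)| ≤ 4 * √T := by
  classical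
  obtain ⟨h, hI⟩ := hint
  have hq0 : (0 : ℝ) < q := by exact_mod_cast (by omega : 0 < q)
  have hq1 : (1 : ℝ) ≤ q := by exact_mod_cast hq
  have hM0 : (0 : ℝ) < M := by exact_mod_cast (by omega : 0 < M)
  have hM1 : (1 : ℝ) ≤ M := by exact_mod_cast hM
  have hs0 := Real.sqrt_nonneg T
  obtain ⟨K, hKd⟩ : ∃ K : ℕ, K = ⌊√T / q⌋₊ := ⟨_, rfl⟩
  have hK1 : (K : ℝ) ≤ √T / q := by
    rw [hKd]
    exact Nat.floor_le (by positivity)
  have hK2 : √T < ((K : ℝ) + 1) * q := by
    have : √T / q < (K : ℝ) + 1 := by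
      rw [hKd]
      exact Nat.lt_floor_add_one _
    rwa [div_lt_iff₀ hq0] at this
  have hKs : (K : ℝ) ≤ √T := hK1.trans (div_le_self hs0 hq1)
  -- the count as a sum over `k`
  have hcount : ((Reg T).filter (fun t => q ∣ t.1 ∧ t.2 ≡ r t.1 [MOD M])).card =
      ∑ k ∈ Finset.range K, ((Finset.Icc 1 ⌊beta T (((k : ℝ) + 1) * q)⌋₊).filter
        (fun b => b ≡ r ((k + 1) * q) [MOD M])).card := by
    rw [← Finset.card_sigma]
    apply Finset.card_bij' (fun t _ => (⟨t.1 / q - 1, t.2⟩ : (_ : ℕ) × ℕ))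
      (fun s _ => ((s.1 + 1) * q, s.2))
    · intro t ht
      rw [Finset.mem_filter, mem_Reg] at ht
      obtain ⟨⟨h1, h2, h3⟩, ⟨m, hm⟩, h4⟩ := ht
      have hm1 : 1 ≤ m := by
        rcases Nat.eq_zero_or_pos m with h5 | h5
        · rw [h5, mul_zero] at hm
          omega
        · exact h5
      have hdiv : t.1 / q = m := by
        rw [hm]
        exact Nat.mul_div_cancel_left m (by omega)
      have hm' : (m - 1 + 1) * q = t.1 := by
        rw [Nat.sub_add_cancel hm1, hm, mul_comm]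
      have hmr : (((m - 1 : ℕ) : ℝ) + 1) * q = t.1 := by
        exact_mod_cast hm'
      have h1r : (0 : ℝ) < t.1 := by exact_mod_cast h1
      have h2r : (1 : ℝ) ≤ t.2 := by exact_mod_cast h2
      have h3' : (t.1 : ℝ) * t.2 * (t.1 + t.2) ≤ T := by
        unfold Nn at h3
        exact_mod_cast h3
      rw [Finset.mem_sigma, Finset.mem_range, Finset.mem_filter, Finset.mem_Icc, hdiv]
      refine ⟨?_, ⟨h2, ?_⟩, ?_⟩
      · -- `t.1 ≤ √T`
        have h5 : (t.1 : ℝ) ≤ √T := by
          apply Real.le_sqrt_of_sq_le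
          refine le_trans ?_ h3'
          have e1 : (t.1 : ℝ) * 1 ≤ t.1 * t.2 := mul_le_mul_of_nonneg_left h2r h1r.le
          calc (t.1 : ℝ) ^ 2 = t.1 * 1 * (t.1 + 0) := by ring
            _ ≤ t.1 * t.2 * (t.1 + t.2) := by
              apply mul_le_mul e1 (by linarith) (by linarith) (by positivity)
        have h6 : (m : ℝ) * q < ((K : ℝ) + 1) * q := by
          have : (m : ℝ) * q = t.1 := by
            rw [hm]
            push_cast
            ring
          linarith
        have h7 : (m : ℝ) < (K : ℝ) + 1 := lt_of_mul_lt_mul_right h6 hq0.le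
        have h8 : m < K + 1 := by exact_mod_cast h7
        show m - 1 < K
        omega
      · apply Nat.le_floor
        rw [hmr, le_beta_iff hT h1r (by linarith)]
        exact h3'
      · rw [hm']
        exact h4
    · intro s hs
      rw [Finset.mem_sigma, Finset.mem_range, Finset.mem_filter, Finset.mem_Icc] at hs
      obtain ⟨h1, ⟨h2, h3⟩, h4⟩ := hs
      rw [Finset.mem_filter, mem_Reg]
      have hpos : 1 ≤ (s.1 + 1) * q := Nat.mul_pos (by omega) (by omega)
      have hposr : (0 : ℝ) < ((s.1 : ℝ) + 1) * q := by positivity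
      have h2r : (0 : ℝ) ≤ s.2 := by positivity
      have h5 : (s.2 : ℝ) ≤ beta T (((s.1 : ℝ) + 1) * q) :=
        (Nat.le_floor_iff (beta_nonneg hT hposr)).mp h3
      rw [le_beta_iff hT hposr h2r] at h5
      refine ⟨⟨hpos, h2, ?_⟩, Dvd.intro_left _ rfl, h4⟩
      unfold Nn
      push_cast
      exact h5
    · intro t ht
      rw [Finset.mem_filter, mem_Reg] at ht
      obtain ⟨⟨h1, h2, h3⟩, ⟨m, hm⟩, h4⟩ := ht
      have hm1 : 1 ≤ m := by
        rcases Nat.eq_zero_or_pos m with h5 | h5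
        · rw [h5, mul_zero] at hm
          omega
        · exact h5
      have hdiv : t.1 / q = m := by
        rw [hm]
        exact Nat.mul_div_cancel_left m (by omega)
      simp only
      rw [hdiv, Nat.sub_add_cancel hm1]
      apply Prod.ext
      · simp only
        rw [hm, mul_comm]
      · rfl
    · intro s hs
      simp only
      rw [Nat.mul_div_cancel _ (by omega : 0 < q), Nat.add_sub_cancel]
  rw [hcount]
  push_cast
  have hsum := sum_beta q hq T hT h K hK2.le
  rw [hI] at hsum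
  set S := ∑ k ∈ Finset.range K, beta T (((k : ℝ) + 1) * q) with hS
  have hcnt : |∑ k ∈ Finset.range K, ((((Finset.Icc 1 ⌊beta T (((k : ℝ) + 1) * q)⌋₊).filter
        (fun b => b ≡ r ((k + 1) * q) [MOD M])).card : ℕ) : ℝ) - S / M| ≤ √T := by
    rw [hS, Finset.sum_div, ← Finset.sum_sub_distrib]
    refine (Finset.abs_sum_le_sum_abs _ _).trans ?_
    refine (Finset.sum_le_sum (fun k _ => class_count_real M (r ((k + 1) * q)) hM
      (beta_nonneg hT (by positivity)))).trans ?_
    rw [Finset.sum_const, Finset.card_range, nsmul_eq_mul, mul_one]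
    exact hKs
  have hdiff : |S / M - c0 * T ^ (2 / 3 : ℝ) / (q * M)| ≤ 3 * √T := by
    have e : S / M - c0 * T ^ (2 / 3 : ℝ) / (q * M) =
        (S - c0 * T ^ (2 / 3 : ℝ) / q) / M := by
      field_simp
    rw [e, abs_div, abs_of_pos hM0, div_le_iff₀ hM0]
    refine hsum.trans ?_
    have : 0 ≤ 3 * √T := by positivity
    nlinarith
  set X := ∑ k ∈ Finset.range K, ((((Finset.Icc 1 ⌊beta T (((k : ℝ) + 1) * q)⌋₊).filter
        (fun b => b ≡ r ((k + 1) * q) [MOD M])).card : ℕ) : ℝ) with hX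
  calc |X - c0 * T ^ (2 / 3 : ℝ) / (q * M)| =
        |(X - S / M) + (S / M - c0 * T ^ (2 / 3 : ℝ) / (q * M))| := by
          congr 1
          ring
    _ ≤ |X - S / M| + |S / M - c0 * T ^ (2 / 3 : ℝ) / (q * M)| := abs_add_le _ _
    _ ≤ 4 * √T := by linarith

end Pool.Agent.Lib.AbcG
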