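import Mathlib
import Pool.Agent.Lib.AbcG.Base

/-!
# The area
-/

open Finset MeasureTheory Set

namespace Pool.Agent.Lib.AbcG

/-- The real Beta integral. -/
theorem beta_real {a b : ℝ} (ha : 0 < a) (hb : 0 < b) :
    IntegrableOn (fun t : ℝ => t ^ (a - 1) * (1 - t) ^ (b - 1)) (Ioo 0 1) ∧
      ∫ t in Ioo (0 : ℝ) 1, t ^ (a - 1) * (1 - t) ^ (b - 1) =
        Real.Gamma a * Real.Gamma b / Real.Gamma (a + b) := by
  have hB : 0 < ProbabilityTheory.beta a b := ProbabilityTheory.beta_pos ha hb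
  have h1 := ProbabilityTheory.lintegral_betaPDF_eq_one ha hb
  rw [ProbabilityTheory.lintegral_betaPDF] at h1
  have hnn : ∀ t ∈ Ioo (0 : ℝ) 1, 0 ≤ 1 / ProbabilityTheory.beta a b * t ^ (a - 1) *
      (1 - t) ^ (b - 1) := by
    intro t ht
    have h2 : 0 < 1 - t := by linarith [ht.2]
    have h3 := ht.1
    positivity
  have hmeas : AEStronglyMeasurable (fun t : ℝ => 1 / ProbabilityTheory.beta a b * t ^ (a - 1) *
      (1 - t) ^ (b - 1)) (volume.restrict (Ioo 0 1)) :=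
    Measurable.aestronglyMeasurable (by fun_prop)
  have hae : 0 ≤ᵐ[volume.restrict (Ioo (0 : ℝ) 1)] (fun t : ℝ =>
      1 / ProbabilityTheory.beta a b * t ^ (a - 1) * (1 - t) ^ (b - 1)) :=
    ae_restrict_of_forall_mem measurableSet_Ioo hnn
  have hint : IntegrableOn (fun t : ℝ => 1 / ProbabilityTheory.beta a b * t ^ (a - 1) *
      (1 - t) ^ (b - 1)) (Ioo 0 1) := by
    refine ⟨hmeas, ?_⟩
    rw [hasFiniteIntegral_iff_ofReal hae, h1]
    exact ENNReal.one_lt_top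
  have hval : ∫ t in Ioo (0 : ℝ) 1, 1 / ProbabilityTheory.beta a b * t ^ (a - 1) *
      (1 - t) ^ (b - 1) = 1 := by
    rw [integral_eq_lintegral_of_nonneg_ae hae hmeas, h1]
    simp
  constructor
  · have h2 : IntegrableOn (fun t : ℝ => ProbabilityTheory.beta a b *
        (1 / ProbabilityTheory.beta a b * t ^ (a - 1) * (1 - t) ^ (b - 1))) (Ioo 0 1) :=
      hint.const_mul (ProbabilityTheory.beta a b)
    refine h2.congr_fun (fun t _ => ?_) measurableSet_Ioo
    simp only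
    field_simp
  · have h2 : ∫ t in Ioo (0 : ℝ) 1, 1 / ProbabilityTheory.beta a b * t ^ (a - 1) *
      (1 - t) ^ (b - 1) = 1 / ProbabilityTheory.beta a b *
        ∫ t in Ioo (0 : ℝ) 1, t ^ (a - 1) * (1 - t) ^ (b - 1) := by
      rw [← integral_const_mul]
      congr 1
      ext t
      ring
    rw [hval] at h2
    have h3 : ProbabilityTheory.beta a b = Real.Gamma a * Real.Gamma b / Real.Gamma (a + b) := rfl
    rw [← h3]
    field_simp at h2
    linarith

theorem sq_root_eq {T x : ℝ} (hT : 0 ≤ T) (hx : 0 < x) :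
    x * beta T x * (x + beta T x) = T := by
  have h0 : 0 ≤ x ^ 2 + 4 * T / x := by positivity
  have h1 := Real.sq_sqrt h0
  have h2 : beta T x * (x + beta T x) = T / x := by
    unfold beta
    set s := √(x ^ 2 + 4 * T / x) with hs
    have e : (-x + s) / 2 * (x + (-x + s) / 2) = (s ^ 2 - x ^ 2) / 4 := by ring
    rw [e, h1]
    ring
  calc x * beta T x * (x + beta T x) = x * (beta T x * (x + beta T x)) := by ring
    _ = x * (T / x) := by rw [h2]
    _ = T := by field_simp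

theorem beta_unique {T x y : ℝ} (hT : 0 ≤ T) (hx : 0 < x) (hy : 0 ≤ y)
    (h : x * y * (x + y) = T) : beta T x = y := by
  apply le_antisymm
  · by_contra hcon
    push Not at hcon
    have h1 := sq_root_eq hT hx
    have h2 : x * y * (x + y) < x * beta T x * (x + beta T x) := by
      have h3 : x * y < x * beta T x := mul_lt_mul_of_pos_left hcon hx
      have h4 : x + y < x + beta T x := by linarith
      have h5 : 0 ≤ x * y := by positivity
      calc x * y * (x + y) ≤ x * beta T x * (x + y) :=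
            mul_le_mul_of_nonneg_right h3.le (by linarith)
        _ < x * beta T x * (x + beta T x) := mul_lt_mul_of_pos_left h4 (by linarith)
    linarith
  · rw [le_beta_iff hT hx hy, h]

theorem beta_pos' {T x : ℝ} (hT : 0 < T) (hx : 0 < x) : 0 < beta T x := by
  rcases (beta_nonneg hT.le hx).eq_or_lt with h | h
  · have := sq_root_eq hT.le hx
    rw [← h] at this
    simp at this
    linarith
  · exact h

/-- The parametrisation. -/
noncomputable def ff (c t : ℝ) : ℝ := c * (t ^ (2 / 3 : ℝ) * (1 - t) ^ (-(1 / 3) : ℝ))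

/-- The second coordinate. -/
noncomputable def gg (c t : ℝ) : ℝ := c * (t ^ (-(1 / 3) : ℝ) * (1 - t) ^ (2 / 3 : ℝ))

theorem ff_pos {c t : ℝ} (hc : 0 < c) (ht : t ∈ Ioo (0 : ℝ) 1) : 0 < ff c t := by
  unfold ff
  have h1 := ht.1
  have h2 : 0 < 1 - t := by linarith [ht.2]
  positivity

theorem gg_pos {c t : ℝ} (hc : 0 < c) (ht : t ∈ Ioo (0 : ℝ) 1) : 0 < gg c t := by
  unfold gg
  have h1 := ht.1
  have h2 : 0 < 1 - t := by linarith [ht.2]
  positivity

/-- Basic algebra of the parametrisation, with cube roots. -/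
theorem param {c t : ℝ} (ht : t ∈ Ioo (0 : ℝ) 1) :
    ∃ a b : ℝ, 0 < a ∧ 0 < b ∧ a ^ 3 = t ∧ b ^ 3 = 1 - t ∧ ff c t = c * (a ^ 2 / b) ∧
      gg c t = c * (b ^ 2 / a) := by
  have h1 := ht.1
  have h2 : 0 < 1 - t := by linarith [ht.2]
  have cube : ∀ z : ℝ, 0 < z → (z ^ (1 / 3 : ℝ)) ^ 3 = z := by
    intro z hz
    rw [← Real.rpow_natCast, ← Real.rpow_mul hz.le]
    norm_num
  have sq : ∀ z : ℝ, 0 < z → (z ^ (1 / 3 : ℝ)) ^ 2 = z ^ (2 / 3 : ℝ) := by
    intro z hz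
    rw [← Real.rpow_natCast, ← Real.rpow_mul hz.le]
    norm_num
  refine ⟨t ^ (1 / 3 : ℝ), (1 - t) ^ (1 / 3 : ℝ), by positivity, by positivity, cube t h1,
    cube _ h2, ?_, ?_⟩
  · unfold ff
    rw [Real.rpow_neg h2.le, sq t h1, ← div_eq_mul_inv]
  · unfold gg
    rw [Real.rpow_neg h1.le, sq _ h2, mul_comm (t ^ (1 / 3 : ℝ))⁻¹, ← div_eq_mul_inv]

theorem beta_ff {c t : ℝ} (hc : 0 < c) (ht : t ∈ Ioo (0 : ℝ) 1) :
    beta (c ^ 3) (ff c t) = gg c t := by
  apply beta_unique (by positivity) (ff_pos hc ht) (gg_pos hc ht).le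
  obtain ⟨a, b, ha, hb, ha3, hb3, e1, e2⟩ := param (c := c) ht
  rw [e1, e2]
  have h1 : a ^ 3 + b ^ 3 = 1 := by rw [ha3, hb3]; ring
  field_simp
  linear_combination h1

theorem ff_ratio {c t : ℝ} (hc : 0 < c) (ht : t ∈ Ioo (0 : ℝ) 1) :
    ff c t / (ff c t + gg c t) = t := by
  obtain ⟨a, b, ha, hb, ha3, hb3, e1, e2⟩ := param (c := c) ht
  have h1 : a ^ 3 + b ^ 3 = 1 := by rw [ha3, hb3]; ring
  have h2 : ff c t + gg c t = c / (a * b) := by
    rw [e1, e2]
    field_simp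
    linear_combination h1
  rw [h2, e1, ← ha3]
  field_simp

theorem ff_injOn {c : ℝ} (hc : 0 < c) : InjOn (ff c) (Ioo 0 1) := by
  intro s hs t ht h
  rw [← ff_ratio hc hs, ← ff_ratio hc ht, ← beta_ff hc hs, ← beta_ff hc ht, h]

theorem ff_image {c : ℝ} (hc : 0 < c) : ff c '' Set.Ioo 0 1 = Set.Ioi 0 := by
  ext x
  constructor
  · rintro ⟨t, ht, rfl⟩
    exact ff_pos hc ht
  · intro hx
    have hx0 : 0 < x := hx
    have hT : (0 : ℝ) < c ^ 3 := by positivity
    have hy := beta_pos' hT hx0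
    have heq := sq_root_eq hT.le hx0
    set y := beta (c ^ 3) x with hyd
    have ht : x / (x + y) ∈ Ioo (0 : ℝ) 1 := by
      constructor
      · positivity
      · rw [div_lt_one (by positivity)]
        linarith
    refine ⟨x / (x + y), ht, ?_⟩
    obtain ⟨a, b, ha, hb, ha3, hb3, e1, e2⟩ := param (c := c) ht
    rw [e1]
    -- `(c a² / b)³ = x³`
    have h1 : (c * (a ^ 2 / b)) ^ 3 = x ^ 3 := by
      have h2 : (c * (a ^ 2 / b)) ^ 3 = c ^ 3 * ((a ^ 3) ^ 2 / b ^ 3) := by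
        field_simp
      rw [h2, ha3, hb3, ← heq]
      have h3 : 1 - x / (x + y) = y / (x + y) := by
        field_simp
        ring
      rw [h3]
      field_simp
    exact (pow_left_inj₀ (by positivity) hx0.le (by norm_num)).mp h1

/-- The derivative of the parametrisation. -/
noncomputable def ff' (c t : ℝ) : ℝ :=
  c * (2 / 3 * t ^ (-(1 / 3) : ℝ) * (1 - t) ^ (-(1 / 3) : ℝ) +
    t ^ (2 / 3 : ℝ) * (1 / 3 * (1 - t) ^ (-(4 / 3) : ℝ)))

theorem ff_deriv (c : ℝ) {t : ℝ} (ht : t ∈ Ioo (0 : ℝ) 1) : HasDerivAt (ff c) (ff' c t) t := by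
  have h1 := ht.1
  have h2 : 0 < 1 - t := by linarith [ht.2]
  have d1 : HasDerivAt (fun t : ℝ => t ^ (2 / 3 : ℝ)) (2 / 3 * t ^ (-(1 / 3) : ℝ)) t := by
    have := Real.hasDerivAt_rpow_const (x := t) (p := 2 / 3) (Or.inl h1.ne')
    convert this using 2
    norm_num
  have d2 : HasDerivAt (fun t : ℝ => (1 - t) ^ (-(1 / 3) : ℝ))
      (1 / 3 * (1 - t) ^ (-(4 / 3) : ℝ)) t := by
    have e1 : HasDerivAt (fun t : ℝ => 1 - t) (-1) t := by
      have := (hasDerivAt_id t).const_sub 1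
      exact this
    have := e1.rpow_const (p := -(1 / 3)) (Or.inl h2.ne')
    convert this using 1
    norm_num
  have d3 := (d1.mul d2).const_mul c
  exact d3

theorem ff'_nonneg {c t : ℝ} (hc : 0 < c) (ht : t ∈ Ioo (0 : ℝ) 1) : 0 ≤ ff' c t := by
  have h1 := ht.1
  have h2 : 0 < 1 - t := by linarith [ht.2]
  unfold ff'
  positivity

/-- The integrand after the change of variables. -/
theorem integrand {c t : ℝ} (hc : 0 < c) (ht : t ∈ Ioo (0 : ℝ) 1) :
    |ff' c t| • beta (c ^ 3) (ff c t) =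
      c ^ 2 * (2 / 3 * (t ^ ((1 / 3 : ℝ) - 1) * (1 - t) ^ ((4 / 3 : ℝ) - 1)) +
        1 / 3 * (t ^ ((4 / 3 : ℝ) - 1) * (1 - t) ^ ((1 / 3 : ℝ) - 1))) := by
  have h1 := ht.1
  have h2 : 0 < 1 - t := by linarith [ht.2]
  rw [abs_of_nonneg (ff'_nonneg hc ht), beta_ff hc ht, smul_eq_mul]
  unfold ff' gg
  have a1 : t ^ ((1 / 3 : ℝ) - 1) = t ^ (-(1 / 3) : ℝ) * t ^ (-(1 / 3) : ℝ) := by
    rw [← Real.rpow_add h1]
    norm_num
  have a2 : t ^ ((4 / 3 : ℝ) - 1) = t ^ (2 / 3 : ℝ) * t ^ (-(1 / 3) : ℝ) := by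
    rw [← Real.rpow_add h1]
    norm_num
  have a3 : (1 - t) ^ ((4 / 3 : ℝ) - 1) = (1 - t) ^ (-(1 / 3) : ℝ) * (1 - t) ^ (2 / 3 : ℝ) := by
    rw [← Real.rpow_add h2]
    norm_num
  have a4 : (1 - t) ^ ((1 / 3 : ℝ) - 1) = (1 - t) ^ (-(4 / 3) : ℝ) * (1 - t) ^ (2 / 3 : ℝ) := by
    rw [← Real.rpow_add h2]
    norm_num
  rw [a1, a2, a3, a4]
  ring

theorem gamma_value : 2 / 3 * (Real.Gamma (1 / 3) * Real.Gamma (4 / 3) /
    Real.Gamma (1 / 3 + 4 / 3)) + 1 / 3 * (Real.Gamma (4 / 3) * Real.Gamma (1 / 3) /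
    Real.Gamma (4 / 3 + 1 / 3)) = c0 := by
  have g1 : Real.Gamma (4 / 3) = 1 / 3 * Real.Gamma (1 / 3) := by
    have := Real.Gamma_add_one (s := 1 / 3) (by norm_num)
    rw [← this]
    norm_num
  have g2 : Real.Gamma (5 / 3) = 2 / 3 * Real.Gamma (2 / 3) := by
    have := Real.Gamma_add_one (s := 2 / 3) (by norm_num)
    rw [← this]
    norm_num
  have e1 : (1 / 3 + 4 / 3 : ℝ) = 5 / 3 := by norm_num
  have e2 : (4 / 3 + 1 / 3 : ℝ) = 5 / 3 := by norm_num
  have p1 : 0 < Real.Gamma (2 / 3) := Real.Gamma_pos_of_pos (by norm_num)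
  rw [e1, e2, g1, g2]
  unfold c0
  field_simp
  norm_num

theorem beta_integral (T : ℝ) (hT : 0 ≤ T) :
    IntegrableOn (beta T) (Set.Ioi 0) ∧
      ∫ x in Set.Ioi 0, beta T x = c0 * T ^ (2 / 3 : ℝ) := by
  rcases hT.eq_or_lt with h0 | h0
  · subst h0
    have h1 : ∀ x ∈ Set.Ioi (0 : ℝ), beta 0 x = 0 := by
      intro x hx
      exact beta_unique le_rfl hx le_rfl (by ring)
    constructor
    · have h2 : IntegrableOn (fun _ : ℝ => (0 : ℝ)) (Set.Ioi 0) := integrableOn_zero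
      exact h2.congr_fun (fun x hx => (h1 x hx).symm) measurableSet_Ioi
    · rw [setIntegral_congr_fun measurableSet_Ioi h1]
      simp
  · obtain ⟨c, hc⟩ : ∃ c : ℝ, c = T ^ (1 / 3 : ℝ) := ⟨_, rfl⟩
    have hc0 : 0 < c := by rw [hc]; positivity
    have hc3 : c ^ 3 = T := by
      rw [hc, ← Real.rpow_natCast, ← Real.rpow_mul hT]
      norm_num
    have hc2 : c ^ 2 = T ^ (2 / 3 : ℝ) := by
      rw [hc, ← Real.rpow_natCast, ← Real.rpow_mul hT]
      norm_num
    have hder : ∀ t ∈ Set.Ioo (0 : ℝ) 1, HasDerivWithinAt (ff c) (ff' c t) (Set.Ioo 0 1) t :=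
      fun t ht => (ff_deriv c ht).hasDerivWithinAt
    obtain ⟨i1, v1⟩ := beta_real (a := 1 / 3) (b := 4 / 3) (by norm_num) (by norm_num)
    obtain ⟨i2, v2⟩ := beta_real (a := 4 / 3) (b := 1 / 3) (by norm_num) (by norm_num)
    have hint : IntegrableOn (fun t : ℝ =>
        c ^ 2 * (2 / 3 * (t ^ ((1 / 3 : ℝ) - 1) * (1 - t) ^ ((4 / 3 : ℝ) - 1)) +
        1 / 3 * (t ^ ((4 / 3 : ℝ) - 1) * (1 - t) ^ ((1 / 3 : ℝ) - 1)))) (Set.Ioo 0 1) :=
      ((i1.const_mul (2 / 3)).add (i2.const_mul (1 / 3))).const_mul (c ^ 2)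
    rw [← hc3, ← ff_image hc0]
    constructor
    · rw [integrableOn_image_iff_integrableOn_abs_deriv_smul measurableSet_Ioo hder
        (ff_injOn hc0)]
      exact hint.congr_fun (fun t ht => (integrand hc0 ht).symm) measurableSet_Ioo
    · rw [integral_image_eq_integral_abs_deriv_smul measurableSet_Ioo hder (ff_injOn hc0),
        setIntegral_congr_fun measurableSet_Ioo (fun t ht => integrand hc0 ht),
        integral_const_mul, integral_add (i1.const_mul (2 / 3)) (i2.const_mul (1 / 3)),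
        integral_const_mul, integral_const_mul, v1, v2, gamma_value, hc3, ← hc2]
      ring

end Pool.Agent.Lib.AbcG
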