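import Mathlib
import Pool.Agent.Lib.AbcG.Area
import Pool.Agent.Lib.AbcG.Mob

/-!
# Coprime pairs with divisibility conditions

PROOF. Let `q1, q2, q3 ≥ 1` be pairwise coprime, `L = q1 q2 q3`, `T ≥ 1`. By Moebius inversion on
`gcd(a,b)`: `Bc = ∑_{e ≥ 1} μ(e) #{(a, b) ∈ Reg T : e ∣ a, e ∣ b, q1 ∣ a, q2 ∣ b, q3 ∣ a + b}`
and with `a = e a'`, `b = e b'` the last number is
`#{(a', b') ∈ Reg (T/e³) : q1' ∣ a', q2' ∣ b', q3' ∣ a' + b'}`, `qi' = qi / gcd(qi, e)`. It is `0`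
for `e³ > T`. For `e³ ≤ T`: `q2' ∣ b'` and `b' ≡ -a' mod q3'` is one residue class modulo
`q2' q3'` depending on `a'` (CRT), so `base_count` gives
`c0 (T/e³)^(2/3) / (q1' q2' q3') + O(4 √(T/e³))`, and `q1' q2' q3' = L / gcd(L, e)`.
Sum of the errors `≤ 4 √T ∑ e^(-3/2) ≤ 12 √T`. Main terms:
`c0 T^(2/3) / L * ∑_{e ≤ E} μ(e) gcd(e, L)/e²`, `E = ⌊T^(1/3)⌋ ≥ 1`; completing the sum costs
`≤ c0 T^(2/3) / L * 2 τ(L) / E ≤ 4 c0 T^(1/3) ≤ 8 T^(1/3)` (`τ(L) ≤ L`, `c0 ≤ 3`, `E ≥ T^(1/3)/2`;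
any absolute constant is fine, the statement leaves it free).
-/

open Finset

namespace Pool.Agent.Lib.AbcG

theorem c0_pos : 0 < c0 := by
  unfold c0
  have h1 : 0 < Real.Gamma (1 / 3) := Real.Gamma_pos_of_pos (by norm_num)
  have h2 : 0 < Real.Gamma (2 / 3) := Real.Gamma_pos_of_pos (by norm_num)
  positivity

theorem sum_mob_divisors (n : ℕ) :
    ∑ e ∈ n.divisors, ((ArithmeticFunction.moebius e : ℤ) : ℝ) = if n = 1 then 1 else 0 := by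
  have h := ArithmeticFunction.coe_zeta_mul_apply (f := ArithmeticFunction.moebius) (x := n)
  rw [ArithmeticFunction.coe_zeta_mul_moebius, ArithmeticFunction.one_apply] at h
  rw [← Int.cast_sum, ← h]
  split_ifs <;> simp

/-- Pairs with a common divisor `e`. -/
noncomputable def Ne (q1 q2 q3 e : ℕ) (T : ℝ) : ℕ :=
  ((Reg T).filter (fun t => (e ∣ t.1 ∧ e ∣ t.2) ∧ q1 ∣ t.1 ∧ q2 ∣ t.2 ∧ q3 ∣ t.1 + t.2)).card

theorem Nn_mul (e : ℕ) (t : ℕ × ℕ) : Nn (e * t.1, e * t.2) = e ^ 3 * Nn t := by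
  unfold Nn
  ring

theorem cube_le {T : ℝ} {t : ℕ × ℕ} (ht : t ∈ Reg T) {e : ℕ} (h1 : e ∣ t.1) (h2 : e ∣ t.2) :
    ((e : ℝ)) ^ 3 ≤ T := by
  rw [mem_Reg] at ht
  obtain ⟨h3, h4, h5⟩ := ht
  have a1 : e ≤ t.1 := Nat.le_of_dvd h3 h1
  have a2 : e ≤ t.2 := Nat.le_of_dvd h4 h2
  have a3 : e ^ 3 ≤ Nn t := by
    unfold Nn
    calc e ^ 3 = e * e * e := by ring
      _ ≤ t.1 * t.2 * (t.1 + t.2) := Nat.mul_le_mul (Nat.mul_le_mul a1 a2) (by omega)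
  exact le_trans (by exact_mod_cast a3) h5

theorem le_cbrt {T : ℝ} {e : ℕ} (h : (e : ℝ) ^ 3 ≤ T) : e ≤ ⌊T ^ (1 / 3 : ℝ)⌋₊ := by
  apply Nat.le_floor
  have h1 : (e : ℝ) = ((e : ℝ) ^ 3) ^ (1 / 3 : ℝ) := by
    rw [← Real.rpow_natCast, ← Real.rpow_mul (Nat.cast_nonneg e)]
    norm_num
  rw [h1]
  exact Real.rpow_le_rpow (by positivity) h (by norm_num)

theorem Bc_eq (q1 q2 q3 : ℕ) (T : ℝ) :
    (Bc q1 q2 q3 T : ℝ) = ∑ e ∈ Icc 1 ⌊T ^ (1 / 3 : ℝ)⌋₊,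
      ((ArithmeticFunction.moebius e : ℤ) : ℝ) * (Ne q1 q2 q3 e T : ℝ) := by
  have h1 : (Bc q1 q2 q3 T : ℝ) = ∑ t ∈ (Reg T).filter (fun t => q1 ∣ t.1 ∧ q2 ∣ t.2 ∧
      q3 ∣ t.1 + t.2), (if t.1.Coprime t.2 then (1 : ℝ) else 0) := by
    unfold Bc
    rw [← sum_filter, filter_filter, sum_const, nsmul_eq_mul, mul_one]
    congr 2
    apply filter_congr
    intro t _
    tauto
  have h2 : ∀ e ∈ Icc 1 ⌊T ^ (1 / 3 : ℝ)⌋₊,
      ((ArithmeticFunction.moebius e : ℤ) : ℝ) * (Ne q1 q2 q3 e T : ℝ) =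
      ∑ t ∈ (Reg T).filter (fun t => q1 ∣ t.1 ∧ q2 ∣ t.2 ∧ q3 ∣ t.1 + t.2),
        (if e ∣ t.1 ∧ e ∣ t.2 then ((ArithmeticFunction.moebius e : ℤ) : ℝ) else 0) := by
    intro e _
    rw [← sum_filter, filter_filter, sum_const, nsmul_eq_mul, mul_comm]
    congr 2
    unfold Ne
    congr 1
    apply filter_congr
    intro t _
    tauto
  rw [h1, sum_congr rfl h2, sum_comm]
  refine sum_congr rfl (fun t ht => ?_)
  rw [mem_filter] at ht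
  have hR := mem_Reg.1 ht.1
  have hg : t.1.gcd t.2 ≠ 0 := by
    intro h0
    have := Nat.eq_zero_of_gcd_eq_zero_left h0
    omega
  have h3 : (Icc 1 ⌊T ^ (1 / 3 : ℝ)⌋₊).filter (fun e => e ∣ t.1 ∧ e ∣ t.2) =
      (t.1.gcd t.2).divisors := by
    ext e
    rw [mem_filter, mem_Icc, Nat.mem_divisors]
    constructor
    · rintro ⟨_, h4, h5⟩
      exact ⟨Nat.dvd_gcd h4 h5, hg⟩
    · rintro ⟨h4, _⟩
      have h5 := h4.trans (Nat.gcd_dvd_left _ _)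
      have h6 := h4.trans (Nat.gcd_dvd_right _ _)
      exact ⟨⟨Nat.pos_of_dvd_of_pos h5 (by omega), le_cbrt (cube_le ht.1 h5 h6)⟩, h5, h6⟩
  rw [← sum_filter, h3, sum_mob_divisors]

theorem dvd_mul_iff_div {q e : ℕ} (hq : 1 ≤ q) (x : ℕ) : q ∣ e * x ↔ q / q.gcd e ∣ x := by
  have hg : 0 < q.gcd e := Nat.gcd_pos_of_pos_left e hq
  have h1 : q = q.gcd e * (q / q.gcd e) := (Nat.mul_div_cancel' (Nat.gcd_dvd_left q e)).symm
  have h2 : e = q.gcd e * (e / q.gcd e) := (Nat.mul_div_cancel' (Nat.gcd_dvd_right q e)).symm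
  have hc : (q / q.gcd e).Coprime (e / q.gcd e) := Nat.coprime_div_gcd_div_gcd hg
  have h3 : q ∣ e * x ↔ q.gcd e * (q / q.gcd e) ∣ q.gcd e * (e / q.gcd e * x) := by
    rw [← h1, ← mul_assoc, ← h2]
  rw [h3, Nat.mul_dvd_mul_iff_left hg]
  exact ⟨fun h => hc.dvd_of_dvd_mul_left h, fun h => h.mul_left _⟩

/-- The residue class. -/
def crtR (m2 m3 : ℕ) (h : m2.Coprime m3) (x : ℕ) : ℕ := Nat.chineseRemainder h 0 ((m3 - 1) * x)

theorem crt_iff (m2 m3 : ℕ) (h : m2.Coprime m3) (h3 : 1 ≤ m3) (x y : ℕ) :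
    y ≡ crtR m2 m3 h x [MOD m2 * m3] ↔ m2 ∣ y ∧ m3 ∣ x + y := by
  have hr := (Nat.chineseRemainder h 0 ((m3 - 1) * x)).2
  have e : x + (m3 - 1) * x = m3 * x := by
    obtain ⟨k, rfl⟩ : ∃ k, m3 = k + 1 := ⟨m3 - 1, by omega⟩
    rw [Nat.add_sub_cancel]
    ring
  rw [← Nat.modEq_and_modEq_iff_modEq_mul h]
  constructor
  · rintro ⟨h4, h5⟩
    refine ⟨?_, ?_⟩
    · exact (Nat.modEq_zero_iff_dvd).1 (h4.trans hr.1)
    · have h6 : x + y ≡ x + (m3 - 1) * x [MOD m3] := Nat.ModEq.add_left x (h5.trans hr.2)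
      rw [e] at h6
      exact (Nat.modEq_zero_iff_dvd).1 (h6.trans ((Nat.modEq_zero_iff_dvd).2 (dvd_mul_right _ _)))
  · rintro ⟨h4, h5⟩
    refine ⟨?_, ?_⟩
    · exact ((Nat.modEq_zero_iff_dvd).2 h4).trans hr.1.symm
    · have h6 : x + y ≡ x + (m3 - 1) * x [MOD m3] := by
        rw [e]
        exact ((Nat.modEq_zero_iff_dvd).2 h5).trans
          ((Nat.modEq_zero_iff_dvd).2 (dvd_mul_right _ _)).symm
      exact (Nat.ModEq.add_left_cancel' x h6).trans hr.2.symm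

theorem Ne_eq (q1 q2 q3 e : ℕ) (h1 : 1 ≤ q1) (h2 : 1 ≤ q2) (h3 : 1 ≤ q3) (he : 1 ≤ e)
    (hc : (q2 / q2.gcd e).Coprime (q3 / q3.gcd e)) (T : ℝ) :
    Ne q1 q2 q3 e T = ((Reg (T / (e : ℝ) ^ 3)).filter (fun t => q1 / q1.gcd e ∣ t.1 ∧
      t.2 ≡ crtR _ _ hc t.1 [MOD (q2 / q2.gcd e) * (q3 / q3.gcd e)])).card := by
  have he' : (0 : ℝ) < (e : ℝ) ^ 3 := by positivity
  have hm3 : 1 ≤ q3 / q3.gcd e :=
    Nat.div_pos (Nat.gcd_le_left e h3) (Nat.gcd_pos_of_pos_left e h3)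
  unfold Ne
  symm
  refine card_bij' (fun t _ => (e * t.1, e * t.2)) (fun t _ => (t.1 / e, t.2 / e)) ?_ ?_ ?_ ?_
  · intro t ht
    rw [mem_filter, mem_Reg] at ht
    obtain ⟨⟨a1, a2, a3⟩, a4, a5⟩ := ht
    rw [mem_filter, mem_Reg]
    refine ⟨⟨Nat.mul_pos he a1, Nat.mul_pos he a2, ?_⟩, ⟨dvd_mul_right _ _, dvd_mul_right _ _⟩,
      ?_, ?_, ?_⟩
    · rw [Nn_mul]
      rw [le_div_iff₀ he'] at a3
      push_cast
      linarith
    · exact (dvd_mul_iff_div h1 _).2 a4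
    · exact (dvd_mul_iff_div h2 _).2 ((crt_iff _ _ hc hm3 _ _).1 a5).1
    · show q3 ∣ e * t.1 + e * t.2
      rw [← mul_add]
      exact (dvd_mul_iff_div h3 _).2 ((crt_iff _ _ hc hm3 _ _).1 a5).2
  · intro t ht
    rw [mem_filter, mem_Reg] at ht
    obtain ⟨⟨a1, a2, a3⟩, ⟨b1, b2⟩, a4, a5, a6⟩ := ht
    obtain ⟨x, hx⟩ := b1
    obtain ⟨y, hy⟩ := b2
    have hx' : t.1 / e = x := by rw [hx]; exact Nat.mul_div_cancel_left x he
    have hy' : t.2 / e = y := by rw [hy]; exact Nat.mul_div_cancel_left y he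
    have ht' : t = (e * x, e * y) := Prod.ext hx hy
    rw [mem_filter, mem_Reg]
    show (1 ≤ t.1 / e ∧ 1 ≤ t.2 / e ∧ (Nn (t.1 / e, t.2 / e) : ℝ) ≤ T / (e : ℝ) ^ 3) ∧
      q1 / q1.gcd e ∣ t.1 / e ∧
      t.2 / e ≡ crtR _ _ hc (t.1 / e) [MOD (q2 / q2.gcd e) * (q3 / q3.gcd e)]
    rw [hx', hy']
    refine ⟨⟨?_, ?_, ?_⟩, ?_, ?_⟩
    · rcases Nat.eq_zero_or_pos x with h | h
      · rw [h, mul_zero] at hx; omega
      · exact h
    · rcases Nat.eq_zero_or_pos y with h | h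
      · rw [h, mul_zero] at hy; omega
      · exact h
    · rw [le_div_iff₀ he']
      rw [ht'] at a3
      have h4 := Nn_mul e (x, y)
      simp only at h4
      rw [h4] at a3
      push_cast at a3
      linarith
    · rw [hx] at a4
      exact (dvd_mul_iff_div h1 _).1 a4
    · rw [hy] at a5
      rw [hx, hy, ← mul_add] at a6
      exact (crt_iff _ _ hc hm3 _ _).2 ⟨(dvd_mul_iff_div h2 _).1 a5, (dvd_mul_iff_div h3 _).1 a6⟩
  · intro t _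
    exact Prod.ext (Nat.mul_div_cancel_left t.1 he) (Nat.mul_div_cancel_left t.2 he)
  · intro t ht
    rw [mem_filter] at ht
    exact Prod.ext (Nat.mul_div_cancel' ht.2.1.1) (Nat.mul_div_cancel' ht.2.1.2)

theorem Ne_bound (q1 q2 q3 e : ℕ) (h1 : 1 ≤ q1) (h2 : 1 ≤ q2) (h3 : 1 ≤ q3)
    (h12 : q1.Coprime q2) (h13 : q1.Coprime q3) (h23 : q2.Coprime q3) (he : 1 ≤ e)
    (T : ℝ) (hT : 0 ≤ T) :
    |(Ne q1 q2 q3 e T : ℝ) - c0 * T ^ (2 / 3 : ℝ) / ((q1 * q2 * q3 : ℕ) : ℝ) *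
      ((Nat.gcd e (q1 * q2 * q3) : ℝ) / (e : ℝ) ^ 2)| ≤ 4 * √T * (1 / (e : ℝ) ^ (3 / 2 : ℝ)) := by
  have he' : (0 : ℝ) < (e : ℝ) := by exact_mod_cast he
  have hg1 := Nat.gcd_pos_of_pos_left e h1
  have hg2 := Nat.gcd_pos_of_pos_left e h2
  have hg3 := Nat.gcd_pos_of_pos_left e h3
  have hm1 : 1 ≤ q1 / q1.gcd e := Nat.div_pos (Nat.gcd_le_left e h1) hg1
  have hm2 : 1 ≤ q2 / q2.gcd e := Nat.div_pos (Nat.gcd_le_left e h2) hg2
  have hm3 : 1 ≤ q3 / q3.gcd e := Nat.div_pos (Nat.gcd_le_left e h3) hg3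
  have hc : (q2 / q2.gcd e).Coprime (q3 / q3.gcd e) :=
    (h23.coprime_dvd_left (Nat.div_dvd_of_dvd (Nat.gcd_dvd_left q2 e))).coprime_dvd_right
      (Nat.div_dvd_of_dvd (Nat.gcd_dvd_left q3 e))
  have hT' : 0 ≤ T / (e : ℝ) ^ 3 := by positivity
  have hb := base_count (q1 / q1.gcd e) ((q2 / q2.gcd e) * (q3 / q3.gcd e)) hm1
    (Nat.mul_pos hm2 hm3) (crtR _ _ hc) (T / (e : ℝ) ^ 3) hT' (beta_integral _ hT')
  rw [← Ne_eq q1 q2 q3 e h1 h2 h3 he hc T] at hb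
  have e1 : (T / (e : ℝ) ^ 3) ^ (2 / 3 : ℝ) = T ^ (2 / 3 : ℝ) / (e : ℝ) ^ 2 := by
    rw [Real.div_rpow hT (by positivity)]
    congr 1
    rw [← Real.rpow_natCast, ← Real.rpow_mul he'.le, ← Real.rpow_natCast]
    norm_num
  have e2 : √(T / (e : ℝ) ^ 3) = √T * (1 / (e : ℝ) ^ (3 / 2 : ℝ)) := by
    rw [Real.sqrt_div hT, div_eq_mul_one_div]
    congr 2
    rw [Real.sqrt_eq_rpow, ← Real.rpow_natCast, ← Real.rpow_mul he'.le]
    norm_num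
  have e3 : (q1 / q1.gcd e) * ((q2 / q2.gcd e) * (q3 / q3.gcd e)) * Nat.gcd e (q1 * q2 * q3) =
      q1 * q2 * q3 := by
    have h12' : (q1 * q2).Coprime q3 := Nat.Coprime.mul_left h13 h23
    rw [h12'.gcd_mul e, h12.gcd_mul e, Nat.gcd_comm e q1, Nat.gcd_comm e q2, Nat.gcd_comm e q3]
    have a1 := Nat.div_mul_cancel (Nat.gcd_dvd_left q1 e)
    have a2 := Nat.div_mul_cancel (Nat.gcd_dvd_left q2 e)
    have a3 := Nat.div_mul_cancel (Nat.gcd_dvd_left q3 e)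
    calc q1 / q1.gcd e * (q2 / q2.gcd e * (q3 / q3.gcd e)) * (q1.gcd e * q2.gcd e * q3.gcd e)
        = (q1 / q1.gcd e * q1.gcd e) * (q2 / q2.gcd e * q2.gcd e) *
          (q3 / q3.gcd e * q3.gcd e) := by ring
      _ = q1 * q2 * q3 := by rw [a1, a2, a3]
  have hM : (0 : ℝ) < (((q1 / q1.gcd e) : ℕ) : ℝ) * (((q2 / q2.gcd e) * (q3 / q3.gcd e) : ℕ) : ℝ) := by
    have b1 : (0 : ℝ) < (((q1 / q1.gcd e) : ℕ) : ℝ) := by exact_mod_cast hm1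
    have b2 : (0 : ℝ) < (((q2 / q2.gcd e) * (q3 / q3.gcd e) : ℕ) : ℝ) := by
      exact_mod_cast Nat.mul_pos hm2 hm3
    exact mul_pos b1 b2
  have hL : (0 : ℝ) < ((q1 * q2 * q3 : ℕ) : ℝ) := by
    exact_mod_cast Nat.mul_pos (Nat.mul_pos h1 h2) h3
  have e4 : c0 * (T / (e : ℝ) ^ 3) ^ (2 / 3 : ℝ) /
      ((((q1 / q1.gcd e) : ℕ) : ℝ) * (((q2 / q2.gcd e) * (q3 / q3.gcd e) : ℕ) : ℝ)) =
      c0 * T ^ (2 / 3 : ℝ) / ((q1 * q2 * q3 : ℕ) : ℝ) *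
      ((Nat.gcd e (q1 * q2 * q3) : ℝ) / (e : ℝ) ^ 2) := by
    have e5 : ((((q1 / q1.gcd e) : ℕ) : ℝ) * (((q2 / q2.gcd e) * (q3 / q3.gcd e) : ℕ) : ℝ)) *
        (Nat.gcd e (q1 * q2 * q3) : ℝ) = ((q1 * q2 * q3 : ℕ) : ℝ) := by
      exact_mod_cast e3
    rw [e1, ← e5]
    have hg : (0 : ℝ) < (Nat.gcd e (q1 * q2 * q3) : ℝ) := by
      exact_mod_cast Nat.gcd_pos_of_pos_left _ he
    field_simp
  rw [e4, e2] at hb
  have e6 : 4 * √T * (1 / (e : ℝ) ^ (3 / 2 : ℝ)) = 4 * (√T * (1 / (e : ℝ) ^ (3 / 2 : ℝ))) := by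
    ring
  rw [e6]
  exact hb

theorem tail_part (L E : ℕ) (hL : 1 ≤ L) (hE : 1 ≤ E) :
    |∑ e ∈ Icc 1 E, mobT L e - 6 / Real.pi ^ 2 * psi L| ≤
      2 * (L.divisors.card : ℝ) / (E : ℝ) := by
  have hs : Summable (fun e => |mobT L e|) := summable_mob L hL
  have hs1 : Summable (fun e => if E < e then |mobT L e| else 0) := by
    refine Summable.of_nonneg_of_le (fun e => ?_) (fun e => ?_) hs
    · split_ifs
      · exact abs_nonneg _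
      · exact le_refl _
    · split_ifs
      · exact le_refl _
      · exact abs_nonneg _
  have hs2 : Summable (fun e => if E < e then mobT L e else 0) := by
    refine Summable.of_norm ?_
    refine hs1.congr (fun e => ?_)
    rw [Real.norm_eq_abs]
    split_ifs
    · rfl
    · rw [abs_zero]
  have hfin : ∑' e, (if E < e then 0 else mobT L e) = ∑ e ∈ Icc 1 E, mobT L e := by
    rw [tsum_eq_sum (s := Icc 1 E)]
    · refine sum_congr rfl (fun e he => ?_)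
      rw [if_neg (not_lt.2 (mem_Icc.1 he).2)]
    · intro e he
      rw [mem_Icc, not_and_or] at he
      split_ifs with h1
      · rfl
      · have : e = 0 := by omega
        rw [this, mobT_zero]
  have hs3 : Summable (fun e => if E < e then 0 else mobT L e) := by
    apply summable_of_ne_finset_zero (s := Icc 1 E)
    intro e he
    rw [mem_Icc, not_and_or] at he
    split_ifs with h1
    · rfl
    · have : e = 0 := by omega
      rw [this, mobT_zero]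
  have hsum : ∑' e, mobT L e = (∑' e, (if E < e then mobT L e else 0)) +
      ∑' e, (if E < e then 0 else mobT L e) := by
    rw [← hs2.tsum_add hs3]
    congr 1
    funext e
    split_ifs <;> simp
  have ht : ∑' e, mobT L e = 6 / Real.pi ^ 2 * psi L := tsum_mob L hL
  rw [← ht, hsum, hfin]
  have e1 : ∑ e ∈ Icc 1 E, mobT L e - ((∑' e, (if E < e then mobT L e else 0)) +
      ∑ e ∈ Icc 1 E, mobT L e) = -∑' e, (if E < e then mobT L e else 0) := by ring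
  rw [e1, abs_neg]
  have h5 := norm_tsum_le_tsum_norm (f := fun e => if E < e then mobT L e else 0) hs2.norm
  rw [Real.norm_eq_abs] at h5
  refine h5.trans ?_
  have e2 : (fun e => ‖if E < e then mobT L e else 0‖) =
      fun e => if E < e then |mobT L e| else 0 := by
    funext e
    rw [Real.norm_eq_abs]
    split_ifs
    · rfl
    · rw [abs_zero]
  rw [e2]
  exact tail_mob L E hL hE

theorem cop_count : ∃ C1 : ℝ, 0 < C1 ∧ ∀ (q1 q2 q3 : ℕ), 1 ≤ q1 → 1 ≤ q2 → 1 ≤ q3 →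
    q1.Coprime q2 → q1.Coprime q3 → q2.Coprime q3 → ∀ T : ℝ, 1 ≤ T →
    |(Bc q1 q2 q3 T : ℝ) - c0 * T ^ (2 / 3 : ℝ) *
      (6 / Real.pi ^ 2 * psi (q1 * q2 * q3) / ((q1 * q2 * q3 : ℕ) : ℝ))| ≤ C1 * √T := by
  have hc0 := c0_pos
  have hS : Summable (fun e : ℕ => 1 / (e : ℝ) ^ (3 / 2 : ℝ)) :=
    Real.summable_one_div_nat_rpow.2 (by norm_num)
  have hS0 : 0 ≤ ∑' e : ℕ, 1 / (e : ℝ) ^ (3 / 2 : ℝ) :=
    tsum_nonneg (fun e => by positivity)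
  refine ⟨4 * (∑' e : ℕ, 1 / (e : ℝ) ^ (3 / 2 : ℝ)) + 4 * c0, by positivity, ?_⟩
  intro q1 q2 q3 h1 h2 h3 h12 h13 h23 T hT
  have hT0 : 0 ≤ T := by linarith
  have hL1 : 1 ≤ q1 * q2 * q3 := Nat.mul_pos (Nat.mul_pos h1 h2) h3
  obtain ⟨L, hL⟩ : ∃ L, L = q1 * q2 * q3 := ⟨_, rfl⟩
  obtain ⟨E, hE⟩ : ∃ E, E = ⌊T ^ (1 / 3 : ℝ)⌋₊ := ⟨_, rfl⟩
  have hLpos : (0 : ℝ) < (L : ℝ) := by rw [hL]; exact_mod_cast hL1
  have hX1 : 1 ≤ T ^ (1 / 3 : ℝ) := Real.one_le_rpow hT (by norm_num)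
  have hE1 : 1 ≤ E := by
    rw [hE]
    exact Nat.le_floor (by exact_mod_cast hX1)
  have hE2 : T ^ (1 / 3 : ℝ) ≤ 2 * E := by
    have h4 := Nat.lt_floor_add_one (T ^ (1 / 3 : ℝ))
    rw [← hE] at h4
    have h5 : (1 : ℝ) ≤ E := by exact_mod_cast hE1
    linarith
  have hEpos : (0 : ℝ) < E := by exact_mod_cast hE1
  rw [Bc_eq, ← hE, ← hL]
  -- the errors
  have key : |∑ e ∈ Icc 1 E, ((ArithmeticFunction.moebius e : ℤ) : ℝ) * (Ne q1 q2 q3 e T : ℝ) -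
      c0 * T ^ (2 / 3 : ℝ) / (L : ℝ) * ∑ e ∈ Icc 1 E, mobT L e| ≤
      4 * √T * ∑' e : ℕ, 1 / (e : ℝ) ^ (3 / 2 : ℝ) := by
    rw [mul_sum, ← sum_sub_distrib]
    refine (abs_sum_le_sum_abs _ _).trans ?_
    have h4 : ∀ e ∈ Icc 1 E, |((ArithmeticFunction.moebius e : ℤ) : ℝ) *
        (Ne q1 q2 q3 e T : ℝ) - c0 * T ^ (2 / 3 : ℝ) / (L : ℝ) * mobT L e| ≤
        4 * √T * (1 / (e : ℝ) ^ (3 / 2 : ℝ)) := by
      intro e he
      have he1 := (mem_Icc.1 he).1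
      have e1 : ((ArithmeticFunction.moebius e : ℤ) : ℝ) *
        (Ne q1 q2 q3 e T : ℝ) - c0 * T ^ (2 / 3 : ℝ) / (L : ℝ) * mobT L e =
        ((ArithmeticFunction.moebius e : ℤ) : ℝ) * ((Ne q1 q2 q3 e T : ℝ) -
          c0 * T ^ (2 / 3 : ℝ) / (L : ℝ) * ((Nat.gcd e L : ℝ) / (e : ℝ) ^ 2)) := by
        unfold mobT
        ring
      rw [e1, abs_mul]
      have h5 := Ne_bound q1 q2 q3 e h1 h2 h3 h12 h13 h23 he1 T hT0
      rw [← hL] at h5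
      calc _ ≤ 1 * |(Ne q1 q2 q3 e T : ℝ) -
          c0 * T ^ (2 / 3 : ℝ) / (L : ℝ) * ((Nat.gcd e L : ℝ) / (e : ℝ) ^ 2)| :=
            mul_le_mul_of_nonneg_right (mob_abs_le e) (abs_nonneg _)
        _ ≤ _ := by rw [one_mul]; exact h5
    refine (sum_le_sum h4).trans ?_
    rw [← mul_sum]
    apply mul_le_mul_of_nonneg_left _ (by positivity)
    exact hS.sum_le_tsum _ (fun e _ => by positivity)
  have key2 : |c0 * T ^ (2 / 3 : ℝ) / (L : ℝ) * ∑ e ∈ Icc 1 E, mobT L e -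
      c0 * T ^ (2 / 3 : ℝ) * (6 / Real.pi ^ 2 * psi L / (L : ℝ))| ≤ 4 * c0 * √T := by
    have e1 : c0 * T ^ (2 / 3 : ℝ) / (L : ℝ) * ∑ e ∈ Icc 1 E, mobT L e -
      c0 * T ^ (2 / 3 : ℝ) * (6 / Real.pi ^ 2 * psi L / (L : ℝ)) =
      c0 * T ^ (2 / 3 : ℝ) / (L : ℝ) * (∑ e ∈ Icc 1 E, mobT L e - 6 / Real.pi ^ 2 * psi L) := by
      ring
    have hpos : 0 ≤ c0 * T ^ (2 / 3 : ℝ) / (L : ℝ) := by positivity
    rw [e1, abs_mul, abs_of_nonneg hpos]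
    have h4 := tail_part L E (by rw [hL]; exact hL1) hE1
    have h5 : (L.divisors.card : ℝ) ≤ L := by exact_mod_cast Nat.card_divisors_le_self L
    have h6 : T ^ (2 / 3 : ℝ) = T ^ (1 / 3 : ℝ) * T ^ (1 / 3 : ℝ) := by
      rw [← Real.rpow_add (by linarith)]
      norm_num
    have h7 : T ^ (1 / 3 : ℝ) ≤ √T := by
      rw [Real.sqrt_eq_rpow]
      exact Real.rpow_le_rpow_of_exponent_le hT (by norm_num)
    calc c0 * T ^ (2 / 3 : ℝ) / (L : ℝ) * |∑ e ∈ Icc 1 E, mobT L e - 6 / Real.pi ^ 2 * psi L|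
        ≤ c0 * T ^ (2 / 3 : ℝ) / (L : ℝ) * (2 * L / E) := by
          apply mul_le_mul_of_nonneg_left _ hpos
          refine h4.trans ?_
          apply div_le_div_of_nonneg_right _ hEpos.le
          linarith
      _ = 2 * c0 * T ^ (1 / 3 : ℝ) * (T ^ (1 / 3 : ℝ) / E) := by
          rw [h6]
          field_simp
      _ ≤ 2 * c0 * T ^ (1 / 3 : ℝ) * 2 := by
          apply mul_le_mul_of_nonneg_left _ (by positivity)
          rw [div_le_iff₀ hEpos]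
          exact hE2
      _ ≤ 2 * c0 * √T * 2 := by
          apply mul_le_mul_of_nonneg_right _ (by norm_num)
          exact mul_le_mul_of_nonneg_left h7 (by positivity)
      _ = 4 * c0 * √T := by ring
  refine (abs_sub_le _ _ _).trans ((add_le_add key key2).trans (le_of_eq ?_))
  ring

end Pool.Agent.Lib.AbcG
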