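import Mathlib
import Pool.Agent.Lib.AbcG.Cop

/-!
# Pairs with `L ∣ a b (a + b)`

PROOF. For coprime `(a, b)` the numbers `a, b, a + b` are pairwise coprime, so `L ∣ a b (a+b)` iff
`L = q1 q2 q3` with `q1 = gcd(L, a)`, `q2 = gcd(L, b)`, `q3 = gcd(L, a + b)`, and this is the only
ordered factorisation of `L` into pairwise coprime `(q1, q2, q3)` with `q1 ∣ a`, `q2 ∣ b`,
`q3 ∣ a + b`. So `Ac L T = ∑_{(q1,q2,q3) ∈ F(L)} Bc q1 q2 q3 T`. `F(L)` has `3^ω(L)` elements
(each prime power `p^l ∥ L` goes to one of the three). Now use `cop_count`.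
-/

open Finset

namespace Pool.Agent.Lib.AbcG

/-- The primes of `L`. -/
abbrev PF (L : ℕ) : Type := {p : ℕ // p ∈ L.primeFactors}

/-- The power of `p` in `L`. -/
def pw (L : ℕ) (p : PF L) : ℕ := p.1 ^ L.factorization p.1

/-- The part of `L` sent to the member `i`. -/
def qq (L : ℕ) (s : PF L → Fin 3) (i : Fin 3) : ℕ := ∏ p : PF L, if s p = i then pw L p else 1

/-- The three members. -/
def mem3 (t : ℕ × ℕ) (i : Fin 3) : ℕ := ![t.1, t.2, t.1 + t.2] i

theorem pw_coprime (L : ℕ) (p p' : PF L) (h : p ≠ p') : (pw L p).Coprime (pw L p') := by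
  unfold pw
  apply Nat.Coprime.pow
  rw [Nat.coprime_primes (Nat.prime_of_mem_primeFactors p.2) (Nat.prime_of_mem_primeFactors p'.2)]
  exact fun h' => h (Subtype.ext h')

theorem prod_pw (L : ℕ) (hL : 1 ≤ L) : ∏ p : PF L, pw L p = L := by
  have h := Nat.prod_factorization_pow_eq_self (n := L) (by omega)
  rw [Finsupp.prod, Nat.support_factorization] at h
  exact (Finset.prod_coe_sort L.primeFactors (fun p => p ^ L.factorization p)).trans h

/-- Products of pairwise coprime factors. -/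
theorem prod_if_dvd (L : ℕ) (P : PF L → Prop) [DecidablePred P] (z : ℕ) :
    (∏ p : PF L, if P p then pw L p else 1) ∣ z ↔ ∀ p, P p → pw L p ∣ z := by
  constructor
  · intro h p hp
    refine dvd_trans ?_ h
    have h1 := Finset.dvd_prod_of_mem (fun p : PF L => if P p then pw L p else 1) (mem_univ p)
    simp only [if_pos hp] at h1
    exact h1
  · intro h
    apply Finset.prod_dvd_of_isRelPrime
    · intro p _ p' _ hpp
      show IsRelPrime (if P p then pw L p else 1) (if P p' then pw L p' else 1)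
      rw [← Nat.coprime_iff_isRelPrime]
      split_ifs
      · exact pw_coprime L p p' hpp
      · exact Nat.coprime_one_right _
      · exact Nat.coprime_one_left _
      · exact Nat.coprime_one_left _
    · intro p _
      split_ifs with hp
      · exact h p hp
      · exact one_dvd _

theorem qq_dvd_all (L : ℕ) (s : PF L → Fin 3) (x : Fin 3 → ℕ) :
    (∀ i, qq L s i ∣ x i) ↔ ∀ p, pw L p ∣ x (s p) := by
  constructor
  · intro h p
    exact (prod_if_dvd L (fun p' => s p' = s p) (x (s p))).1 (h (s p)) p rfl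
  · intro h i
    exact (prod_if_dvd L (fun p => s p = i) (x i)).2 (fun p hp => by rw [← hp]; exact h p)

theorem dvd_iff_pw (L : ℕ) (hL : 1 ≤ L) (z : ℕ) : L ∣ z ↔ ∀ p, pw L p ∣ z := by
  have h := prod_if_dvd L (fun _ => True) z
  simp only [if_true, forall_const] at h
  rw [prod_pw L hL] at h
  exact h

theorem qq_coprime (L : ℕ) (s : PF L → Fin 3) {i j : Fin 3} (hij : i ≠ j) :
    (qq L s i).Coprime (qq L s j) := by
  unfold qq
  apply Nat.Coprime.prod_left
  intro p _
  apply Nat.Coprime.prod_right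
  intro p' _
  split_ifs with h1 h2
  · apply pw_coprime
    rintro rfl
    exact hij (h1.symm.trans h2)
  · exact Nat.coprime_one_right _
  · exact Nat.coprime_one_left _
  · exact Nat.coprime_one_left _

theorem prod_qq (L : ℕ) (hL : 1 ≤ L) (s : PF L → Fin 3) :
    qq L s 0 * qq L s 1 * qq L s 2 = L := by
  have h1 : ∏ i : Fin 3, qq L s i = L := by
    unfold qq
    rw [prod_comm]
    conv_rhs => rw [← prod_pw L hL]
    refine prod_congr rfl (fun p _ => ?_)
    rw [prod_ite_eq univ (s p) (fun _ => pw L p), if_pos (mem_univ _)]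
  rw [Fin.prod_univ_three] at h1
  exact h1

theorem pw_pos (L : ℕ) (p : PF L) : 0 < pw L p :=
  pow_pos (Nat.prime_of_mem_primeFactors p.2).pos _

theorem qq_pos (L : ℕ) (s : PF L → Fin 3) (i : Fin 3) : 1 ≤ qq L s i := by
  unfold qq
  apply Nat.one_le_iff_ne_zero.2
  rw [Finset.prod_ne_zero_iff]
  intro p _
  split_ifs
  · exact (pw_pos L p).ne'
  · exact one_ne_zero

/-- A prime power divides the product of pairwise coprime numbers iff it divides exactly one. -/
theorem three_coprime {p l : ℕ} (hp : p.Prime) (hl : 1 ≤ l) (x : Fin 3 → ℕ)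
    (h01 : (x 0).Coprime (x 1)) (h02 : (x 0).Coprime (x 2)) (h12 : (x 1).Coprime (x 2)) :
    ∑ i : Fin 3, (if p ^ l ∣ x i then (1 : ℝ) else 0) =
      if p ^ l ∣ x 0 * x 1 * x 2 then 1 else 0 := by
  have hpl : p ∣ p ^ l := dvd_pow_self p (by omega)
  have nd : ∀ {a b : ℕ}, a.Coprime b → p ∣ a → ¬ p ^ l ∣ b := by
    intro a b hab ha hb
    exact Nat.Prime.not_coprime_iff_dvd.2 ⟨p, hp, ha, hpl.trans hb⟩ hab
  have cp : ∀ {b : ℕ}, ¬ p ∣ b → (p ^ l).Coprime b := by
    intro b hb
    exact Nat.Coprime.pow_left l ((Nat.Prime.coprime_iff_not_dvd hp).2 hb)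
  rw [Fin.sum_univ_three]
  by_cases h0 : p ∣ x 0
  · have n1 : ¬ p ∣ x 1 := fun h => Nat.Prime.not_coprime_iff_dvd.2 ⟨p, hp, h0, h⟩ h01
    have n2 : ¬ p ∣ x 2 := fun h => Nat.Prime.not_coprime_iff_dvd.2 ⟨p, hp, h0, h⟩ h02
    rw [if_neg (fun h => n1 (hpl.trans h)), if_neg (fun h => n2 (hpl.trans h)), add_zero, add_zero]
    congr 1
    rw [mul_assoc, eq_iff_iff]
    constructor
    · exact fun h => h.mul_right _
    · exact fun h => (cp (b := x 1 * x 2) (by
        intro h3
        rcases hp.dvd_mul.1 h3 with h4 | h4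
        · exact n1 h4
        · exact n2 h4)).dvd_of_dvd_mul_right h
  · rw [if_neg (fun h => h0 (hpl.trans h)), zero_add]
    by_cases h1 : p ∣ x 1
    · have n2 : ¬ p ∣ x 2 := fun h => Nat.Prime.not_coprime_iff_dvd.2 ⟨p, hp, h1, h⟩ h12
      rw [if_neg (fun h => n2 (hpl.trans h)), add_zero]
      congr 1
      rw [eq_iff_iff]
      constructor
      · exact fun h => (h.mul_left _).mul_right _
      · intro h
        have h3 := (cp n2).dvd_of_dvd_mul_right h
        exact (cp h0).dvd_of_dvd_mul_left h3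
    · rw [if_neg (fun h => h1 (hpl.trans h)), zero_add]
      congr 1
      rw [eq_iff_iff]
      constructor
      · exact fun h => h.mul_left _
      · intro h
        refine (cp (b := x 0 * x 1) ?_).dvd_of_dvd_mul_left h
        intro h3
        rcases hp.dvd_mul.1 h3 with h4 | h4
        · exact h0 h4
        · exact h1 h4

/-- The number of assignments compatible with `t`. -/
theorem sum_assign (L : ℕ) (hL : 1 ≤ L) (t : ℕ × ℕ) (ht : t.1.Coprime t.2) :
    ∑ s : PF L → Fin 3, (if ∀ i, qq L s i ∣ mem3 t i then (1 : ℝ) else 0) =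
      if L ∣ Nn t then 1 else 0 := by
  have h1 : ∀ s : PF L → Fin 3, (if ∀ i, qq L s i ∣ mem3 t i then (1 : ℝ) else 0) =
      ∏ p : PF L, (if pw L p ∣ mem3 t (s p) then (1 : ℝ) else 0) := by
    intro s
    by_cases h : ∀ i, qq L s i ∣ mem3 t i
    · rw [if_pos h]
      symm
      apply prod_eq_one
      intro p _
      exact if_pos ((qq_dvd_all L s (mem3 t)).1 h p)
    · rw [if_neg h]
      symm
      have h2 : ∃ p, ¬ pw L p ∣ mem3 t (s p) := by
        by_contra hcon
        push Not at hcon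
        exact h ((qq_dvd_all L s (mem3 t)).2 hcon)
      obtain ⟨p, hp⟩ := h2
      exact prod_eq_zero (mem_univ p) (if_neg hp)
  have e := Finset.prod_univ_sum (fun _ : PF L => (univ : Finset (Fin 3)))
    (fun p i => if pw L p ∣ mem3 t i then (1 : ℝ) else 0)
  rw [Fintype.piFinset_univ] at e
  rw [sum_congr rfl (fun s _ => h1 s), ← e]
  have h3 : ∀ p : PF L, ∑ i : Fin 3, (if pw L p ∣ mem3 t i then (1 : ℝ) else 0) =
      if pw L p ∣ Nn t then 1 else 0 := by
    intro p
    have hp := Nat.prime_of_mem_primeFactors p.2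
    have hl : 1 ≤ L.factorization p.1 :=
      hp.factorization_pos_of_dvd (by omega) (Nat.dvd_of_mem_primeFactors p.2)
    have h4 := three_coprime hp hl (mem3 t) ht (by
      show t.1.Coprime (t.1 + t.2)
      rw [Nat.coprime_self_add_right]
      exact ht) (by
      show t.2.Coprime (t.1 + t.2)
      rw [Nat.coprime_add_self_right]
      exact ht.symm)
    exact h4
  rw [prod_congr rfl (fun p _ => h3 p)]
  by_cases h : L ∣ Nn t
  · rw [if_pos h]
    exact prod_eq_one (fun p _ => if_pos ((dvd_iff_pw L hL _).1 h p))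
  · rw [if_neg h]
    have h2 : ∃ p, ¬ pw L p ∣ Nn t := by
      by_contra hcon
      push Not at hcon
      exact h ((dvd_iff_pw L hL _).2 hcon)
    obtain ⟨p, hp⟩ := h2
    exact prod_eq_zero (mem_univ p) (if_neg hp)

theorem Ac_eq (L : ℕ) (hL : 1 ≤ L) (T : ℝ) :
    (Ac L T : ℝ) = ∑ s : PF L → Fin 3, (Bc (qq L s 0) (qq L s 1) (qq L s 2) T : ℝ) := by
  have h1 : ∀ s : PF L → Fin 3, (Bc (qq L s 0) (qq L s 1) (qq L s 2) T : ℝ) =
      ∑ t ∈ (Reg T).filter (fun t => t.1.Coprime t.2),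
        (if ∀ i, qq L s i ∣ mem3 t i then (1 : ℝ) else 0) := by
    intro s
    unfold Bc
    rw [← sum_filter, filter_filter, sum_const, nsmul_eq_mul, mul_one]
    congr 2
    apply filter_congr
    intro t _
    rw [Fin.forall_fin_succ, Fin.forall_fin_two]
    rfl
  rw [sum_congr rfl (fun s _ => h1 s), sum_comm]
  have h2 : ∀ t ∈ (Reg T).filter (fun t => t.1.Coprime t.2),
      ∑ s : PF L → Fin 3, (if ∀ i, qq L s i ∣ mem3 t i then (1 : ℝ) else 0) =
        if L ∣ Nn t then 1 else 0 := fun t ht => sum_assign L hL t (mem_filter.1 ht).2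
  rw [sum_congr rfl h2, ← sum_filter, filter_filter, sum_const, nsmul_eq_mul, mul_one]
  rfl

theorem fac_count : ∃ C1 : ℝ, 0 < C1 ∧ ∀ (L : ℕ), 1 ≤ L → ∀ T : ℝ, 1 ≤ T →
    |(Ac L T : ℝ) - c0 * T ^ (2 / 3 : ℝ) *
      (3 ^ L.primeFactors.card * (6 / Real.pi ^ 2 * psi L / L))| ≤
      C1 * 3 ^ L.primeFactors.card * √T := by
  obtain ⟨C1, hC1, h⟩ := cop_count
  refine ⟨C1, hC1, fun L hL T hT => ?_⟩
  have hcard : ((Fintype.card (PF L → Fin 3) : ℕ) : ℝ) = 3 ^ L.primeFactors.card := by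
    rw [Fintype.card_fun, Fintype.card_fin, Fintype.card_coe]
    push_cast
    rfl
  have h1 : (Ac L T : ℝ) - c0 * T ^ (2 / 3 : ℝ) *
      (3 ^ L.primeFactors.card * (6 / Real.pi ^ 2 * psi L / L)) =
      ∑ s : PF L → Fin 3, ((Bc (qq L s 0) (qq L s 1) (qq L s 2) T : ℝ) -
        c0 * T ^ (2 / 3 : ℝ) * (6 / Real.pi ^ 2 * psi L / L)) := by
    rw [Ac_eq L hL, sum_sub_distrib, sum_const, card_univ, nsmul_eq_mul, hcard]
    ring
  rw [h1]
  refine (abs_sum_le_sum_abs _ _).trans ?_
  have h2 : ∀ s ∈ (univ : Finset (PF L → Fin 3)),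
      |(Bc (qq L s 0) (qq L s 1) (qq L s 2) T : ℝ) -
        c0 * T ^ (2 / 3 : ℝ) * (6 / Real.pi ^ 2 * psi L / L)| ≤ C1 * √T := by
    intro s _
    have h3 := h (qq L s 0) (qq L s 1) (qq L s 2) (qq_pos L s 0) (qq_pos L s 1) (qq_pos L s 2)
      (qq_coprime L s (by decide)) (qq_coprime L s (by decide)) (qq_coprime L s (by decide)) T hT
    rw [prod_qq L hL s] at h3
    exact h3
  refine (sum_le_sum h2).trans ?_
  rw [sum_const, card_univ, nsmul_eq_mul, hcard]
  apply le_of_eq
  ring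

end Pool.Agent.Lib.AbcG
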