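import Mathlib
import Pool.Agent.Lib.AbcG.Fac
import Pool.Agent.Lib.AbcG.Inv
import Pool.Agent.Lib.AbcG.Eul

/-!
# The number of triples with `rad ≤ Y`, `wt > V` and `c ≤ Y^(1/3 + 1/1000)`

PROOF. `V1 = Y^(1/30)`, `X = Y^(1/3+1/1000)`.
(a) `V < wt ≤ V1`: at most `∑_{V < v ≤ V1} Ac (v rad v) (Y v)`
`≤ ∑_v 3^ω(v) (c0 (Y v)^(2/3) / (v rad v) + C1 √(Y v))` (`6/π² psi ≤ 1`, the primes of `v rad v` are
those of `v`); first part `≤ c0 Y^(2/3) V^(-1/12) ∑_v 3^ω(v) v^(-1/4)/rad v` (`summable_mid`),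
second part `≤ C1 Y^(1/2) V1^(1/2) ∑_{v ≤ V1} v^2 ≤ C1 Y^(1/2) V1^(7/2)` (`3^ω(v) ≤ v^2`).
(b) `wt > V1`, `c ≤ X`: `wt(abc) = wt a * wt b * wt c` for a coprime triple, so one of them is
`> V1^(1/3)`; the number of `n ≤ X` with `wt n = v` is at most `X / (v rad v)`, so the number with
`wt n > z` is at most `X z^(-1/2) ∑_v v^(-1/2)/rad v` (`summable_box`). The pair is determined by
`(a, b)`, `(b, a)` or `(c, a)`: at most `3 X * C X V1^(-1/6) = 3 C Y^(2/3 + 1/500 - 1/180)`.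
-/

open Finset Filter

namespace Pool.Agent.Lib.AbcG

theorem tail_rad_dvd (n : ℕ) : rad n ∣ n := Nat.prod_primeFactors_dvd n

theorem tail_rad_pos (n : ℕ) : 0 < rad n :=
  Finset.prod_pos (fun _ hp => Nat.pos_of_mem_primeFactors hp)

theorem tail_rad_mul_wt (n : ℕ) : rad n * wt n = n := Nat.mul_div_cancel' (tail_rad_dvd n)

theorem tail_wt_pos {n : ℕ} (hn : 0 < n) : 0 < wt n := by
  rcases Nat.eq_zero_or_pos (wt n) with h | h
  · have := tail_rad_mul_wt n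
    rw [h, mul_zero] at this
    omega
  · exact h

theorem tail_rad_mul {m n : ℕ} (h : m.Coprime n) : rad (m * n) = rad m * rad n := by
  unfold rad
  rw [Nat.Coprime.primeFactors_mul h, Finset.prod_union (Nat.Coprime.disjoint_primeFactors h)]

theorem tail_wt_mul {m n : ℕ} (h : m.Coprime n) : wt (m * n) = wt m * wt n := by
  have h1 := tail_rad_mul_wt (m * n)
  have h2 := tail_rad_mul_wt m
  have h3 := tail_rad_mul_wt n
  rw [tail_rad_mul h] at h1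
  have h4 : rad m * rad n * wt (m * n) = rad m * rad n * (wt m * wt n) := by
    rw [h1]
    conv_lhs => rw [← h2, ← h3]
    ring
  exact Nat.eq_of_mul_eq_mul_left (Nat.mul_pos (tail_rad_pos m) (tail_rad_pos n)) h4

theorem tail_primeFactors_mul_rad {v : ℕ} (hv : 0 < v) : (v * rad v).primeFactors = v.primeFactors := by
  rw [Nat.primeFactors_mul hv.ne' (tail_rad_pos v).ne']
  apply Finset.union_eq_left.2
  intro p hp
  rw [Nat.mem_primeFactors] at hp ⊢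
  exact ⟨hp.1, hp.2.1.trans (tail_rad_dvd v), hv.ne'⟩

theorem tail_psi_le_one (L : ℕ) : psi L ≤ 1 := by
  unfold psi
  apply Finset.prod_le_one
  · intro p _
    positivity
  · intro p _
    apply inv_le_one_of_one_le₀
    have : (0 : ℝ) ≤ 1 / (p : ℝ) := by positivity
    linarith

theorem tail_psi_nonneg (L : ℕ) : 0 ≤ psi L := by
  unfold psi
  apply Finset.prod_nonneg
  intro p _
  positivity

theorem tail_two_pow_le_rad (v : ℕ) : 2 ^ v.primeFactors.card ≤ rad v := by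
  unfold rad
  rw [← Finset.prod_const]
  apply Finset.prod_le_prod'
  intro p hp
  exact (Nat.prime_of_mem_primeFactors hp).two_le

theorem tail_three_pow_le {v : ℕ} (hv : 0 < v) : (3 : ℝ) ^ v.primeFactors.card ≤ (v : ℝ) ^ 2 := by
  have h1 : 2 ^ v.primeFactors.card ≤ v := (tail_two_pow_le_rad v).trans (Nat.le_of_dvd hv (tail_rad_dvd v))
  have h2 : (2 : ℝ) ^ v.primeFactors.card ≤ v := by exact_mod_cast h1
  calc (3 : ℝ) ^ v.primeFactors.card ≤ (4 : ℝ) ^ v.primeFactors.card := by gcongr; norm_num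
    _ = ((2 : ℝ) ^ v.primeFactors.card) ^ 2 := by
        rw [← pow_mul, mul_comm, pow_mul]; norm_num
    _ ≤ (v : ℝ) ^ 2 := by gcongr

/-- Numbers with a large `wt`. -/
theorem tail_count_wt (N : ℕ) (z : ℝ) (hz : 1 ≤ z) :
    (((Icc 1 N).filter (fun n => z < wt n)).card : ℝ) ≤
      N * (z ^ (-(1 / 2) : ℝ) * ∑' v : ℕ, (v : ℝ) ^ (-(1 / 2) : ℝ) / rad v) := by
  classical
  set E := (Icc 1 N).filter (fun n => z < wt n) with hE
  set W := (Icc 1 N).filter (fun v : ℕ => z < v) with hW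
  have h1 : E.card ≤ ∑ v ∈ W, (N / (v * rad v)) := by
    have hmap : ∀ n ∈ E, wt n ∈ W := by
      intro n hn
      rw [hE, mem_filter, mem_Icc] at hn
      rw [hW, mem_filter, mem_Icc]
      refine ⟨⟨tail_wt_pos hn.1.1, ?_⟩, hn.2⟩
      exact (Nat.div_le_self _ _).trans hn.1.2
    rw [Finset.card_eq_sum_card_fiberwise hmap]
    apply Finset.sum_le_sum
    intro v hv
    rw [hW, mem_filter, mem_Icc] at hv
    rw [← Nat.Ioc_filter_dvd_card_eq_div]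
    apply Finset.card_le_card
    intro n hn
    rw [mem_filter, hE, mem_filter, mem_Icc] at hn
    rw [mem_filter, mem_Ioc]
    refine ⟨⟨hn.1.1.1, hn.1.1.2⟩, ?_⟩
    exact (dvd_wt_iff hv.1.1 hn.1.1.1).1 (by rw [hn.2])
  calc (E.card : ℝ) ≤ ((∑ v ∈ W, (N / (v * rad v)) : ℕ) : ℝ) := by exact_mod_cast h1
    _ = ∑ v ∈ W, ((N / (v * rad v) : ℕ) : ℝ) := by push_cast; rfl
    _ ≤ ∑ v ∈ W, (N : ℝ) * (z ^ (-(1 / 2) : ℝ) * ((v : ℝ) ^ (-(1 / 2) : ℝ) / rad v)) := by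
        apply Finset.sum_le_sum
        intro v hv
        rw [hW, mem_filter, mem_Icc] at hv
        have hv0 : (0 : ℝ) < v := by exact_mod_cast hv.1.1
        have hr0 : (0 : ℝ) < rad v := by exact_mod_cast tail_rad_pos v
        have hz0 : 0 < z := by linarith
        calc ((N / (v * rad v) : ℕ) : ℝ) ≤ (N : ℝ) / ((v * rad v : ℕ) : ℝ) := Nat.cast_div_le
          _ = (N : ℝ) * ((v : ℝ) ^ (-(1 / 2) : ℝ) * ((v : ℝ) ^ (-(1 / 2) : ℝ) / rad v)) := by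
              push_cast
              rw [← mul_div_assoc, ← Real.rpow_add hv0]
              norm_num
              rw [Real.rpow_neg_one]
              field_simp
          _ ≤ (N : ℝ) * (z ^ (-(1 / 2) : ℝ) * ((v : ℝ) ^ (-(1 / 2) : ℝ) / rad v)) := by
              apply mul_le_mul_of_nonneg_left _ (Nat.cast_nonneg _)
              apply mul_le_mul_of_nonneg_right _ (by positivity)
              apply Real.rpow_le_rpow_of_nonpos hz0 hv.2.le (by norm_num)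
    _ = N * (z ^ (-(1 / 2) : ℝ) * ∑ v ∈ W, (v : ℝ) ^ (-(1 / 2) : ℝ) / rad v) := by
        rw [Finset.mul_sum, Finset.mul_sum]
    _ ≤ N * (z ^ (-(1 / 2) : ℝ) * ∑' v : ℕ, (v : ℝ) ^ (-(1 / 2) : ℝ) / rad v) := by
        apply mul_le_mul_of_nonneg_left _ (Nat.cast_nonneg _)
        apply mul_le_mul_of_nonneg_left _ (by positivity)
        apply summable_box.sum_le_tsum
        intro v _
        positivity

/-- The middle range. -/
theorem tail_mid_range : ∃ K : ℝ, 0 < K ∧ ∀ (Y : ℕ) (V : ℝ), 1 ≤ Y → 1 ≤ V → ∀ F : Finset (ℕ × ℕ),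
    (∀ t ∈ F, 0 < t.1 ∧ 0 < t.2 ∧ t.1.Coprime t.2 ∧ rad (Nn t) ≤ Y ∧ V < wt (Nn t) ∧
      (wt (Nn t) : ℝ) ≤ (Y : ℝ) ^ (1 / 30 : ℝ)) →
    (F.card : ℝ) ≤ K * ((Y : ℝ) ^ (2 / 3 : ℝ) * V ^ (-(1 / 12) : ℝ) +
      (Y : ℝ) ^ (2 / 3 - 1 / 300 : ℝ)) := by
  classical
  obtain ⟨C1, hC1, hfac⟩ := fac_count
  set S1 : ℝ := ∑' v : ℕ, (3 : ℝ) ^ v.primeFactors.card * (v : ℝ) ^ (-(1 / 4) : ℝ) / rad v with hS1
  have hS10 : 0 ≤ S1 := by
    apply tsum_nonneg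
    intro v
    positivity
  have hc0 : 0 ≤ c0 := by
    unfold c0
    have h1 : 0 < Real.Gamma (2 / 3) := Real.Gamma_pos_of_pos (by norm_num)
    positivity
  refine ⟨c0 * S1 + C1, by positivity, ?_⟩
  intro Y V hY hV F hF
  have hYr : (1 : ℝ) ≤ Y := by exact_mod_cast hY
  have hY0 : (0 : ℝ) < Y := by linarith
  set V1 : ℝ := (Y : ℝ) ^ (1 / 30 : ℝ) with hV1
  have hV11 : 1 ≤ V1 := Real.one_le_rpow hYr (by norm_num)
  have hV10 : 0 < V1 := by linarith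
  set W := (Icc 1 ⌊V1⌋₊).filter (fun v : ℕ => V < v) with hW
  have hmap : ∀ t ∈ F, wt (Nn t) ∈ W := by
    intro t ht
    obtain ⟨h1, h2, _, _, h5, h6⟩ := hF t ht
    have hN : 0 < Nn t := by
      unfold Nn
      positivity
    rw [hW, mem_filter, mem_Icc]
    exact ⟨⟨tail_wt_pos hN, Nat.le_floor h6⟩, h5⟩
  have h1 : F.card ≤ ∑ v ∈ W, Ac (v * rad v) ((Y : ℝ) * v) := by
    rw [Finset.card_eq_sum_card_fiberwise hmap]
    apply Finset.sum_le_sum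
    intro v hv
    rw [hW, mem_filter, mem_Icc] at hv
    unfold Ac
    apply Finset.card_le_card
    intro t ht
    rw [mem_filter] at ht
    obtain ⟨h1, h2, h3, h4, h5, h6⟩ := hF t ht.1
    have hN : 0 < Nn t := by
      unfold Nn
      positivity
    rw [mem_filter, mem_Reg]
    refine ⟨⟨h1, h2, ?_⟩, h3, ?_⟩
    · have h7 := tail_rad_mul_wt (Nn t)
      rw [ht.2] at h7
      have h8 : ((rad (Nn t) : ℕ) : ℝ) * v = Nn t := by exact_mod_cast h7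
      rw [← h8]
      apply mul_le_mul_of_nonneg_right _ (Nat.cast_nonneg _)
      exact_mod_cast h4
    · exact (dvd_wt_iff hv.1.1 hN).1 (by rw [ht.2])
  have h2 : ∀ v ∈ W, (Ac (v * rad v) ((Y : ℝ) * v) : ℝ) ≤
      c0 * (Y : ℝ) ^ (2 / 3 : ℝ) * V ^ (-(1 / 12) : ℝ) *
        ((3 : ℝ) ^ v.primeFactors.card * (v : ℝ) ^ (-(1 / 4) : ℝ) / rad v) +
      C1 * (V1 ^ 2 * √(Y * V1)) := by
    intro v hv
    rw [hW, mem_filter, mem_Icc] at hv
    have hv1 : (1 : ℝ) ≤ v := by exact_mod_cast hv.1.1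
    have hv0 : (0 : ℝ) < v := by linarith
    have hvV : (v : ℝ) ≤ V1 := (Nat.le_floor_iff hV10.le).1 hv.1.2
    have hr0 : (0 : ℝ) < rad v := by exact_mod_cast tail_rad_pos v
    have hT : 1 ≤ (Y : ℝ) * v := by nlinarith
    have hL : 1 ≤ v * rad v := Nat.mul_pos hv.1.1 (tail_rad_pos v)
    have h3 := hfac (v * rad v) hL ((Y : ℝ) * v) hT
    rw [tail_primeFactors_mul_rad hv.1.1] at h3
    have h4 := (abs_le.1 h3).2
    have h5 : c0 * ((Y : ℝ) * v) ^ (2 / 3 : ℝ) *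
      (3 ^ v.primeFactors.card * (6 / Real.pi ^ 2 * psi (v * rad v) / ((v * rad v : ℕ) : ℝ))) ≤
      c0 * (Y : ℝ) ^ (2 / 3 : ℝ) * V ^ (-(1 / 12) : ℝ) *
        ((3 : ℝ) ^ v.primeFactors.card * (v : ℝ) ^ (-(1 / 4) : ℝ) / rad v) := by
      have h6 : 6 / Real.pi ^ 2 * psi (v * rad v) ≤ 1 := by
        have hpi : 6 / Real.pi ^ 2 ≤ 1 := by
          rw [div_le_one (by positivity)]
          nlinarith [Real.pi_gt_three]
        calc 6 / Real.pi ^ 2 * psi (v * rad v) ≤ 1 * 1 := by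
              apply mul_le_mul hpi (tail_psi_le_one _) (tail_psi_nonneg _) (by norm_num)
          _ = 1 := by norm_num
      have h7 : (v : ℝ) ^ (2 / 3 : ℝ) / v = (v : ℝ) ^ (-(1 / 4) : ℝ) * (v : ℝ) ^ (-(1 / 12) : ℝ) := by
        rw [← Real.rpow_add hv0]
        nth_rewrite 2 [← Real.rpow_one (v : ℝ)]
        rw [← Real.rpow_sub hv0]
        norm_num
      have h8 : (v : ℝ) ^ (-(1 / 12) : ℝ) ≤ V ^ (-(1 / 12) : ℝ) :=
        Real.rpow_le_rpow_of_nonpos (by linarith) hv.2.le (by norm_num)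
      calc c0 * ((Y : ℝ) * v) ^ (2 / 3 : ℝ) *
          (3 ^ v.primeFactors.card * (6 / Real.pi ^ 2 * psi (v * rad v) / ((v * rad v : ℕ) : ℝ)))
          ≤ c0 * ((Y : ℝ) * v) ^ (2 / 3 : ℝ) *
          (3 ^ v.primeFactors.card * (1 / ((v * rad v : ℕ) : ℝ))) := by
            gcongr
        _ = c0 * (Y : ℝ) ^ (2 / 3 : ℝ) * (3 ^ v.primeFactors.card *
            ((v : ℝ) ^ (2 / 3 : ℝ) / v) / rad v) := by
            rw [Real.mul_rpow hY0.le hv0.le]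
            push_cast
            field_simp
        _ = c0 * (Y : ℝ) ^ (2 / 3 : ℝ) * (v : ℝ) ^ (-(1 / 12) : ℝ) *
            ((3 : ℝ) ^ v.primeFactors.card * (v : ℝ) ^ (-(1 / 4) : ℝ) / rad v) := by
            rw [h7]
            ring
        _ ≤ c0 * (Y : ℝ) ^ (2 / 3 : ℝ) * V ^ (-(1 / 12) : ℝ) *
            ((3 : ℝ) ^ v.primeFactors.card * (v : ℝ) ^ (-(1 / 4) : ℝ) / rad v) := by
            gcongr
    have h9 : C1 * 3 ^ v.primeFactors.card * √((Y : ℝ) * v) ≤ C1 * (V1 ^ 2 * √(Y * V1)) := by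
      have h10 : (3 : ℝ) ^ v.primeFactors.card ≤ V1 ^ 2 := (tail_three_pow_le hv.1.1).trans (by gcongr)
      have h11 : √((Y : ℝ) * v) ≤ √((Y : ℝ) * V1) := Real.sqrt_le_sqrt (by gcongr)
      rw [mul_assoc]
      gcongr
    linarith
  have h3 : (W.card : ℝ) ≤ V1 := by
    calc (W.card : ℝ) ≤ ((Icc 1 ⌊V1⌋₊).card : ℝ) := by
          exact_mod_cast Finset.card_le_card (Finset.filter_subset _ _)
      _ = ⌊V1⌋₊ := by rw [Nat.card_Icc, Nat.add_sub_cancel]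
      _ ≤ V1 := Nat.floor_le hV10.le
  have h4 : V1 * (V1 ^ 2 * √(Y * V1)) ≤ (Y : ℝ) ^ (2 / 3 - 1 / 300 : ℝ) := by
    have e1 : √((Y : ℝ) * V1) = (Y : ℝ) ^ (31 / 60 : ℝ) := by
      rw [Real.sqrt_eq_rpow, hV1]
      nth_rewrite 1 [← Real.rpow_one (Y : ℝ)]
      rw [← Real.rpow_add hY0, ← Real.rpow_mul hY0.le]
      norm_num
    have e2 : V1 * V1 ^ 2 = (Y : ℝ) ^ (1 / 10 : ℝ) := by
      rw [← pow_succ', hV1, ← Real.rpow_natCast, ← Real.rpow_mul hY0.le]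
      norm_num
    rw [← mul_assoc, e1, e2, ← Real.rpow_add hY0]
    apply Real.rpow_le_rpow_of_exponent_le hYr
    norm_num
  calc (F.card : ℝ) ≤ ((∑ v ∈ W, Ac (v * rad v) ((Y : ℝ) * v) : ℕ) : ℝ) := by exact_mod_cast h1
    _ = ∑ v ∈ W, (Ac (v * rad v) ((Y : ℝ) * v) : ℝ) := by push_cast; rfl
    _ ≤ ∑ v ∈ W, (c0 * (Y : ℝ) ^ (2 / 3 : ℝ) * V ^ (-(1 / 12) : ℝ) *
        ((3 : ℝ) ^ v.primeFactors.card * (v : ℝ) ^ (-(1 / 4) : ℝ) / rad v) +
        C1 * (V1 ^ 2 * √(Y * V1))) := Finset.sum_le_sum h2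
    _ = c0 * (Y : ℝ) ^ (2 / 3 : ℝ) * V ^ (-(1 / 12) : ℝ) *
        (∑ v ∈ W, (3 : ℝ) ^ v.primeFactors.card * (v : ℝ) ^ (-(1 / 4) : ℝ) / rad v) +
        C1 * (W.card * (V1 ^ 2 * √(Y * V1))) := by
        rw [Finset.sum_add_distrib, ← Finset.mul_sum, Finset.sum_const, nsmul_eq_mul]
        ring
    _ ≤ c0 * (Y : ℝ) ^ (2 / 3 : ℝ) * V ^ (-(1 / 12) : ℝ) * S1 +
        C1 * (Y : ℝ) ^ (2 / 3 - 1 / 300 : ℝ) := by
        apply add_le_add
        · apply mul_le_mul_of_nonneg_left _ (by positivity)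
          apply summable_mid.sum_le_tsum
          intro v _
          positivity
        · apply mul_le_mul_of_nonneg_left _ hC1.le
          refine le_trans ?_ h4
          apply mul_le_mul_of_nonneg_right h3
          positivity
    _ ≤ (c0 * S1 + C1) * ((Y : ℝ) ^ (2 / 3 : ℝ) * V ^ (-(1 / 12) : ℝ) +
      (Y : ℝ) ^ (2 / 3 - 1 / 300 : ℝ)) := by
        have e1 : 0 ≤ (Y : ℝ) ^ (2 / 3 : ℝ) * V ^ (-(1 / 12) : ℝ) := by positivity
        have e2 : 0 ≤ (Y : ℝ) ^ (2 / 3 - 1 / 300 : ℝ) := by positivity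
        have e3 : 0 ≤ c0 * S1 := by positivity
        nlinarith [mul_nonneg e3 e2, mul_nonneg hC1.le e1]

/-- The box range. -/
theorem tail_box_range (Y : ℕ) (hY : 1 ≤ Y) (F : Finset (ℕ × ℕ))
    (hF : ∀ t ∈ F, 0 < t.1 ∧ 0 < t.2 ∧ t.1.Coprime t.2 ∧
      (Y : ℝ) ^ (1 / 30 : ℝ) < wt (Nn t) ∧
      (t.1 : ℝ) + t.2 ≤ (Y : ℝ) ^ (1 / 3 + 1 / 1000 : ℝ)) :
    (F.card : ℝ) ≤ (3 * ∑' v : ℕ, (v : ℝ) ^ (-(1 / 2) : ℝ) / rad v) *
      (Y : ℝ) ^ (2 / 3 - 1 / 300 : ℝ) := by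
  classical
  have hYr : (1 : ℝ) ≤ Y := by exact_mod_cast hY
  have hY0 : (0 : ℝ) < Y := by linarith
  set X : ℝ := (Y : ℝ) ^ (1 / 3 + 1 / 1000 : ℝ) with hX
  have hX0 : 0 < X := by positivity
  set z : ℝ := (Y : ℝ) ^ (1 / 90 : ℝ) with hz
  have hz1 : 1 ≤ z := Real.one_le_rpow hYr (by norm_num)
  have hz3 : z ^ 3 = (Y : ℝ) ^ (1 / 30 : ℝ) := by
    rw [hz, ← Real.rpow_natCast, ← Real.rpow_mul hY0.le]
    norm_num
  set N : ℕ := ⌊X⌋₊ with hN
  set E := (Icc 1 N).filter (fun n => z < wt n) with hE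
  set S2 : ℝ := ∑' v : ℕ, (v : ℝ) ^ (-(1 / 2) : ℝ) / rad v with hS2
  have hS20 : 0 ≤ S2 := by
    apply tsum_nonneg
    intro v
    positivity
  have hEc : (E.card : ℝ) ≤ N * (z ^ (-(1 / 2) : ℝ) * S2) := tail_count_wt N z hz1
  have hNX : (N : ℝ) ≤ X := Nat.floor_le hX0.le
  -- the three parts
  have hsub : F ⊆ (E ×ˢ Icc 1 N) ∪ ((Icc 1 N ×ˢ E) ∪
      (E ×ˢ Icc 1 N).image (fun p => (p.2, p.1 - p.2))) := by
    intro t ht
    obtain ⟨h1, h2, h3, h4, h5⟩ := hF t ht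
    have hc : t.1 + t.2 ≤ N := by
      apply Nat.le_floor
      push_cast
      exact h5
    have ha : t.1 ∈ Icc 1 N := mem_Icc.2 ⟨h1, by omega⟩
    have hb : t.2 ∈ Icc 1 N := mem_Icc.2 ⟨h2, by omega⟩
    have hcc : t.1 + t.2 ∈ Icc 1 N := mem_Icc.2 ⟨by omega, hc⟩
    have hco : (t.1 * t.2).Coprime (t.1 + t.2) := by
      apply Nat.Coprime.mul_left
      · exact Nat.coprime_self_add_right.2 h3
      · exact Nat.coprime_add_self_right.2 h3.symm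
    have hw : wt (Nn t) = wt t.1 * wt t.2 * wt (t.1 + t.2) := by
      unfold Nn
      rw [tail_wt_mul hco, tail_wt_mul h3]
    rw [mem_union, mem_union, mem_product, mem_product, mem_image]
    by_cases hza : z < wt t.1
    · left
      exact ⟨mem_filter.2 ⟨ha, hza⟩, hb⟩
    · right
      by_cases hzb : z < wt t.2
      · left
        exact ⟨ha, mem_filter.2 ⟨hb, hzb⟩⟩
      · right
        refine ⟨(t.1 + t.2, t.1), ?_, ?_⟩
        · rw [mem_product]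
          refine ⟨mem_filter.2 ⟨hcc, ?_⟩, ha⟩
          by_contra hzc
          push Not at hza hzb hzc
          rw [← hz3, hw] at h4
          push_cast at h4
          have : (wt t.1 : ℝ) * wt t.2 * wt (t.1 + t.2) ≤ z ^ 3 := by
            calc (wt t.1 : ℝ) * wt t.2 * wt (t.1 + t.2) ≤ z * z * z := by gcongr
              _ = z ^ 3 := by ring
          linarith
        · simp
  have hcard : F.card ≤ 3 * (E.card * N) := by
    refine (Finset.card_le_card hsub).trans ?_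
    refine (Finset.card_union_le _ _).trans ?_
    have e1 : (E ×ˢ Icc 1 N).card = E.card * N := by
      rw [Finset.card_product, Nat.card_Icc, Nat.add_sub_cancel]
    have e2 : (Icc 1 N ×ˢ E).card = E.card * N := by
      rw [Finset.card_product, Nat.card_Icc, Nat.add_sub_cancel, mul_comm]
    have e3 := (Finset.card_union_le (Icc 1 N ×ˢ E)
      ((E ×ˢ Icc 1 N).image (fun p => (p.2, p.1 - p.2))))
    have e4 : ((E ×ˢ Icc 1 N).image (fun p => (p.2, p.1 - p.2))).card ≤ (E ×ˢ Icc 1 N).card :=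
      Finset.card_image_le
    omega
  have hcard' : (F.card : ℝ) ≤ 3 * ((E.card : ℝ) * N) := by exact_mod_cast hcard
  calc (F.card : ℝ) ≤ 3 * ((E.card : ℝ) * N) := hcard'
    _ ≤ 3 * ((X * (z ^ (-(1 / 2) : ℝ) * S2)) * X) := by
        have e1 : (E.card : ℝ) ≤ X * (z ^ (-(1 / 2) : ℝ) * S2) :=
          hEc.trans (by gcongr)
        gcongr
    _ = (3 * S2) * (X * X * z ^ (-(1 / 2) : ℝ)) := by ring
    _ ≤ (3 * S2) * (Y : ℝ) ^ (2 / 3 - 1 / 300 : ℝ) := by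
        apply mul_le_mul_of_nonneg_left _ (by positivity)
        rw [hX, hz, ← Real.rpow_mul hY0.le, ← Real.rpow_add hY0, ← Real.rpow_add hY0]
        apply Real.rpow_le_rpow_of_exponent_le hYr
        norm_num

theorem tail_box : ∃ K : ℝ, 0 < K ∧ ∀ (Y : ℕ) (V : ℝ), 1 ≤ Y → 1 ≤ V → ∀ F : Finset (ℕ × ℕ),
    (∀ t ∈ F, 0 < t.1 ∧ 0 < t.2 ∧ t.1.Coprime t.2 ∧ rad (Nn t) ≤ Y ∧ V < wt (Nn t) ∧
      (t.1 : ℝ) + t.2 ≤ (Y : ℝ) ^ (1 / 3 + 1 / 1000 : ℝ)) →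
    (F.card : ℝ) ≤ K * ((Y : ℝ) ^ (2 / 3 : ℝ) * V ^ (-(1 / 12) : ℝ) +
      (Y : ℝ) ^ (2 / 3 - 1 / 300 : ℝ)) := by
  classical
  obtain ⟨K1, hK1, hmid⟩ := tail_mid_range
  set S2 : ℝ := ∑' v : ℕ, (v : ℝ) ^ (-(1 / 2) : ℝ) / rad v with hS2
  have hS20 : 0 ≤ S2 := by
    apply tsum_nonneg
    intro v
    positivity
  refine ⟨K1 + 3 * S2, by positivity, ?_⟩
  intro Y V hY hV F hF
  set P : ℕ × ℕ → Prop := fun t => (wt (Nn t) : ℝ) ≤ (Y : ℝ) ^ (1 / 30 : ℝ) with hP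
  have h1 := hmid Y V hY hV (F.filter P) (by
    intro t ht
    rw [mem_filter] at ht
    obtain ⟨h1, h2, h3, h4, h5, _⟩ := hF t ht.1
    exact ⟨h1, h2, h3, h4, h5, ht.2⟩)
  have h2 := tail_box_range Y hY (F.filter (fun t => ¬ P t)) (by
    intro t ht
    rw [mem_filter] at ht
    obtain ⟨h1, h2, h3, _, _, h6⟩ := hF t ht.1
    exact ⟨h1, h2, h3, not_le.1 ht.2, h6⟩)
  have h3 : (F.card : ℝ) = ((F.filter P).card : ℝ) + ((F.filter (fun t => ¬ P t)).card : ℝ) := by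
    rw [← Finset.card_filter_add_card_filter_not P]
    push_cast
    rfl
  rw [h3]
  have e1 : 0 ≤ (Y : ℝ) ^ (2 / 3 : ℝ) * V ^ (-(1 / 12) : ℝ) := by positivity
  have e3 : 0 ≤ 3 * S2 := by positivity
  nlinarith [mul_nonneg e3 e1]

end Pool.Agent.Lib.AbcG
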