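import Mathlib
import Pool.Agent.Lib.AbcG.Tail
import Pool.Agent.Lib.P5632c9.DivBound

/-!
# The asymptotic formula

Assembly: Moebius inversion (`inv_count`), lattice counts (`fac_count`), the tail (`tail_box` and
the hypothesis `TailHyp`) and the singular series.
-/

open Finset Filter

namespace Pool.Agent.Lib.AbcG

theorem wt_le (n : ℕ) : wt n ≤ n := Nat.div_le_self _ _

theorem primeFactors_mul_rad {v : ℕ} (hv : v ≠ 0) : (v * rad v).primeFactors = v.primeFactors := by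
  rw [Nat.primeFactors_mul hv (rad_pos v).ne']
  have : (rad v).primeFactors ⊆ v.primeFactors := Nat.primeFactors_mono (rad_dvd v) hv
  exact Finset.union_eq_left.mpr this

theorem three_pow_le {v : ℕ} (hv : v ≠ 0) : (3 : ℝ) ^ v.primeFactors.card ≤ (v : ℝ) ^ 2 := by
  have h1 : 3 ^ v.primeFactors.card ≤ ∏ p ∈ v.primeFactors, p ^ 2 := by
    rw [← Finset.prod_const]
    apply Finset.prod_le_prod' 
    intro p hp
    have := (Nat.prime_of_mem_primeFactors hp).two_le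
    nlinarith
  have h2 : ∏ p ∈ v.primeFactors, p ^ 2 ≤ v ^ 2 := by
    rw [Finset.prod_pow]
    exact Nat.pow_le_pow_left (Nat.le_of_dvd (Nat.pos_of_ne_zero hv) (rad_dvd v)) 2
  exact_mod_cast h1.trans h2

theorem card_div_le (v : ℕ) : (v.divisors.card : ℝ) ≤ v := by
  exact_mod_cast Nat.card_divisors_le_self v

/-- The main term of the truncated Moebius sum. -/
theorem main_term {C1 : ℝ} (hC1 : 0 < C1) (hfac : ∀ (L : ℕ), 1 ≤ L → ∀ T : ℝ, 1 ≤ T →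
    |(Ac L T : ℝ) - c0 * T ^ (2 / 3 : ℝ) *
      (3 ^ L.primeFactors.card * (6 / Real.pi ^ 2 * psi L / L))| ≤
      C1 * 3 ^ L.primeFactors.card * √T) (Y V : ℕ) (hY : 1 ≤ Y) (hV : 1 ≤ V) :
    |∑ v ∈ Icc 1 V, ∑ m ∈ v.divisors,
        ((ArithmeticFunction.moebius m : ℤ) : ℝ) * (Ac (v * rad v) ((Y : ℝ) * v / m) : ℝ) -
      c0 * (6 / Real.pi ^ 2) * (Y : ℝ) ^ (2 / 3 : ℝ) * ∑ v ∈ Icc 1 V, hh v| ≤
      C1 * √Y * (V : ℝ) ^ 5 := by
  have hY0 : (1 : ℝ) ≤ Y := by exact_mod_cast hY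
  have hV0 : (1 : ℝ) ≤ V := by exact_mod_cast hV
  rw [Finset.mul_sum, ← Finset.sum_sub_distrib]
  refine (Finset.abs_sum_le_sum_abs _ _).trans ?_
  have hterm : ∀ v ∈ Icc 1 V, |∑ m ∈ v.divisors,
        ((ArithmeticFunction.moebius m : ℤ) : ℝ) * (Ac (v * rad v) ((Y : ℝ) * v / m) : ℝ) -
      c0 * (6 / Real.pi ^ 2) * (Y : ℝ) ^ (2 / 3 : ℝ) * hh v| ≤ C1 * √Y * (V : ℝ) ^ 4 := by
    intro v hv
    rw [mem_Icc] at hv
    have hv0 : v ≠ 0 := by omega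
    have hvR : (1 : ℝ) ≤ v := by exact_mod_cast hv.1
    have hvV : (v : ℝ) ≤ V := by exact_mod_cast hv.2
    have hrad : (0 : ℝ) < rad v := by exact_mod_cast rad_pos v
    have hpsi : psi (v * rad v) = psi v := by
      unfold psi
      rw [primeFactors_mul_rad hv0]
    have e1 : c0 * (6 / Real.pi ^ 2) * (Y : ℝ) ^ (2 / 3 : ℝ) * hh v =
        ∑ m ∈ v.divisors, ((ArithmeticFunction.moebius m : ℤ) : ℝ) *
          (c0 * ((Y : ℝ) * v / m) ^ (2 / 3 : ℝ) *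
            (3 ^ (v * rad v).primeFactors.card * (6 / Real.pi ^ 2 * psi (v * rad v) /
              ((v * rad v : ℕ) : ℝ)))) := by
      unfold hh
      rw [Finset.mul_sum, Finset.mul_sum]
      apply Finset.sum_congr rfl
      intro m hm
      have hm0 : (0 : ℝ) < m := by
        exact_mod_cast Nat.pos_of_mem_divisors hm
      rw [hpsi, primeFactors_mul_rad hv0, Real.div_rpow (by positivity) hm0.le,
        Real.mul_rpow (by positivity) (by positivity), Real.rpow_neg hm0.le]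
      push_cast
      ring
    rw [e1, ← Finset.sum_sub_distrib]
    refine (Finset.abs_sum_le_sum_abs _ _).trans ?_
    have hin : ∀ m ∈ v.divisors, |((ArithmeticFunction.moebius m : ℤ) : ℝ) *
        (Ac (v * rad v) ((Y : ℝ) * v / m) : ℝ) - ((ArithmeticFunction.moebius m : ℤ) : ℝ) *
          (c0 * ((Y : ℝ) * v / m) ^ (2 / 3 : ℝ) *
            (3 ^ (v * rad v).primeFactors.card * (6 / Real.pi ^ 2 * psi (v * rad v) /
              ((v * rad v : ℕ) : ℝ))))| ≤ C1 * √Y * (V : ℝ) ^ 3 := by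
      intro m hm
      have hm1 : (1 : ℝ) ≤ m := by
        exact_mod_cast Nat.pos_of_mem_divisors hm
      have hmv : (m : ℝ) ≤ v := by
        exact_mod_cast Nat.divisor_le hm
      have hT : 1 ≤ (Y : ℝ) * v / m := by
        rw [le_div_iff₀ (by linarith), one_mul]
        nlinarith
      have hL : 1 ≤ v * rad v := Nat.mul_pos (by omega) (rad_pos v)
      have h1 := hfac (v * rad v) hL _ hT
      rw [← mul_sub, abs_mul]
      have h2 : |((ArithmeticFunction.moebius m : ℤ) : ℝ)| ≤ 1 := by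
        have := ArithmeticFunction.abs_moebius_le_one (n := m)
        exact_mod_cast this
      refine (mul_le_mul h2 h1 (abs_nonneg _) (by norm_num)).trans ?_
      rw [one_mul, primeFactors_mul_rad hv0]
      have h3 : √((Y : ℝ) * v / m) ≤ √Y * V := by
        rw [Real.sqrt_le_left (by positivity), mul_pow, Real.sq_sqrt (by positivity)]
        rw [div_le_iff₀ (by linarith)]
        have : (v : ℝ) ≤ (V : ℝ) ^ 2 := by nlinarith
        calc (Y : ℝ) * v ≤ Y * (V : ℝ) ^ 2 := by gcongr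
          _ ≤ Y * (V : ℝ) ^ 2 * m := le_mul_of_one_le_right (by positivity) hm1
      have h4 : (3 : ℝ) ^ v.primeFactors.card ≤ (V : ℝ) ^ 2 :=
        (three_pow_le hv0).trans (by gcongr)
      calc C1 * 3 ^ v.primeFactors.card * √((Y : ℝ) * v / m) ≤
            C1 * (V : ℝ) ^ 2 * (√Y * V) := by gcongr
        _ = C1 * √Y * (V : ℝ) ^ 3 := by ring
    refine (Finset.sum_le_sum hin).trans ?_
    rw [Finset.sum_const, nsmul_eq_mul]
    calc (v.divisors.card : ℝ) * (C1 * √Y * (V : ℝ) ^ 3) ≤ V * (C1 * √Y * (V : ℝ) ^ 3) := by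
          gcongr
          exact (Nat.card_divisors_le_self v).trans hv.2
      _ = C1 * √Y * (V : ℝ) ^ 4 := by ring
  refine (Finset.sum_le_sum hterm).trans ?_
  rw [Finset.sum_const, nsmul_eq_mul, Nat.card_Icc, Nat.add_sub_cancel]
  apply le_of_eq
  ring

/-- Completing the singular series. -/
theorem series_tail_aux (hh : ℕ → ℝ) (hh_nonneg : ∀ v, 0 ≤ hh v)
    (summable_hh : Summable (fun v : ℕ => hh v * (v : ℝ) ^ (1 / 12 : ℝ))) (h0 : hh 0 = 0)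
    (V : ℕ) (hV : 1 ≤ V) :
    |∑ v ∈ Icc 1 V, hh v - ∑' v : ℕ, hh v| ≤
      (V : ℝ) ^ (-(1 / 12) : ℝ) * ∑' v : ℕ, hh v * (v : ℝ) ^ (1 / 12 : ℝ) := by
  have hV0 : (1 : ℝ) ≤ V := by exact_mod_cast hV
  have hs : Summable hh := by
    refine Summable.of_nonneg_of_le hh_nonneg (fun v => ?_) summable_hh
    rcases Nat.eq_zero_or_pos v with rfl | hv
    · rw [h0, zero_mul]
    · have h1 : (1 : ℝ) ≤ (v : ℝ) ^ (1 / 12 : ℝ) :=
        Real.one_le_rpow (by exact_mod_cast hv) (by norm_num)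
      exact le_mul_of_one_le_right (hh_nonneg v) h1
  have e1 : ∑ v ∈ Icc 1 V, hh v = ∑ v ∈ Finset.range (V + 1), hh v := by
    apply Finset.sum_subset
    · intro v hv
      rw [mem_Icc] at hv
      rw [Finset.mem_range]
      omega
    · intro v hv hv'
      rw [Finset.mem_range] at hv
      rw [mem_Icc] at hv'
      have : v = 0 := by omega
      rw [this, h0]
  have e2 := hs.sum_add_tsum_nat_add (V + 1)
  rw [e1, abs_sub_comm, ← e2, add_sub_cancel_left]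
  have hs2 : Summable (fun i => hh (i + (V + 1))) := (summable_nat_add_iff (V + 1)).mpr hs
  have hs3 : Summable (fun i : ℕ => hh (i + (V + 1)) * ((i + (V + 1) : ℕ) : ℝ) ^ (1 / 12 : ℝ)) :=
    (summable_nat_add_iff (V + 1)).mpr summable_hh
  rw [abs_of_nonneg (tsum_nonneg fun i => hh_nonneg _)]
  have h2 : ∑' i : ℕ, hh (i + (V + 1)) ≤ ∑' i : ℕ, (V : ℝ) ^ (-(1 / 12) : ℝ) *
      (hh (i + (V + 1)) * ((i + (V + 1) : ℕ) : ℝ) ^ (1 / 12 : ℝ)) := by
    refine Summable.tsum_le_tsum (fun i => ?_) hs2 (hs3.mul_left _)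
    have h3 : (V : ℝ) ^ (1 / 12 : ℝ) ≤ ((i + (V + 1) : ℕ) : ℝ) ^ (1 / 12 : ℝ) := by
      apply Real.rpow_le_rpow (by positivity) _ (by norm_num)
      push_cast
      have : (0 : ℝ) ≤ i := Nat.cast_nonneg i
      linarith
    have h4 : (V : ℝ) ^ (-(1 / 12) : ℝ) * (V : ℝ) ^ (1 / 12 : ℝ) = 1 := by
      rw [← Real.rpow_add (by linarith)]
      norm_num
    have h5 : (1 : ℝ) ≤ (V : ℝ) ^ (-(1 / 12) : ℝ) * ((i + (V + 1) : ℕ) : ℝ) ^ (1 / 12 : ℝ) := by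
      exact h4.symm.le.trans
        (mul_le_mul_of_nonneg_left h3 (Real.rpow_nonneg (Nat.cast_nonneg V) _))
    calc hh (i + (V + 1)) = 1 * hh (i + (V + 1)) := (one_mul _).symm
      _ ≤ ((V : ℝ) ^ (-(1 / 12) : ℝ) * ((i + (V + 1) : ℕ) : ℝ) ^ (1 / 12 : ℝ)) *
          hh (i + (V + 1)) := mul_le_mul_of_nonneg_right h5 (hh_nonneg _)
      _ = _ := by ring
  refine h2.trans ?_
  rw [tsum_mul_left]
  apply mul_le_mul_of_nonneg_left _ (by positivity)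
  have e3 := summable_hh.sum_add_tsum_nat_add (V + 1)
  have h6 : 0 ≤ ∑ v ∈ Finset.range (V + 1), hh v * (v : ℝ) ^ (1 / 12 : ℝ) :=
    Finset.sum_nonneg fun v _ => mul_nonneg (hh_nonneg v)
      (Real.rpow_nonneg (Nat.cast_nonneg v) _)
  linarith

/-- Completing the singular series. -/
theorem series_tail (V : ℕ) (hV : 1 ≤ V) :
    |∑ v ∈ Icc 1 V, hh v - ∑' v : ℕ, hh v| ≤
      (V : ℝ) ^ (-(1 / 12) : ℝ) * ∑' v : ℕ, hh v * (v : ℝ) ^ (1 / 12 : ℝ) :=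
  series_tail_aux hh hh_nonneg summable_hh (by simp [hh]) V hV

/-- The error of the truncation: triples with `c` large. -/
theorem err_large (V : ℕ) (hV : 1 ≤ V) (F : Finset (ℕ × ℕ)) :
    ∑ t ∈ F, (1 + ∑ v ∈ (Icc 1 V).filter (fun v => v ∣ wt (Nn t)), (v.divisors.card : ℝ)) ≤
      2 * (V : ℝ) ^ 2 * F.card := by
  have hV0 : (1 : ℝ) ≤ V := by exact_mod_cast hV
  have h1 : ∀ t ∈ F, (1 + ∑ v ∈ (Icc 1 V).filter (fun v => v ∣ wt (Nn t)),
      (v.divisors.card : ℝ)) ≤ 2 * (V : ℝ) ^ 2 := by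
    intro t _
    have h2 : ∑ v ∈ (Icc 1 V).filter (fun v => v ∣ wt (Nn t)), (v.divisors.card : ℝ) ≤
        ∑ v ∈ Icc 1 V, (V : ℝ) := by
      refine (Finset.sum_le_sum_of_subset_of_nonneg (Finset.filter_subset _ _)
        (fun v _ _ => Nat.cast_nonneg _)).trans (Finset.sum_le_sum fun v hv => ?_)
      rw [mem_Icc] at hv
      exact (card_div_le v).trans (by exact_mod_cast hv.2)
    rw [Finset.sum_const, nsmul_eq_mul, Nat.card_Icc, Nat.add_sub_cancel] at h2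
    nlinarith
  refine (Finset.sum_le_sum h1).trans ?_
  rw [Finset.sum_const, nsmul_eq_mul]
  apply le_of_eq
  ring

/-- The error of the truncation: triples with `c` small. -/
theorem err_small (V : ℕ) (F : Finset (ℕ × ℕ)) (D : ℝ) (hD : 1 ≤ D)
    (hF : ∀ t ∈ F, 0 < t.1 ∧ 0 < t.2 ∧ ((wt (Nn t)).divisors.card : ℝ) ≤ D) :
    ∑ t ∈ F, (1 + ∑ v ∈ (Icc 1 V).filter (fun v => v ∣ wt (Nn t)), (v.divisors.card : ℝ)) ≤
      2 * D ^ 2 * F.card := by
  have h1 : ∀ t ∈ F, (1 + ∑ v ∈ (Icc 1 V).filter (fun v => v ∣ wt (Nn t)),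
      (v.divisors.card : ℝ)) ≤ 2 * D ^ 2 := by
    intro t ht
    obtain ⟨ha, hb, hc⟩ := hF t ht
    have hW := wt_pos (Nn_pos ha hb)
    have h2 : ∑ v ∈ (Icc 1 V).filter (fun v => v ∣ wt (Nn t)), (v.divisors.card : ℝ) ≤
        ∑ v ∈ (wt (Nn t)).divisors, D := by
      refine (Finset.sum_le_sum_of_subset_of_nonneg (t := (wt (Nn t)).divisors) ?_
        (fun v _ _ => Nat.cast_nonneg _)).trans (Finset.sum_le_sum fun v hv => ?_)
      · intro v hv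
        rw [mem_filter] at hv
        exact Nat.mem_divisors.mpr ⟨hv.2, hW.ne'⟩
      · refine le_trans ?_ hc
        exact_mod_cast Finset.card_le_card
          (Nat.divisors_subset_of_dvd hW.ne' (Nat.dvd_of_mem_divisors hv))
    rw [Finset.sum_const, nsmul_eq_mul] at h2
    have h3 : ((wt (Nn t)).divisors.card : ℝ) * D ≤ D * D :=
      mul_le_mul_of_nonneg_right hc (by linarith)
    nlinarith
  refine (Finset.sum_le_sum h1).trans ?_
  rw [Finset.sum_const, nsmul_eq_mul]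
  apply le_of_eq
  ring

theorem main (h : TailHyp) : ∃ κ : ℝ, 0 < κ ∧ ∀ᶠ Y : ℕ in atTop, ∀ F : Finset (ℕ × ℕ),
    (∀ t : ℕ × ℕ, t ∈ F ↔ 0 < t.1 ∧ 0 < t.2 ∧ t.1.Coprime t.2 ∧ rad (Nn t) ≤ Y) →
    |(F.card : ℝ) - Cabc * (Y : ℝ) ^ (2 / 3 : ℝ)| ≤ (Y : ℝ) ^ (2 / 3 - κ) := by
  classical
  obtain ⟨κ0, hκ0, htail⟩ := h
  obtain ⟨C1, hC1, hfac⟩ := fac_count
  obtain ⟨K, hK, hbox⟩ := tail_box
  set κ : ℝ := min κ0 (1 / 300) with hκdef
  have hκ : 0 < κ := lt_min hκ0 (by norm_num)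
  have hκle : κ ≤ κ0 := min_le_left _ _
  have hκ300 : κ ≤ 1 / 300 := min_le_right _ _
  obtain ⟨Cd, hCd, hdiv⟩ := Pool.Agent.Lib.P5632c9.card_divisors_le (κ / 800) (by positivity)
  set H : ℝ := ∑' v : ℕ, hh v * (v : ℝ) ^ (1 / 12 : ℝ) with hH
  have hH0 : 0 ≤ H := tsum_nonneg fun v => mul_nonneg (hh_nonneg v) (by positivity)
  have hc0 : 0 < c0 := by
    unfold c0
    have h1 := Real.Gamma_pos_of_pos (show (0 : ℝ) < 1 / 3 by norm_num)
    have h2 := Real.Gamma_pos_of_pos (show (0 : ℝ) < 2 / 3 by norm_num)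
    positivity
  set Z : ℝ := c0 * (6 / Real.pi ^ 2) with hZ
  have hZ0 : 0 < Z := by
    have := Real.pi_pos
    positivity
  set CC : ℝ := 2 + 2 * Cd ^ 2 * (K * 3) + C1 + Z * (2 * H) with hCC
  have hCC0 : 0 < CC := by positivity
  refine ⟨κ / 100, by positivity, ?_⟩
  have hlarge : ∀ᶠ Y : ℕ in atTop, CC ≤ (Y : ℝ) ^ (κ / 64 - κ / 100) := by
    have h1 : Tendsto (fun Y : ℕ => (Y : ℝ) ^ (κ / 64 - κ / 100)) atTop atTop :=
      (tendsto_rpow_atTop (by linarith)).comp tendsto_natCast_atTop_atTop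
    exact h1.eventually (eventually_ge_atTop CC)
  filter_upwards [htail, hlarge, eventually_ge_atTop 1] with Y hYtail hYlarge hY1 F hF
  have hy1 : (1 : ℝ) ≤ Y := by exact_mod_cast hY1
  have hy0 : (0 : ℝ) < Y := by linarith
  set V : ℕ := ⌊(Y : ℝ) ^ (κ / 4)⌋₊ with hV
  have hyκ : 1 ≤ (Y : ℝ) ^ (κ / 4) := Real.one_le_rpow hy1 (by positivity)
  have hV1 : 1 ≤ V := Nat.le_floor (by exact_mod_cast hyκ)
  have hV1' : (1 : ℝ) ≤ V := by exact_mod_cast hV1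
  have hVle : (V : ℝ) ≤ (Y : ℝ) ^ (κ / 4) := Nat.floor_le (by positivity)
  have hVge : (Y : ℝ) ^ (κ / 4) / 2 ≤ V := by
    have := Nat.lt_floor_add_one ((Y : ℝ) ^ (κ / 4))
    linarith
  have hV12 : (V : ℝ) ^ (-(1 / 12) : ℝ) ≤ 2 * (Y : ℝ) ^ (-(κ / 48)) := by
    have h1 : (V : ℝ) ^ (-(1 / 12) : ℝ) ≤ ((Y : ℝ) ^ (κ / 4) / 2) ^ (-(1 / 12) : ℝ) :=
      Real.rpow_le_rpow_of_nonpos (by positivity) hVge (by norm_num)
    have h2 : ((Y : ℝ) ^ (κ / 4) / 2) ^ (-(1 / 12) : ℝ) =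
        (2 : ℝ) ^ (1 / 12 : ℝ) * (Y : ℝ) ^ (-(κ / 48)) := by
      rw [Real.div_rpow (by positivity) (by norm_num), ← Real.rpow_mul hy0.le,
        Real.rpow_neg (by norm_num : (0 : ℝ) ≤ 2), div_inv_eq_mul, mul_comm]
      congr 2
      ring
    have h3 : (2 : ℝ) ^ (1 / 12 : ℝ) ≤ 2 := by
      calc (2 : ℝ) ^ (1 / 12 : ℝ) ≤ (2 : ℝ) ^ (1 : ℝ) :=
            Real.rpow_le_rpow_of_exponent_le (by norm_num) (by norm_num)
        _ = 2 := Real.rpow_one 2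
    rw [h2] at h1
    exact h1.trans (mul_le_mul_of_nonneg_right h3 (by positivity))
  -- the pieces
  have hinv := inv_count Y V hY1 F hF
  have hmain := main_term hC1 hfac Y V hY1 hV1
  have hser := series_tail V hV1
  rw [← hH] at hser
  -- the error of the truncation
  set G := F.filter (fun t => V < wt (Nn t)) with hG
  set X : ℝ := (Y : ℝ) ^ (1 / 3 + 1 / 1000 : ℝ) with hX
  have hX1 : 1 ≤ X := Real.one_le_rpow hy1 (by norm_num)
  set G1 := G.filter (fun t => X < (t.1 : ℝ) + t.2) with hG1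
  set G2 := G.filter (fun t => ¬ X < (t.1 : ℝ) + t.2) with hG2
  have hsplit := Finset.sum_filter_add_sum_filter_not G (fun t => X < (t.1 : ℝ) + t.2)
    (fun t => (1 + ∑ v ∈ (Icc 1 V).filter (fun v => v ∣ wt (Nn t)), (v.divisors.card : ℝ)))
  have hG1card : (G1.card : ℝ) ≤ (Y : ℝ) ^ (2 / 3 - κ0) := by
    apply hYtail
    intro t ht
    rw [hG1, hG, mem_filter, mem_filter] at ht
    obtain ⟨h1, h2, h3, h4⟩ := (hF t).mp ht.1.1
    exact ⟨h1, h2, h3, h4, ht.2⟩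
  have hG2card : (G2.card : ℝ) ≤ K * ((Y : ℝ) ^ (2 / 3 : ℝ) * (V : ℝ) ^ (-(1 / 12) : ℝ) +
      (Y : ℝ) ^ (2 / 3 - 1 / 300 : ℝ)) := by
    apply hbox Y V hY1 hV1'
    intro t ht
    rw [hG2, hG, mem_filter, mem_filter] at ht
    obtain ⟨h1, h2, h3, h4⟩ := (hF t).mp ht.1.1
    refine ⟨h1, h2, h3, h4, by exact_mod_cast ht.1.2, not_lt.mp ht.2⟩
  have hE1 := err_large V hV1 G1
  set D : ℝ := Cd * (Y : ℝ) ^ (κ / 400) with hD
  have hD1 : 1 ≤ D := by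
    have := Real.one_le_rpow hy1 (show 0 ≤ κ / 400 by positivity)
    rw [hD]
    nlinarith
  have hE2 := err_small V G2 D hD1 (by
    intro t ht
    rw [hG2, hG, mem_filter, mem_filter] at ht
    obtain ⟨h1, h2, h3, h4⟩ := (hF t).mp ht.1.1
    refine ⟨h1, h2, ?_⟩
    have hc := not_lt.mp ht.2
    have hW := wt_pos (Nn_pos h1 h2)
    refine (hdiv _ hW.ne').trans ?_
    rw [hD]
    apply mul_le_mul_of_nonneg_left _ (by linarith)
    have ha0 : (0 : ℝ) < t.1 := by exact_mod_cast h1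
    have hb0 : (0 : ℝ) < t.2 := by exact_mod_cast h2
    have h5 : ((wt (Nn t) : ℕ) : ℝ) ≤ (Y : ℝ) ^ (2 : ℝ) := by
      calc ((wt (Nn t) : ℕ) : ℝ) ≤ (Nn t : ℕ) := by exact_mod_cast wt_le _
        _ = t.1 * t.2 * ((t.1 : ℝ) + t.2) := by unfold Nn; push_cast; ring
        _ ≤ X * X * X := by
            have e1 : (t.1 : ℝ) ≤ X := by linarith
            have e2 : (t.2 : ℝ) ≤ X := by linarith
            gcongr
        _ = (Y : ℝ) ^ (3 * (1 / 3 + 1 / 1000) : ℝ) := by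
            rw [hX, ← Real.rpow_add hy0, ← Real.rpow_add hy0]
            congr 1
            ring
        _ ≤ (Y : ℝ) ^ (2 : ℝ) := Real.rpow_le_rpow_of_exponent_le hy1 (by norm_num)
    calc ((wt (Nn t) : ℕ) : ℝ) ^ (κ / 800) ≤ ((Y : ℝ) ^ (2 : ℝ)) ^ (κ / 800) :=
          Real.rpow_le_rpow (by positivity) h5 (by positivity)
      _ = (Y : ℝ) ^ (κ / 400) := by
          rw [← Real.rpow_mul hy0.le]
          congr 1
          ring)
  set P : ℝ := (Y : ℝ) ^ (2 / 3 - κ / 64) with hP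
  have hP0 : 0 < P := by positivity
  have hmono : ∀ a : ℝ, a ≤ 2 / 3 - κ / 64 → (Y : ℝ) ^ a ≤ P := fun a ha =>
    Real.rpow_le_rpow_of_exponent_le hy1 ha
  -- bound 1
  have b1 : 2 * (V : ℝ) ^ 2 * G1.card ≤ 2 * P := by
    have h1 : (V : ℝ) ^ 2 ≤ (Y : ℝ) ^ (κ / 2) := by
      calc (V : ℝ) ^ 2 ≤ ((Y : ℝ) ^ (κ / 4)) ^ 2 := by gcongr
        _ = (Y : ℝ) ^ (κ / 2) := by
            rw [← Real.rpow_natCast, ← Real.rpow_mul hy0.le]
            congr 1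
            push_cast
            ring
    calc 2 * (V : ℝ) ^ 2 * G1.card ≤ 2 * (Y : ℝ) ^ (κ / 2) * (Y : ℝ) ^ (2 / 3 - κ0) := by gcongr
      _ = 2 * (Y : ℝ) ^ (κ / 2 + (2 / 3 - κ0)) := by rw [mul_assoc, ← Real.rpow_add hy0]
      _ ≤ 2 * P := by
          apply mul_le_mul_of_nonneg_left (hmono _ _) (by norm_num)
          linarith
  -- bound 2
  have b2 : 2 * D ^ 2 * G2.card ≤ 2 * Cd ^ 2 * (K * 3) * P := by
    have h1 : D ^ 2 = Cd ^ 2 * (Y : ℝ) ^ (κ / 200) := by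
      rw [hD, mul_pow, ← Real.rpow_natCast ((Y : ℝ) ^ (κ / 400)), ← Real.rpow_mul hy0.le]
      congr 2
      push_cast
      ring
    have h2 : (Y : ℝ) ^ (2 / 3 : ℝ) * (V : ℝ) ^ (-(1 / 12) : ℝ) ≤
        2 * (Y : ℝ) ^ (2 / 3 - κ / 48) := by
      calc (Y : ℝ) ^ (2 / 3 : ℝ) * (V : ℝ) ^ (-(1 / 12) : ℝ) ≤
            (Y : ℝ) ^ (2 / 3 : ℝ) * (2 * (Y : ℝ) ^ (-(κ / 48))) := by gcongr
        _ = 2 * ((Y : ℝ) ^ (2 / 3 : ℝ) * (Y : ℝ) ^ (-(κ / 48))) := by ring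
        _ = 2 * (Y : ℝ) ^ (2 / 3 - κ / 48) := by
            rw [← Real.rpow_add hy0]
            congr 2
    have h3 : (Y : ℝ) ^ (2 / 3 - 1 / 300 : ℝ) ≤ (Y : ℝ) ^ (2 / 3 - κ / 48) :=
      Real.rpow_le_rpow_of_exponent_le hy1 (by linarith)
    have h4 : (G2.card : ℝ) ≤ K * (3 * (Y : ℝ) ^ (2 / 3 - κ / 48)) := by
      refine hG2card.trans ?_
      apply mul_le_mul_of_nonneg_left _ hK.le
      linarith
    have h5 : (Y : ℝ) ^ (κ / 200) * (Y : ℝ) ^ (2 / 3 - κ / 48) ≤ P := by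
      rw [← Real.rpow_add hy0]
      apply hmono
      linarith
    calc 2 * D ^ 2 * G2.card ≤ 2 * (Cd ^ 2 * (Y : ℝ) ^ (κ / 200)) *
          (K * (3 * (Y : ℝ) ^ (2 / 3 - κ / 48))) := by
            rw [h1]
            gcongr
      _ = 2 * Cd ^ 2 * (K * 3) * ((Y : ℝ) ^ (κ / 200) * (Y : ℝ) ^ (2 / 3 - κ / 48)) := by ring
      _ ≤ 2 * Cd ^ 2 * (K * 3) * P := by gcongr
  -- bound 3
  have b3 : C1 * √Y * (V : ℝ) ^ 5 ≤ C1 * P := by
    have h1 : (V : ℝ) ^ 5 ≤ (Y : ℝ) ^ (5 * κ / 4) := by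
      calc (V : ℝ) ^ 5 ≤ ((Y : ℝ) ^ (κ / 4)) ^ 5 := by gcongr
        _ = (Y : ℝ) ^ (5 * κ / 4) := by
            rw [← Real.rpow_natCast, ← Real.rpow_mul hy0.le]
            congr 1
            push_cast
            ring
    calc C1 * √Y * (V : ℝ) ^ 5 ≤ C1 * (Y : ℝ) ^ (1 / 2 : ℝ) * (Y : ℝ) ^ (5 * κ / 4) := by
          rw [Real.sqrt_eq_rpow]
          gcongr
      _ = C1 * (Y : ℝ) ^ (1 / 2 + 5 * κ / 4) := by rw [mul_assoc, ← Real.rpow_add hy0]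
      _ ≤ C1 * P := by
          apply mul_le_mul_of_nonneg_left (hmono _ _) hC1.le
          linarith
  -- bound 4
  have b4 : Z * (Y : ℝ) ^ (2 / 3 : ℝ) * ((V : ℝ) ^ (-(1 / 12) : ℝ) * H) ≤ Z * (2 * H) * P := by
    calc Z * (Y : ℝ) ^ (2 / 3 : ℝ) * ((V : ℝ) ^ (-(1 / 12) : ℝ) * H) ≤
          Z * (Y : ℝ) ^ (2 / 3 : ℝ) * ((2 * (Y : ℝ) ^ (-(κ / 48))) * H) := by gcongr
      _ = Z * (2 * H) * ((Y : ℝ) ^ (2 / 3 : ℝ) * (Y : ℝ) ^ (-(κ / 48))) := by ring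
      _ = Z * (2 * H) * (Y : ℝ) ^ (2 / 3 + -(κ / 48)) := by rw [← Real.rpow_add hy0]
      _ ≤ Z * (2 * H) * P := by
          apply mul_le_mul_of_nonneg_left (hmono _ _) (by positivity)
          linarith
  -- assembly
  set S1 := ∑ v ∈ Icc 1 V, ∑ m ∈ v.divisors,
        ((ArithmeticFunction.moebius m : ℤ) : ℝ) * (Ac (v * rad v) ((Y : ℝ) * v / m) : ℝ) with hS1
  set S2 := ∑ v ∈ Icc 1 V, hh v with hS2
  set S3 := ∑' v : ℕ, hh v with hS3
  have hC : Cabc = Z * S3 := by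
    rw [← singular_series, hZ]
    ring
  have t1 : |(F.card : ℝ) - S1| ≤ 2 * P + 2 * Cd ^ 2 * (K * 3) * P := by
    refine hinv.trans ?_
    rw [← hsplit]
    linarith
  have t2 : |S1 - Z * (Y : ℝ) ^ (2 / 3 : ℝ) * S2| ≤ C1 * P := hmain.trans b3
  have t3 : |Z * (Y : ℝ) ^ (2 / 3 : ℝ) * S2 - Z * (Y : ℝ) ^ (2 / 3 : ℝ) * S3| ≤
      Z * (2 * H) * P := by
    rw [← mul_sub, abs_mul, abs_of_pos (by positivity : 0 < Z * (Y : ℝ) ^ (2 / 3 : ℝ))]
    refine (mul_le_mul_of_nonneg_left hser (by positivity)).trans b4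
  have t4 : |(F.card : ℝ) - Cabc * (Y : ℝ) ^ (2 / 3 : ℝ)| ≤ CC * P := by
    have e : (F.card : ℝ) - Cabc * (Y : ℝ) ^ (2 / 3 : ℝ) = ((F.card : ℝ) - S1) +
        (S1 - Z * (Y : ℝ) ^ (2 / 3 : ℝ) * S2) +
        (Z * (Y : ℝ) ^ (2 / 3 : ℝ) * S2 - Z * (Y : ℝ) ^ (2 / 3 : ℝ) * S3) := by
      rw [hC]
      ring
    rw [e]
    refine (abs_add_three _ _ _).trans ?_
    rw [hCC]
    linarith
  refine t4.trans ?_
  calc CC * P ≤ (Y : ℝ) ^ (κ / 64 - κ / 100) * P := mul_le_mul_of_nonneg_right hYlarge hP0.le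
    _ = (Y : ℝ) ^ (2 / 3 - κ / 100) := by
        rw [hP, ← Real.rpow_add hy0]
        congr 1
        ring

end Pool.Agent.Lib.AbcG
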