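import Mathlib
import Pool.Agent.Lib.AbcG.Defs
import Pool.Agent.Lib.Pabc2.Count

/-!
# The tail hypothesis from the almost-all theorem

The almost-all theorem counts pairs with `a ≤ b`; here both orders are counted.
-/

open Finset Filter

namespace Pool.Agent.Lib.AbcG

/-- The almost-all theorem for pairs `a ≤ b`, with exponent `1/3 + 1/1000`. -/
def AlmostAllHyp : Prop := ∃ κ : ℝ, 0 < κ ∧ ∀ᶠ n : ℕ in Filter.atTop, ∀ T : Finset (ℕ × ℕ),
  (∀ t ∈ T, Pool.Agent.Lib.Pabc2.IsT t ∧ Pool.Agent.Lib.Pabc2.rd t ≤ n ∧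
    (1 / 3 + 1 / 1000) * Real.log n ≤ Pool.Agent.Lib.Pabc2.ht t) →
    (T.card : ℝ) ≤ (n : ℝ) ^ (2 / 3 - κ)

theorem rd_swap (t : ℕ × ℕ) : rad (Nn t.swap) = rad (Nn t) := by
  have : Nn t.swap = Nn t := by
    unfold Nn
    simp only [Prod.fst_swap, Prod.snd_swap]
    ring
  rw [this]

theorem tailHyp_of (h : AlmostAllHyp) : TailHyp := by
  classical
  obtain ⟨κ, hκ, hev⟩ := h
  refine ⟨κ / 2, by positivity, ?_⟩
  have hlarge : ∀ᶠ Y : ℕ in atTop, (2 : ℝ) ≤ (Y : ℝ) ^ (κ / 2) := by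
    have h1 : Tendsto (fun Y : ℕ => (Y : ℝ) ^ (κ / 2)) atTop atTop :=
      (tendsto_rpow_atTop (by linarith)).comp tendsto_natCast_atTop_atTop
    exact h1.eventually (eventually_ge_atTop 2)
  filter_upwards [hev, hlarge, eventually_ge_atTop 1] with n hn h2 hn1 T hT
  have hn0 : (0 : ℝ) < n := by exact_mod_cast (by omega : 0 < n)
  have hlog : ∀ t : ℕ × ℕ, 0 < t.1 → (n : ℝ) ^ (1 / 3 + 1 / 1000 : ℝ) < (t.1 : ℝ) + t.2 →
      (1 / 3 + 1 / 1000) * Real.log n ≤ Real.log ((t.1 : ℝ) + t.2) := by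
    intro t _ ht
    rw [← Real.log_rpow hn0]
    exact Real.log_le_log (by positivity) ht.le
  have h1 := hn (T.filter (fun t => t.1 ≤ t.2)) (by
    intro t ht
    rw [mem_filter] at ht
    obtain ⟨a1, a2, a3, a4, a5⟩ := hT t ht.1
    exact ⟨⟨a1, ht.2, a3⟩, a4, hlog t a1 a5⟩)
  have h3 := hn ((T.filter (fun t => ¬ t.1 ≤ t.2)).image Prod.swap) (by
    intro t ht
    rw [mem_image] at ht
    obtain ⟨s, hs, rfl⟩ := ht
    rw [mem_filter] at hs
    obtain ⟨a1, a2, a3, a4, a5⟩ := hT s hs.1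
    refine ⟨⟨a2, ?_, a3.symm⟩, ?_, ?_⟩
    · simp only [Prod.fst_swap, Prod.snd_swap]
      omega
    · exact (rd_swap s).le.trans a4
    · have := hlog s a1 a5
      unfold Pool.Agent.Lib.Pabc2.ht
      simp only [Prod.fst_swap, Prod.snd_swap]
      rw [add_comm (s.2 : ℝ)]
      exact this)
  rw [card_image_of_injective _ Prod.swap_injective] at h3
  have hcard : (T.card : ℝ) = (T.filter (fun t => t.1 ≤ t.2)).card +
      (T.filter (fun t => ¬ t.1 ≤ t.2)).card := by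
    exact_mod_cast (card_filter_add_card_filter_not (s := T) (fun t => t.1 ≤ t.2)).symm
  have h4 : (n : ℝ) ^ (2 / 3 - κ / 2) = (n : ℝ) ^ (κ / 2) * (n : ℝ) ^ (2 / 3 - κ) := by
    rw [← Real.rpow_add hn0]
    congr 1
    ring
  rw [h4, hcard]
  have h5 : 0 ≤ (n : ℝ) ^ (2 / 3 - κ) := by positivity
  nlinarith

end Pool.Agent.Lib.AbcG
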