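import Mathlib
import Pool.Agent.Lib.AbcG.Main
import Pool.Agent.Lib.AbcG.TailOf

/-!
# The asymptotic formula for triples, and the constant
-/

open Finset Filter

namespace Pool.Agent.Lib.AbcG

/-- The local factor. -/
noncomputable def facP (p : ℕ) : ℝ := (1 - 1 / (p : ℝ)) * (1 + 1 / (p : ℝ) +
    3 * (p : ℝ) ^ (-(4 / 3) : ℝ) + 3 * (p : ℝ) ^ (-(5 / 3) : ℝ))

theorem hasProd_fac : HasProd (fun p : Nat.Primes => facP p)
    (6 / Real.pi ^ 2 * ∑' v : ℕ, hh v) := by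
  have h1 := EulerProduct.eulerProduct_hasProd (f := hh) hh_one (fun {m n} h => hh_mul h)
    summable_hh'.norm hh_zero
  have h2 := hasProd_mobT 1 le_rfl
  rw [tsum_mobT_one] at h2
  have h3 := h2.mul h1
  have e : (fun p : Nat.Primes => facP p) = fun p : Nat.Primes =>
      (1 - (Nat.gcd p 1 : ℝ) / (p : ℝ) ^ 2) * ∑' e : ℕ, hh ((p : ℕ) ^ e) := by
    funext p
    have hp := p.2
    have hp0 : (0 : ℝ) < (p : ℝ) := by exact_mod_cast hp.pos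
    rw [tsum_hh hp, Nat.gcd_one_right]
    have e1 : (p : ℝ) ^ (-(4 / 3) : ℝ) = 1 / p * (p : ℝ) ^ (-(1 / 3) : ℝ) := by
      rw [show (-(4 / 3) : ℝ) = -1 + -(1 / 3) by norm_num, Real.rpow_add hp0, Real.rpow_neg_one,
        one_div (p : ℝ)]
    have e2 : (p : ℝ) ^ (-(5 / 3) : ℝ) = 1 / p * ((p : ℝ) ^ (-(1 / 3) : ℝ)) ^ 2 := by
      rw [← Real.rpow_natCast, ← Real.rpow_mul hp0.le, show (-(5 / 3) : ℝ) =
        -1 + -(1 / 3) * ((2 : ℕ) : ℝ) by norm_num, Real.rpow_add hp0, Real.rpow_neg_one,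
        one_div (p : ℝ)]
    unfold facP
    rw [e1, e2]
    obtain ⟨x, hx⟩ : ∃ x, x = (p : ℝ) ^ (-(1 / 3) : ℝ) := ⟨_, rfl⟩
    rw [← hx]
    have hp1 : (p : ℝ) + 1 ≠ 0 := by positivity
    push_cast
    field_simp
    ring
  rw [e]
  exact h3

theorem Cabc_eq : Cabc = c0 * ∏' p : Nat.Primes, facP p := rfl

theorem tsum_hh_ge : 1 ≤ ∑' v : ℕ, hh v := by
  have h := summable_hh'.le_tsum 1 (fun v _ => hh_nonneg v)
  rw [hh_one] at h
  exact h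

theorem Cabc_pos : 0 < Cabc := by
  rw [← singular_series]
  have h1 := tsum_hh_ge
  have h2 := c0_pos
  have h3 := Real.pi_pos
  positivity

/-- Transfer from pairs to triples. -/
theorem transfer_set (P : ℕ × ℕ → Prop) (S : Set (ℕ × ℕ × ℕ))
    (hS : ∀ a b c : ℕ, (a, b, c) ∈ S ↔ P (a, b) ∧ a + b = c)
    (F : Finset (ℕ × ℕ)) (hF : ∀ t, t ∈ F ↔ P t) : S.Finite ∧ S.ncard = F.card := by
  classical
  have h1 : S = ((F.image (fun t => (t.1, t.2, t.1 + t.2)) : Finset (ℕ × ℕ × ℕ)) :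
      Set (ℕ × ℕ × ℕ)) := by
    ext ⟨a, b, c⟩
    rw [hS, Finset.mem_coe, Finset.mem_image]
    constructor
    · rintro ⟨h1, h2⟩
      exact ⟨(a, b), (hF _).mpr h1, by rw [h2]⟩
    · rintro ⟨⟨a', b'⟩, h1, h2⟩
      simp only [Prod.mk.injEq] at h2
      obtain ⟨rfl, rfl, rfl⟩ := h2
      exact ⟨(hF _).mp h1, rfl⟩
  have h2 : Function.Injective (fun t : ℕ × ℕ => (t.1, t.2, t.1 + t.2)) := by
    rintro ⟨a, b⟩ ⟨a', b'⟩ h
    simp only [Prod.mk.injEq] at h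
    rw [h.1, h.2.1]
  rw [h1]
  refine ⟨Finset.finite_toSet _, ?_⟩
  rw [Set.ncard_coe_finset, Finset.card_image_of_injective _ h2]

/-- There are only finitely many pairs with bounded radical (a consequence of the tail bound). -/
theorem pairs_finite (h : TailHyp) (Y : ℕ) : {t : ℕ × ℕ | 0 < t.1 ∧ 0 < t.2 ∧
    t.1.Coprime t.2 ∧ rad (Nn t) ≤ Y}.Finite := by
  classical
  obtain ⟨κ, _, hev⟩ := h
  obtain ⟨n, hn, hYn⟩ := (hev.and (eventually_ge_atTop Y)).exists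
  set X : ℝ := (n : ℝ) ^ (1 / 3 + 1 / 1000 : ℝ) with hX
  have h1 : {t : ℕ × ℕ | 0 < t.1 ∧ 0 < t.2 ∧ t.1.Coprime t.2 ∧ rad (Nn t) ≤ n ∧
      X < (t.1 : ℝ) + t.2}.Finite := by
    by_contra hinf
    obtain ⟨T, hT1, hT2⟩ := (Set.not_finite.mp hinf).exists_subset_card_eq
      (⌈(n : ℝ) ^ (2 / 3 - κ)⌉₊ + 1)
    have h2 := hn T (fun t ht => hT1 ht)
    rw [hT2] at h2
    push_cast at h2
    have h3 := Nat.le_ceil ((n : ℝ) ^ (2 / 3 - κ))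
    linarith
  have h2 : {t : ℕ × ℕ | (t.1 : ℝ) + t.2 ≤ X}.Finite := by
    refine (Finset.finite_toSet ((Finset.range (⌊X⌋₊ + 1)) ×ˢ
      (Finset.range (⌊X⌋₊ + 1)))).subset ?_
    rintro ⟨a, b⟩ hab
    have hab' : (a : ℝ) + b ≤ X := hab
    have ha : (0 : ℝ) ≤ a := Nat.cast_nonneg a
    have hb : (0 : ℝ) ≤ b := Nat.cast_nonneg b
    rw [Finset.mem_coe, Finset.mem_product, Finset.mem_range, Finset.mem_range]
    constructor
    · exact Nat.lt_succ_of_le (Nat.le_floor (by simp only; linarith))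
    · exact Nat.lt_succ_of_le (Nat.le_floor (by simp only; linarith))
  refine (h1.union h2).subset ?_
  rintro t ⟨a1, a2, a3, a4⟩
  by_cases hc : X < (t.1 : ℝ) + t.2
  · exact Or.inl ⟨a1, a2, a3, a4.trans hYn, hc⟩
  · exact Or.inr (not_lt.mp hc)

/-- The asymptotic formula for sets of triples. -/
theorem final (h : AlmostAllHyp) :
    ∃ κ : ℝ, 0 < κ ∧ ∀ᶠ Y : ℕ in atTop, ∀ S : Set (ℕ × ℕ × ℕ),
      (∀ a b c : ℕ, (a, b, c) ∈ S ↔ (0 < a ∧ 0 < b ∧ a.Coprime b ∧ rad (Nn (a, b)) ≤ Y) ∧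
        a + b = c) → S.Finite ∧ |(S.ncard : ℝ) - Cabc * (Y : ℝ) ^ (2 / 3 : ℝ)| ≤
          (Y : ℝ) ^ (2 / 3 - κ) := by
  have hfin := pairs_finite (tailHyp_of h)
  obtain ⟨κ, hκ, hev⟩ := main (tailHyp_of h)
  refine ⟨κ, hκ, ?_⟩
  filter_upwards [hev] with Y hY S hS
  have hF : ∀ t : ℕ × ℕ, t ∈ (hfin Y).toFinset ↔ 0 < t.1 ∧ 0 < t.2 ∧
      t.1.Coprime t.2 ∧ rad (Nn t) ≤ Y := by
    intro t
    rw [Set.Finite.mem_toFinset]
    rfl
  obtain ⟨h1, h2⟩ := transfer_set (fun t => 0 < t.1 ∧ 0 < t.2 ∧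
      t.1.Coprime t.2 ∧ rad (Nn t) ≤ Y) S (fun a b c => hS a b c) (hfin Y).toFinset hF
  refine ⟨h1, ?_⟩
  rw [h2]
  exact hY _ hF

end Pool.Agent.Lib.AbcG
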